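import Pool.Agent.P.MP_daa8d5_co.Pl.Stm

set_option autoImplicit false

namespace Pool.Agent.P.MP_daa8d5_co.Pl

open Set

namespace AncP

/-- A lexicographic half-plane is convex. -/
theorem convex_lex (a b c a' b' c' : ℝ) :
    Convex ℝ {y : ℝ × ℝ | 0 < a * y.1 + b * y.2 + c ∨
      (0 ≤ a * y.1 + b * y.2 + c ∧ 0 < a' * y.1 + b' * y.2 + c')} := by
  intro u hu v hv s r hs hr hsr
  have e1 : a * (s • u + r • v).1 + b * (s • u + r • v).2 + c =
      s * (a * u.1 + b * u.2 + c) + r * (a * v.1 + b * v.2 + c) := by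
    simp only [Prod.fst_add, Prod.snd_add, Prod.smul_fst, Prod.smul_snd, smul_eq_mul]
    linear_combination (-c) * hsr
  have e2 : a' * (s • u + r • v).1 + b' * (s • u + r • v).2 + c' =
      s * (a' * u.1 + b' * u.2 + c') + r * (a' * v.1 + b' * v.2 + c') := by
    simp only [Prod.fst_add, Prod.snd_add, Prod.smul_fst, Prod.smul_snd, smul_eq_mul]
    linear_combination (-c') * hsr
  simp only [mem_ofPred_eq] at hu hv ⊢
  rw [e1, e2]
  generalize a * u.1 + b * u.2 + c = U at *
  generalize a * v.1 + b * v.2 + c = V at *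
  generalize a' * u.1 + b' * u.2 + c' = U' at *
  generalize a' * v.1 + b' * v.2 + c' = V' at *
  rcases eq_or_lt_of_le hs with h | hs'
  · have hr1 : r = 1 := by linarith
    rw [← h, hr1]
    simpa using hv
  rcases eq_or_lt_of_le hr with h | hr'
  · have hs1 : s = 1 := by linarith
    rw [← h, hs1]
    simpa using hu
  have hU : 0 ≤ U := hu.elim le_of_lt And.left
  have hV : 0 ≤ V := hv.elim le_of_lt And.left
  rcases hu with hu | hu
  · exact Or.inl (add_pos_of_pos_of_nonneg (mul_pos hs' hu) (mul_nonneg hr hV))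
  rcases hv with hv | hv
  · exact Or.inl (add_pos_of_nonneg_of_pos (mul_nonneg hs hU) (mul_pos hr' hv))
  exact Or.inr ⟨add_nonneg (mul_nonneg hs hU) (mul_nonneg hr hV),
    add_pos (mul_pos hs' hu.2) (mul_pos hr' hv.2)⟩

/-- A point in a closed half-plane is outside the hull of the other points of the opposite closed
half-plane. -/
theorem not_mem_hull {ι : Type} {q : ι → ℝ × ℝ} (hq : GP q) (hinj : Function.Injective q) (x : ι)
    {a b c : ℝ} (hab : a ≠ 0 ∨ b ≠ 0) (hx : a * (q x).1 + b * (q x).2 + c ≤ 0) :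
    q x ∉ convexHull ℝ (q '' {i | i ≠ x ∧ 0 ≤ a * (q i).1 + b * (q i).2 + c}) := by
  intro hmem
  have key : ∀ a' b' c' : ℝ,
      (∀ i, i ≠ x → a * (q i).1 + b * (q i).2 + c = 0 → 0 < a' * (q i).1 + b' * (q i).2 + c') →
      0 ≤ a * (q x).1 + b * (q x).2 + c ∧ 0 < a' * (q x).1 + b' * (q x).2 + c' := by
    intro a' b' c' h
    have hsub : q '' {i | i ≠ x ∧ 0 ≤ a * (q i).1 + b * (q i).2 + c} ⊆
        {y : ℝ × ℝ | 0 < a * y.1 + b * y.2 + c ∨
          (0 ≤ a * y.1 + b * y.2 + c ∧ 0 < a' * y.1 + b' * y.2 + c')} := by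
      rintro _ ⟨i, ⟨hi1, hi2⟩, rfl⟩
      rcases eq_or_lt_of_le hi2 with h0 | h0
      · exact Or.inr ⟨hi2, h i hi1 h0.symm⟩
      · exact Or.inl h0
    rcases convexHull_min hsub (convex_lex a b c a' b' c') hmem with h0 | h0
    · exact absurd h0 (not_lt.2 hx)
    · exact h0
  have hx0 : a * (q x).1 + b * (q x).2 + c = 0 :=
    le_antisymm hx (key 0 0 1 (fun _ _ _ => by norm_num)).1
  by_cases hex : ∃ i0, i0 ≠ x ∧ a * (q i0).1 + b * (q i0).2 + c = 0
  · obtain ⟨i0, h0, h1⟩ := hex
    have hpos : 0 < ((q i0).1 - (q x).1) ^ 2 + ((q i0).2 - (q x).2) ^ 2 := by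
      by_contra hc
      have e1 : ((q i0).1 - (q x).1) ^ 2 = 0 := by
        nlinarith [sq_nonneg ((q i0).1 - (q x).1), sq_nonneg ((q i0).2 - (q x).2)]
      have e2 : ((q i0).2 - (q x).2) ^ 2 = 0 := by
        nlinarith [sq_nonneg ((q i0).1 - (q x).1), sq_nonneg ((q i0).2 - (q x).2)]
      apply h0
      apply hinj
      ext
      · exact sub_eq_zero.1 (pow_eq_zero_iff two_ne_zero |>.1 e1)
      · exact sub_eq_zero.1 (pow_eq_zero_iff two_ne_zero |>.1 e2)
    have := (key ((q i0).1 - (q x).1) ((q i0).2 - (q x).2)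
      (-(((q i0).1 - (q x).1) * (q x).1 + ((q i0).2 - (q x).2) * (q x).2)) (fun i hi hi0 => by
        by_cases hii : i = i0
        · subst hii
          nlinarith
        · exact (hq.line hab hi.symm h0.symm hii hx0 hi0 h1).elim)).2
    linarith
  · have := (key 0 0 0 (fun i hi hi0 => (hex ⟨i, hi, hi0⟩).elim)).2
    simp at this

end AncP

theorem sanc (h : SAncE) : SAnc := by
  intro ι κ _ _ m t q x a b c hq ht htm hcard hab hcov hx hfew
  obtain ⟨n, rfl⟩ : ∃ n, m = n + 1 := ⟨m - 1, by omega⟩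
  have hinj : Function.Injective q := hq.inj (by omega)
  let L : (ℝ × ℝ) →ₗ[ℝ] EuclideanSpace ℝ (Fin 2) :=
    { toFun := fun x => !₂[x.1, x.2]
      map_add' := fun x y => by ext i; fin_cases i <;> simp
      map_smul' := fun r x => by ext i; fin_cases i <;> simp }
  let P : EuclideanSpace ℝ (Fin 2) →ₗ[ℝ] (ℝ × ℝ) :=
    { toFun := fun y => (y 0, y 1)
      map_add' := fun x y => by ext <;> simp
      map_smul' := fun r x => by ext <;> simp }
  have hPL : ∀ y, P (L y) = y := fun y => by ext <;> simp [P, L]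
  let f : κ → EuclideanSpace ℝ (Fin 2) →L[ℝ] ℝ := fun k =>
    a k • EuclideanSpace.proj (0 : Fin 2) + b k • EuclideanSpace.proj (1 : Fin 2)
  have hf : ∀ k y, f k y = a k * (P y).1 + b k * (P y).2 := fun k y => by simp [f, P]
  have hfL : ∀ k y, f k (L y) = a k * y.1 + b k * y.2 := fun k y => by rw [hf, hPL]
  have hg : Good (n + 1) t (fun i => L (q i)) := by
    refine h ι κ 2 n t (fun i => L (q i)) x f c ?_ (by norm_num) (by omega) ?_ ?_ ?_ ?_
    · intro i j hij
      apply hinj
      have := congrArg P hij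
      simpa only [hPL] using this
    · intro y
      obtain ⟨k, hk⟩ := hcov (P y)
      exact ⟨k, by rw [hf]; exact hk⟩
    · intro k
      rw [hfL]
      exact hx k
    · intro k hmem
      simp only [hfL] at hmem
      apply AncP.not_mem_hull hq hinj x (hab k) (hx k)
      have h1 := mem_image_of_mem P hmem
      rw [LinearMap.image_convexHull, image_image] at h1
      simpa only [hPL] using h1
    · intro k
      simp only [hfL]
      exact Nat.lt_succ_iff.1 (hfew k)
  have hg2 := hg.map P.toAffineMap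
  simpa only [LinearMap.coe_toAffineMap, hPL] using hg2

end Pool.Agent.P.MP_daa8d5_co.Pl
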