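import Pool.Agent.P.MP_daa8d5_co.Pl.Stm
import Pool.Agent.P.MP_daa8d5_co.Ball

set_option autoImplicit false

namespace Pool.Agent.P.MP_daa8d5_co.Pl

open Set Filter Topology Metric

namespace AncEP

variable {d : ℕ}

/-- The closed cone body: the hull of `X` and the ball of radius `r` at `z`. -/
def Cb (X z : EuclideanSpace ℝ (Fin d)) (r : ℝ) : Set (EuclideanSpace ℝ (Fin d)) :=
  {y | ∃ θ : ℝ, 0 ≤ θ ∧ θ ≤ 1 ∧ ‖y - X - θ • (z - X)‖ ≤ θ * r}

/-- The inner set of the body. -/
def Ub (X z : EuclideanSpace ℝ (Fin d)) (r : ℝ) : Set (EuclideanSpace ℝ (Fin d)) :=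
  {y | y = X ∨ ∃ θ : ℝ, 0 ≤ θ ∧ θ ≤ 1 ∧ ‖y - X - θ • (z - X)‖ < θ * r}

theorem self_mem_Cb (X z : EuclideanSpace ℝ (Fin d)) (r : ℝ) : X ∈ Cb X z r :=
  ⟨0, le_rfl, zero_le_one, by simp⟩

theorem Ub_sub (X z : EuclideanSpace ℝ (Fin d)) (r : ℝ) : Ub X z r ⊆ Cb X z r := by
  rintro y (rfl | ⟨θ, h0, h1, h⟩)
  · exact self_mem_Cb _ _ _
  · exact ⟨θ, h0, h1, h.le⟩

theorem eq_of_zero {X z y : EuclideanSpace ℝ (Fin d)} {r : ℝ}
    (h : ‖y - X - (0 : ℝ) • (z - X)‖ ≤ 0 * r) : y = X := by
  rw [zero_smul, sub_zero, zero_mul, norm_le_zero_iff, sub_eq_zero] at h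
  exact h

theorem Cb_sub (X z : EuclideanSpace ℝ (Fin d)) {r : ℝ} (hr : 0 < r) :
    Cb X z r ⊆ closure (Ub X z r) := by
  rintro y ⟨θ, h0, h1, h⟩
  rcases h0.eq_or_lt with h2 | h2
  · subst h2
    exact subset_closure (Or.inl (eq_of_zero h))
  · have hne : θ * r ≠ 0 := (mul_pos h2 hr).ne'
    have hy : y ∈ closure (ball (X + θ • (z - X)) (θ * r)) := by
      rw [closure_ball _ hne, mem_closedBall, dist_eq_norm, ← sub_sub]
      exact h
    refine closure_mono ?_ hy
    intro w hw
    rw [mem_ball, dist_eq_norm, ← sub_sub] at hw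
    exact Or.inr ⟨θ, h0, h1, hw⟩

theorem Ub_conn (X z : EuclideanSpace ℝ (Fin d)) (r : ℝ) : IsPreconnected (Ub X z r) := by
  have hs : StarConvex ℝ X (Ub X z r) := by
    intro y hy a b ha hb hab
    have ha' : a = 1 - b := by linarith
    subst ha'
    rcases hy with rfl | ⟨θ, h0, h1, h⟩
    · left
      rw [← add_smul, hab, one_smul]
    · rcases hb.eq_or_lt with h2 | h2
      · subst h2
        left
        simp
      · right
        refine ⟨b * θ, mul_nonneg hb h0, by nlinarith, ?_⟩
        have e : (1 - b) • X + b • y - X - (b * θ) • (z - X) = b • (y - X - θ • (z - X)) := by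
          module
        rw [e, norm_smul, Real.norm_eq_abs, abs_of_pos h2, mul_assoc]
        exact mul_lt_mul_of_pos_left h h2
  exact (hs.isPathConnected (Or.inl rfl)).isConnected.isPreconnected

variable {ι κ : Type} {n : ℕ}

/-- Feasible triples. -/
def Feas (p : ι → EuclideanSpace ℝ (Fin d)) (x : ι) (g : κ → EuclideanSpace ℝ (Fin d) → ℝ)
    (o : ι → Option (Fin n)) (z : EuclideanSpace ℝ (Fin d)) (r : ℝ) : Prop :=
  z ∈ convexHull ℝ (range p) ∧ o x = none ∧
    (∀ j, ∃ y ∈ convexHull ℝ (p '' {i | o i = some j}), y ∈ Cb (p x) z r) ∧ ∀ k, g k z ≤ r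

theorem exists_min [Fintype ι] [Fintype κ] (p : ι → EuclideanSpace ℝ (Fin d)) (x : ι)
    (g : κ → EuclideanSpace ℝ (Fin d) → ℝ) (hg : ∀ k, Continuous (g k))
    (hpos : ∀ z, ∃ k, 0 < g k z) (hn : n + 1 ≤ Fintype.card ι) :
    ∃ (o : ι → Option (Fin n)) (z : EuclideanSpace ℝ (Fin d)) (r : ℝ), Feas p x g o z r ∧
      ∀ (o' : ι → Option (Fin n)) z' r', Feas p x g o' z' r' → r ≤ r' := by
  classical
  obtain ⟨R1, hR1⟩ := (Set.finite_range fun i => ‖p i - p x‖).bddAbove
  obtain ⟨R2, hR2⟩ := (Set.finite_range fun k => g k (p x)).bddAbove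
  set R := max R1 R2 with hR
  let K : Set (ℝ × EuclideanSpace ℝ (Fin d) × (Fin n → EuclideanSpace ℝ (Fin d)) × (Fin n → ℝ)) :=
    ⋃ o ∈ {o : ι → Option (Fin n) | o x = none},
      (Icc 0 R ×ˢ convexHull ℝ (range p) ×ˢ
        (Set.pi univ fun j => convexHull ℝ (p '' {i | o i = some j})) ×ˢ
        (Set.pi univ fun _ => Icc (0 : ℝ) 1)) ∩
      ((⋂ j, {q | ‖q.2.2.1 j - p x - q.2.2.2 j • (q.2.1 - p x)‖ ≤ q.2.2.2 j * q.1}) ∩
        ⋂ k, {q | g k q.2.1 ≤ q.1})
  have hK : IsCompact K := by
    refine (Set.toFinite _).isCompact_biUnion fun o _ => ?_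
    refine IsCompact.inter_right ?_ (IsClosed.inter ?_ ?_)
    · exact isCompact_Icc.prod (((Set.finite_range p).isCompact_convexHull ℝ).prod
        ((isCompact_univ_pi fun j => (Set.toFinite _).isCompact_convexHull ℝ).prod
          (isCompact_univ_pi fun _ => isCompact_Icc)))
    · exact isClosed_iInter fun j => isClosed_le (by fun_prop) (by fun_prop)
    · exact isClosed_iInter fun k =>
        isClosed_le ((hg k).comp (continuous_fst.comp continuous_snd)) continuous_fst
  have hin : ∀ (o : ι → Option (Fin n)) z r, Feas p x g o z r → r ≤ R → ∃ q ∈ K, q.1 = r := by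
    rintro o z r ⟨h1, h2, h3, h4⟩ hr
    choose y hy θ h0 h1' h5 using h3
    obtain ⟨k, hk⟩ := hpos z
    refine ⟨(r, z, y, θ), ?_, rfl⟩
    simp only [K, mem_iUnion]
    refine ⟨o, h2, ⟨⟨hk.le.trans (h4 k), hr⟩, h1, fun j _ => hy j, fun j _ => ⟨h0 j, h1' j⟩⟩, ?_, ?_⟩
    · exact mem_iInter.2 fun j => h5 j
    · exact mem_iInter.2 fun k => h4 k
  have hcard : Fintype.card (Fin n) ≤ Fintype.card {i // i ≠ x} := by
    rw [Fintype.card_fin, Fintype.card_subtype_compl, Fintype.card_subtype_eq]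
    omega
  obtain ⟨e⟩ := Function.Embedding.nonempty_of_card_le hcard
  have he : Function.Injective fun j => (e j).1 := Subtype.val_injective.comp e.injective
  have hF0 : Feas p x g (Function.partialInv fun j => (e j).1) (p x) R := by
    refine ⟨subset_convexHull _ _ (mem_range_self x), ?_, fun j => ?_, fun k => ?_⟩
    · rcases h : Function.partialInv (fun j => (e j).1) x with _ | j
      · rfl
      · exact absurd ((he.isPartialInv j x).1 h) (e j).2
    · refine ⟨p (e j).1, subset_convexHull _ _ ⟨(e j).1, Function.partialInv_left he j, rfl⟩,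
        1, zero_le_one, le_rfl, ?_⟩
      rw [sub_self, smul_zero, sub_zero, one_mul]
      exact (hR1 (mem_range_self _)).trans (le_max_left _ _)
    · exact (hR2 (mem_range_self _)).trans (le_max_right _ _)
  obtain ⟨q0, hq0, -⟩ := hin _ _ _ hF0 le_rfl
  obtain ⟨q, hq, hmin⟩ := hK.exists_isMinOn ⟨q0, hq0⟩ continuous_fst.continuousOn
  have hq' := hq
  simp only [K, mem_iUnion] at hq'
  obtain ⟨o, ho, ⟨⟨-, hR'⟩, hz, hy, hθ⟩, h1, h2⟩ := hq'
  refine ⟨o, q.2.1, q.1, ⟨hz, ho, fun j => ⟨q.2.2.1 j, hy j trivial, q.2.2.2 j, (hθ j trivial).1,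
    (hθ j trivial).2, mem_iInter.1 h1 j⟩, fun k => mem_iInter.1 h2 k⟩, fun o' z' r' hF => ?_⟩
  rcases le_total r' R with h | h
  · obtain ⟨q', hq1, hq2⟩ := hin _ _ _ hF h
    rw [← hq2]
    exact hmin hq1
  · exact hR'.trans h

/-- A part that is not improved by `w` has a witness that becomes strict when `z` moves to `w`. -/
theorem witness {X z w : EuclideanSpace ℝ (Fin d)} {r : ℝ} (hr : 0 < r)
    {A B : Set (EuclideanSpace ℝ (Fin d))} (hB : Convex ℝ B) (hAB : A ⊆ B) (hw : w ∈ B)
    (h1 : ∃ y ∈ A, y ∈ Cb X z r) (h2 : (∀ y ∈ A, y ∉ Ub X z r) → ∀ y ∈ B, y ∉ Ub X z r) :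
    ∃ y ∈ A, y = X ∨ ∃ θ : ℝ, 0 < θ ∧ θ ≤ 1 ∧ ‖y - X - θ • (z - X)‖ ≤ θ * r ∧
      ∀ᶠ e : ℝ in 𝓝[>] 0, ‖y - X - θ • (z + e • (w - z) - X)‖ < θ * r := by
  have key : ∀ (y : EuclideanSpace ℝ (Fin d)) (θ : ℝ), 0 < θ →
      (dist (y - X - θ • (z - X)) 0 < θ * r ∨
        ((θ * r) ^ 2 ≤ inner ℝ (y - X - θ • (z - X) - 0) (w - z - 0) ∧
          dist (y - X - θ • (z - X)) 0 = θ * r)) →
      ∀ᶠ e : ℝ in 𝓝[>] 0, ‖y - X - θ • (z + e • (w - z) - X)‖ < θ * r := by
    intro y θ hθ h
    have h3 := eventually_closer 0 (y - X - θ • (z - X)) (w - z) (θ * r) (mul_pos hθ hr) h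
    have ht : Tendsto (fun e : ℝ => θ * e) (𝓝[>] 0) (𝓝[>] 0) := by
      refine tendsto_nhdsWithin_iff.2 ⟨?_, ?_⟩
      · have : Tendsto (fun e : ℝ => θ * e) (𝓝 0) (𝓝 (θ * 0)) :=
          (continuous_const.mul continuous_id).tendsto 0
        rw [mul_zero] at this
        exact this.mono_left nhdsWithin_le_nhds
      · filter_upwards [self_mem_nhdsWithin] with e he
        exact mul_pos hθ he
    filter_upwards [ht.eventually h3] with e he
    rw [dist_eq_norm] at he
    have e1 : y - X - θ • (z + e • (w - z) - X) =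
        y - X - θ • (z - X) - (0 + (θ * e) • (w - z - 0)) := by module
    rw [e1]
    exact he
  by_cases hU : ∀ y ∈ A, y ∉ Ub X z r
  · obtain ⟨y, hy, θ, h0, h1', h⟩ := h1
    rcases h0.eq_or_lt with h3 | h3
    · subst h3
      exact ⟨y, hy, Or.inl (eq_of_zero h)⟩
    · refine ⟨y, hy, Or.inr ⟨θ, h3, h1', h, key y θ h3 (Or.inr ?_)⟩⟩
      refine inner_nonneg_of_no_gain 0 _ (w - z) (θ * r) (mul_pos h3 hr)
        (by rwa [dist_zero_right]) fun s hs0 hs1 => ?_
      have h4 := h2 hU (y + s • (w - y)) (hB.add_smul_sub_mem (hAB hy) hw ⟨hs0, hs1⟩)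
      by_contra hlt
      apply h4
      refine Or.inr ⟨θ + s * (1 - θ), by nlinarith, by nlinarith, ?_⟩
      rw [not_le, dist_zero_right] at hlt
      have e1 : y + s • (w - y) - X - (θ + s * (1 - θ)) • (z - X) =
          y - X - θ • (z - X) + s • (w - z - (y - X - θ • (z - X))) := by module
      rw [e1]
      refine hlt.trans_le (mul_le_mul_of_nonneg_right ?_ hr.le)
      nlinarith
  · push Not at hU
    obtain ⟨y, hy, rfl | ⟨θ, h0, h1', h⟩⟩ := hU
    · exact ⟨y, hy, Or.inl rfl⟩
    · have h3 : 0 < θ := by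
        rcases h0.eq_or_lt with h3 | h3
        · subst h3
          rw [zero_mul] at h
          exact absurd h (not_lt.2 (norm_nonneg _))
        · exact h3
      exact ⟨y, hy, Or.inr ⟨θ, h3, h1', h.le, key y θ h3 (Or.inl (by rwa [dist_zero_right]))⟩⟩

theorem neg_on_body {X z y : EuclideanSpace ℝ (Fin d)} {r θ ε c : ℝ}
    (f : EuclideanSpace ℝ (Fin d) →L[ℝ] ℝ) (hr : 0 < r) (hε : 0 < ε) (hf : ε * ‖f‖ < 1)
    (hX : f X + c ≤ 0) (hz : -ε * (f z + c) = r) (h0 : 0 < θ) (h1 : θ ≤ 1)
    (h : ‖y - X - θ • (z - X)‖ ≤ θ * r) : f y + c < 0 := by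
  have e1 : f (y - X - θ • (z - X)) = f y - f X - θ * (f z - f X) := by
    simp only [map_sub, map_smul, smul_eq_mul]
  have e2 : f (y - X - θ • (z - X)) ≤ ‖f‖ * (θ * r) :=
    (le_abs_self _).trans ((f.le_opNorm _).trans (mul_le_mul_of_nonneg_left h (norm_nonneg _)))
  have e3 : f y + c = f (y - X - θ • (z - X)) + (1 - θ) * (f X + c) + θ * (f z + c) := by
    rw [e1]; ring
  have e4 : (1 - θ) * (f X + c) ≤ 0 := mul_nonpos_of_nonneg_of_nonpos (by linarith) hX
  have e5 : ε * (‖f‖ * (θ * r)) < θ * r := by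
    rw [← mul_assoc]
    exact mul_lt_of_lt_one_left (mul_pos h0 hr) hf
  have e6 : ε * (θ * (f z + c)) = -(θ * r) := by rw [← hz]; ring
  have e7 : ε * (f y + c) < 0 := by
    have := mul_le_mul_of_nonneg_left e2 hε.le
    have := mul_nonpos_of_nonneg_of_nonpos hε.le e4
    rw [e3, mul_add, mul_add]
    linarith
  by_contra hc
  exact absurd e7 (not_lt.2 (mul_nonneg hε.le (not_lt.1 hc)))

end AncEP

open AncEP in
theorem sancE (h : SFill) : SAncE := by
  classical
  intro ι κ _ _ d n t p x f c hp hd hcard hcov hX hhull hfew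
  obtain ⟨M, hM⟩ := (Set.finite_range fun k => ‖f k‖).bddAbove
  set ε : ℝ := 1 / (|M| + 1) with hεdef
  have hε : 0 < ε := by positivity
  have hεf : ∀ k, ε * ‖f k‖ < 1 := by
    intro k
    have h1 : ‖f k‖ ≤ M := hM (mem_range_self k)
    have h2 := le_abs_self M
    rw [hεdef, one_div, inv_mul_lt_iff₀ (by positivity)]
    linarith
  let g : κ → EuclideanSpace ℝ (Fin d) → ℝ := fun k z => -ε * (f k z + c k)
  have hgc : ∀ k, Continuous (g k) := fun k =>
    continuous_const.mul ((f k).continuous.add continuous_const)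
  have hpos : ∀ z, ∃ k, 0 < g k z := fun z => by
    obtain ⟨k, hk⟩ := hcov z
    exact ⟨k, mul_pos_of_neg_of_neg (by linarith) hk⟩
  obtain ⟨o0, z, r, ⟨hz, ho0, hF0, hg0⟩, hmin⟩ :=
    exists_min (n := n) p x g hgc hpos (by nlinarith)
  have hr : 0 < r := by
    obtain ⟨k, hk⟩ := hpos z
    exact hk.trans_le (hg0 k)
  obtain ⟨o, ho, hF, T, hT, hTC⟩ := h ι d n t p x (Ub (p x) z r) (Cb (p x) z r) hp (Ub_sub _ _ _)
    (Cb_sub _ _ hr) (Ub_conn _ _ _) hcard ⟨o0, ho0, hF0⟩ (by
      intro o ho hF w hwx hw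
      by_contra hcon
      push Not at hcon
      have hwit := fun j => witness (w := p w) hr
        (convex_convexHull ℝ (p '' insert w {i | o i = some j}))
        (convexHull_mono (image_mono (subset_insert _ _)))
        (subset_convexHull _ _ (mem_image_of_mem _ (mem_insert _ _))) (hF j) (hcon j)
      choose y hy hyw using hwit
      have hk : ∀ k, ∀ᶠ e : ℝ in 𝓝[>] 0, g k (z + e • (p w - z)) < r := by
        intro k
        rcases (hg0 k).lt_or_eq with h1 | h1
        · have hc : Continuous fun e : ℝ => g k (z + e • (p w - z)) := (hgc k).comp (by fun_prop)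
          have : ∀ᶠ e : ℝ in 𝓝 0, g k (z + e • (p w - z)) < r := by
            apply hc.continuousAt.eventually_lt continuousAt_const
            simpa using h1
          exact this.filter_mono nhdsWithin_le_nhds
        · have h2 : ∀ j, ∃ i, o i = some j ∧ f k (p i) + c k < 0 := by
            intro j
            by_contra hno
            push Not at hno
            rcases hyw j with h3 | ⟨θ, h3, h4, h5, -⟩
            · apply hhull k
              rw [← h3]
              refine convexHull_mono (image_mono fun i hi => ?_) (hy j)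
              refine ⟨?_, hno i hi⟩
              rintro rfl
              rw [Set.mem_ofPred_eq, ho] at hi
              exact absurd hi (by simp)
            · have h6 := neg_on_body (f k) hr hε (hεf k) (hX k) h1 h3 h4 h5
              have hcv : Convex ℝ {y : EuclideanSpace ℝ (Fin d) | -c k ≤ f k y} :=
                convex_halfSpace_ge (f k).isLinear _
              have h7 : y j ∈ {y : EuclideanSpace ℝ (Fin d) | -c k ≤ f k y} := by
                refine convexHull_min ?_ hcv (hy j)
                rintro _ ⟨i, hi, rfl⟩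
                have := hno i hi
                show -c k ≤ f k (p i)
                linarith
              have h8 : -c k ≤ f k (y j) := h7
              linarith
          choose s hs1 hs2 using h2
          have hsi : Function.Injective s := fun a b hab => by
            have := hs1 a
            rw [hab, hs1 b] at this
            exact (Option.some.inj this).symm
          have hw0 : 0 ≤ f k (p w) + c k := by
            by_contra hneg
            have h3 : insert w (range s) ⊆ {i | f k (p i) + c k < 0} := by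
              rintro i (rfl | ⟨j, rfl⟩)
              · exact not_le.1 hneg
              · exact hs2 j
            have h4 := Set.ncard_le_ncard h3 (Set.toFinite _)
            have h5 : w ∉ range s := by
              rintro ⟨j, rfl⟩
              rw [hs1 j] at hw
              exact absurd hw (by simp)
            rw [Set.ncard_insert_of_notMem h5 (Set.toFinite _), Set.ncard_range_of_injective hsi,
              Nat.card_eq_fintype_card, Fintype.card_fin] at h4
            have := hfew k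
            omega
          filter_upwards [self_mem_nhdsWithin] with e he
          have he : 0 < e := he
          have e1 : g k (z + e • (p w - z)) = r - e * (r + ε * (f k (p w) + c k)) := by
            rw [← h1]
            simp only [g, map_add, map_smul, map_sub, smul_eq_mul]
            ring
          rw [e1]
          have : 0 < e * (r + ε * (f k (p w) + c k)) := mul_pos he (by positivity)
          linarith
      have hj : ∀ j, ∃ θ : ℝ, 0 ≤ θ ∧ θ ≤ 1 ∧ ∀ᶠ e : ℝ in 𝓝[>] 0, ∀ᶠ ρ : ℝ in 𝓝 r,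
          ‖y j - p x - θ • (z + e • (p w - z) - p x)‖ ≤ θ * ρ := by
        intro j
        rcases hyw j with h3 | ⟨θ, h3, h4, -, h5⟩
        · refine ⟨0, le_rfl, zero_le_one, Eventually.of_forall fun e => Eventually.of_forall fun ρ => ?_⟩
          simp [h3]
        · refine ⟨θ, h3.le, h4, h5.mono fun e he => ?_⟩
          have hc : Continuous fun ρ : ℝ => θ * ρ := by fun_prop
          exact (continuousAt_const.eventually_lt hc.continuousAt he).mono fun ρ hρ => hρ.le
      choose θ hθ0 hθ1 hθ using hj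
      have hev2 : ∀ᶠ e : ℝ in 𝓝[>] 0, e < 1 :=
        (eventually_lt_nhds one_pos).filter_mono nhdsWithin_le_nhds
      obtain ⟨e, ⟨⟨he1, he2⟩, he3⟩, he0⟩ :=
        ((((eventually_all.2 hk).and (eventually_all.2 hθ)).and hev2).and self_mem_nhdsWithin).exists
      have he0 : 0 < e := he0
      have hz' : z + e • (p w - z) ∈ convexHull ℝ (range p) :=
        (convex_convexHull ℝ _).add_smul_sub_mem hz (subset_convexHull _ _ (mem_range_self w))
          ⟨he0.le, he3.le⟩
      have hρ1 : ∀ᶠ ρ : ℝ in 𝓝 r, ∀ k, g k (z + e • (p w - z)) ≤ ρ :=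
        eventually_all.2 fun k => (eventually_gt_nhds (he1 k)).mono fun ρ hρ => hρ.le
      obtain ⟨ρ, ⟨hρ2, hρ3⟩, hρ4⟩ := (((hρ1.and (eventually_all.2 he2)).filter_mono
        (nhdsWithin_le_nhds (s := Iio r))).and self_mem_nhdsWithin).exists
      have := hmin o _ ρ ⟨hz', ho, fun j => ⟨y j, hy j, θ j, hθ0 j, hθ1 j, hρ3 j⟩, hρ2⟩
      exact absurd this (not_le.2 hρ4))
  let o' : ι → Option (Option (Fin n)) := fun i => if i = x then some none else (o i).map some
  have hsub : ∀ j, convexHull ℝ (p '' {i | o i = some j}) ⊆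
      convexHull ℝ (p '' {i | o' i = some (some j)}) := by
    intro j
    refine convexHull_mono (image_mono fun i hi => ?_)
    have hi : o i = some j := hi
    have hix : i ≠ x := by
      rintro rfl
      rw [ho] at hi
      exact absurd hi (by simp)
    simp [o', hix, hi]
  refine good_of_parts p o' (some '' T) (by simp) (Nat.succ_pos n) ?_ ?_
  · rwa [Set.ncard_image_of_injective _ (Option.some_injective _)]
  · have key : ∀ y ∈ Cb (p x) z r, ∀ k ∈ some '' T,
        y ∈ convexHull ℝ (p '' {i | o' i = some k}) := by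
      rintro y hy _ ⟨k, hk, rfl⟩
      exact hsub k (hTC k hk hy)
    rintro (_ | j)
    · exact ⟨p x, subset_convexHull _ _ ⟨x, by simp [o'], rfl⟩, key _ (self_mem_Cb _ _ _)⟩
    · obtain ⟨y, hy1, hy2⟩ := hF j
      exact ⟨y, hsub j hy1, key y hy2⟩

end Pool.Agent.P.MP_daa8d5_co.Pl
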