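import Pool.Agent.P.MP_daa8d5_co.Pl.Stm

set_option autoImplicit false

namespace Pool.Agent.P.MP_daa8d5_co.Pl

open Set

namespace AsmP

theorem exists_ow {ι : Type} (q : ι → ℝ × ℝ) (Rs : Set ι) (o : ι → Option ι) (o1 o2 : ι)
    (hR : ∀ i ∈ Rs, 0 ≤ (q i).1) (h1 : o1 ∉ Rs) (h2 : o2 ∉ Rs) (e1 : (q o1).1 = 0)
    (e2 : (q o2).1 = 0) (s1 s2 : Option {i // (q i).1 < 0}) :
    ∃ ow : ι → Option (Option {i // (q i).1 < 0}),
      ((0 : ℝ), (q o1).2) ∈ convexHull ℝ (q '' {i | ow i = some s1}) ∧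
      (o1 ≠ o2 → ((0 : ℝ), (q o2).2) ∈ convexHull ℝ (q '' {i | ow i = some s2})) ∧
      ∀ (v : {i // (q i).1 < 0}) (y : ι), y ∈ Rs → o y = some v.1 →
        ((0 : ℝ), ht (q v.1) (q y)) ∈ convexHull ℝ (q '' {i | ow i = some (some v)}) := by
  classical
  let ow : ι → Option (Option {i // (q i).1 < 0}) := fun i =>
    if h : (q i).1 < 0 then some (some ⟨i, h⟩) else if i = o1 then some s1 else
      if i = o2 then some s2 else
        (o i).bind fun v => if h : (q v).1 < 0 then some (some ⟨v, h⟩) else none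
  have n1 : ¬ (q o1).1 < 0 := by rw [e1]; exact lt_irrefl _
  have n2 : ¬ (q o2).1 < 0 := by rw [e2]; exact lt_irrefl _
  have p1 : ((0 : ℝ), (q o1).2) = q o1 := by rw [← e1]
  have p2 : ((0 : ℝ), (q o2).2) = q o2 := by rw [← e2]
  refine ⟨ow, ?_, fun hne => ?_, fun v y hy hov => ?_⟩
  · rw [p1]
    refine subset_convexHull ℝ _ ⟨o1, ?_, rfl⟩
    show ow o1 = some s1
    simp only [ow, dif_neg n1, if_true]
  · rw [p2]
    refine subset_convexHull ℝ _ ⟨o2, ?_, rfl⟩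
    show ow o2 = some s2
    simp only [ow, dif_neg n2, if_neg hne.symm, if_true]
  · refine ht_mem (convex_convexHull ℝ _) v.2 (hR y hy) (subset_convexHull ℝ _ ⟨v.1, ?_, rfl⟩)
      (subset_convexHull ℝ _ ⟨y, ?_, rfl⟩)
    · show ow v.1 = some (some v)
      simp only [ow, dif_pos v.2]
    · show ow y = some (some v)
      have a0 : ¬ (q y).1 < 0 := not_lt.2 (hR y hy)
      have a1 : y ≠ o1 := fun h => h1 (h ▸ hy)
      have a2 : y ≠ o2 := fun h => h2 (h ▸ hy)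
      simp only [ow, dif_neg a0, if_neg a1, if_neg a2, hov, Option.bind_some, dif_pos v.2]

theorem card_opt {ι : Type} [Fintype ι] {m : ℕ} (q : ι → ℝ × ℝ)
    [Fintype (Option {i // (q i).1 < 0})] (h : {i | (q i).1 < 0}.ncard + 1 = m) :
    Fintype.card (Option {i // (q i).1 < 0}) = m := by
  rw [← Nat.card_eq_fintype_card, Finite.card_option, ← h]
  rfl

theorem ncard_pre {ι : Type} (q : ι → ℝ × ℝ) (T : Set ι) (hT : ∀ v ∈ T, (q v).1 < 0) :
    {v : {i // (q i).1 < 0} | v.1 ∈ T}.ncard = T.ncard := by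
  rw [← Set.ncard_image_of_injective _ Subtype.val_injective]
  congr 1
  ext i
  constructor
  · rintro ⟨v, hv, rfl⟩
    exact hv
  · intro hi
    exact ⟨⟨i, hT i hi⟩, hi, rfl⟩

end AsmP

theorem sasm1 : SAsm1 := by
  classical
  intro ι _ m t q Rs α c o T o1 hm hR h1 e1 e1' hαc hA ht
  obtain ⟨ow, w1, -, w3⟩ := AsmP.exists_ow q Rs o o1 o1 hR h1 h1 e1 e1 none none
  refine good_line q ow (some '' {v : {i // (q i).1 < 0} | v.1 ∈ T}) (AsmP.card_opt q hm)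
    (by omega) ?_ hαc ?_ ?_
  · rw [Set.ncard_image_of_injective _ (Option.some_injective _),
      AsmP.ncard_pre q T fun v hv => (hA.1 v hv).1]
    exact ht
  · rintro _ ⟨v, hv, rfl⟩
    obtain ⟨-, y, hy, y', hy', a1, a2, a3, a4⟩ := hA.1 v.1 hv
    exact ⟨_, _, a3, a4, w3 v y hy a1, w3 v y' hy' a2⟩
  · rintro (_ | v) hj
    · exact ⟨α, le_rfl, hαc, e1' ▸ w1⟩
    · obtain ⟨y, hy, a1, a2, a3⟩ := hA.2 v.1 v.2 fun h => hj ⟨v, h, rfl⟩
      exact ⟨_, a2, a3, w3 v y hy a1⟩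

theorem sasm2 : SAsm2 := by
  classical
  intro ι _ m t q Rs α c o T o1 o2 hm hR h1 h2 hne e1 e2 l1 l2 hαc hA ht
  have hex : ∀ v : {i // (q i).1 < 0}, ∃ y : ι, v.1 ∉ T →
      y ∈ Rs ∧ o y = some v.1 ∧ α ≤ Pl.ht (q v.1) (q y) ∧ Pl.ht (q v.1) (q y) ≤ c := by
    intro v
    by_cases hv : v.1 ∈ T
    · exact ⟨o1, fun h => absurd hv h⟩
    · obtain ⟨y, hy, a⟩ := hA.2 v.1 v.2 hv
      exact ⟨y, fun _ => ⟨hy, a⟩⟩
  choose Y hY using hex
  have hTc := AsmP.ncard_pre q T fun v hv => (hA.1 v hv).1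
  by_cases hall : ∀ v : {i // (q i).1 < 0}, v.1 ∉ T → Pl.ht (q v.1) (q (Y v)) ≤ (q o2).2
  · obtain ⟨ow, w1, w2, w3⟩ := AsmP.exists_ow q Rs o o1 o2 hR h1 h2 e1 e2 none none
    refine good_line q ow (insert none (some '' {v : {i // (q i).1 < 0} | v.1 ∈ T}))
      (AsmP.card_opt q hm) (by omega) ?_ (le_min hαc l2) ?_ ?_
    · rw [Set.ncard_insert_of_notMem (by simp) (toFinite _),
        Set.ncard_image_of_injective _ (Option.some_injective _), hTc]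
      exact ht
    · rintro _ (rfl | ⟨v, hv, rfl⟩)
      · exact ⟨_, _, l1, min_le_right _ _, w1, w2 hne⟩
      · obtain ⟨-, y, hy, y', hy', a1, a2, a3, a4⟩ := hA.1 v.1 hv
        exact ⟨_, _, a3, (min_le_left _ _).trans a4, w3 v y hy a1, w3 v y' hy' a2⟩
    · rintro (_ | v) hj
      · exact absurd (mem_insert _ _) hj
      · have hv : v.1 ∉ T := fun h => hj (mem_insert_of_mem _ ⟨v, h, rfl⟩)
        obtain ⟨hy, a1, a2, a3⟩ := hY v hv
        exact ⟨_, a2, le_min a3 (hall v hv), w3 v _ hy a1⟩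
  · push Not at hall
    obtain ⟨v0, hv0, hlt⟩ := hall
    obtain ⟨u, hu, hmax⟩ := Set.exists_max_image {v : {i // (q i).1 < 0} | v.1 ∉ T}
      (fun v => Pl.ht (q v.1) (q (Y v))) (toFinite _) ⟨v0, hv0⟩
    obtain ⟨uy, u1, u2, u3⟩ := hY u hu
    obtain ⟨ow, w1, w2, w3⟩ := AsmP.exists_ow q Rs o o1 o2 hR h1 h2 e1 e2 (some u) none
    refine good_line q ow (some '' insert u {v : {i // (q i).1 < 0} | v.1 ∈ T})
      (AsmP.card_opt q hm) (by omega) ?_ u2 ?_ ?_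
    · rw [Set.ncard_image_of_injective _ (Option.some_injective _),
        Set.ncard_insert_of_notMem (a := u) (s := {v : {i // (q i).1 < 0} | v.1 ∈ T}) hu
          (toFinite _), hTc]
      exact ht
    · rintro _ ⟨v, rfl | hv, rfl⟩
      · exact ⟨_, _, l1, le_rfl, w1, w3 v _ uy u1⟩
      · obtain ⟨-, y, hy, y', hy', a1, a2, a3, a4⟩ := hA.1 v.1 hv
        exact ⟨_, _, a3, u3.trans a4, w3 v y hy a1, w3 v y' hy' a2⟩
    · rintro (_ | v) hj
      · exact ⟨_, l2, hlt.le.trans (hmax v0 hv0), w2 hne⟩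
      · have hv : v.1 ∉ T := fun h => hj ⟨v, mem_insert_of_mem _ h, rfl⟩
        obtain ⟨hy, a1, a2, a3⟩ := hY v hv
        exact ⟨_, a2, hmax v hv, w3 v _ hy a1⟩

end Pool.Agent.P.MP_daa8d5_co.Pl
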