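import Pool.Agent.P.MP_daa8d5_co.Pl.Stm

set_option autoImplicit false

namespace Pool.Agent.P.MP_daa8d5_co.Pl

open Set

namespace DeepP

theorem exists_min {ι : Type} [Fintype ι] {m : ℕ} (p : ι → ℝ × ℝ) (z : ℝ × ℝ) (hm : 0 < m) :
    ∃ a b s : ℝ, a ^ 2 + b ^ 2 = 1 ∧ 0 ≤ s ∧
      {i | a * ((p i).1 - z.1 - s) + b * ((p i).2 - z.2) < 0}.ncard < m ∧
      ∀ a' b' s' : ℝ, a' ^ 2 + b' ^ 2 = 1 → 0 ≤ s' →
        {i | a' * ((p i).1 - z.1 - s') + b' * ((p i).2 - z.2) < 0}.ncard < m → s ≤ s' := by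
  obtain ⟨M, hM⟩ := (toFinite (range fun i => (p i).1 - z.1)).bddAbove
  let M' : ℝ := max M 0
  let g : ι → ℝ × ℝ × ℝ → ℝ := fun i x =>
    x.1 * ((p i).1 - z.1 - x.2.2) + x.2.1 * ((p i).2 - z.2)
  have hg : ∀ i, Continuous (g i) := fun i => by
    simp only [g]
    fun_prop
  let K : Set (ℝ × ℝ × ℝ) := (Icc (-1) 1 ×ˢ Icc (-1) 1 ×ˢ Icc 0 M') ∩
    ({x | x.1 ^ 2 + x.2.1 ^ 2 = 1} ∩ {x | {i | g i x < 0}.ncard < m})
  have hK : IsCompact K :=
    (isCompact_Icc.prod (isCompact_Icc.prod isCompact_Icc)).inter_right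
      ((isClosed_eq (by fun_prop) continuous_const).inter (isClosed_few m g hg))
  have h0 : ((-1 : ℝ), (0 : ℝ), M') ∈ K := by
    refine ⟨⟨⟨le_rfl, by norm_num⟩, ⟨by norm_num, by norm_num⟩, le_max_right _ _, le_rfl⟩,
      by simp, ?_⟩
    have : {i | g i ((-1 : ℝ), (0 : ℝ), M') < 0} = ∅ := by
      ext i
      have h1 : (p i).1 - z.1 ≤ M := hM ⟨i, rfl⟩
      have h2 : M ≤ M' := le_max_left _ _
      simp only [g, mem_ofPred_eq, mem_empty_iff_false, iff_false, not_lt]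
      linarith
    show {i | g i ((-1 : ℝ), (0 : ℝ), M') < 0}.ncard < m
    rw [this, ncard_empty]
    exact hm
  obtain ⟨⟨a, b, s⟩, ⟨⟨-, -, hs0, hs1⟩, h1, h2⟩, hmin⟩ :=
    hK.exists_isMinOn ⟨_, h0⟩ (f := fun x => x.2.2) (by fun_prop)
  refine ⟨a, b, s, h1, hs0, h2, fun a' b' s' e1 e2 e3 => ?_⟩
  by_cases hs' : s' ≤ M'
  · refine hmin (a := (a', b', s')) ⟨⟨?_, ?_, e2, hs'⟩, e1, e3⟩
    · exact abs_le.1 (by rw [← sq_le_one_iff_abs_le_one]; nlinarith [sq_nonneg b'])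
    · exact abs_le.1 (by rw [← sq_le_one_iff_abs_le_one]; nlinarith [sq_nonneg a'])
  · exact hs1.trans (not_le.1 hs').le

end DeepP

theorem sdeep : SDeep := by
  intro ι _ m p z hm hc hz
  obtain ⟨a, b, s, h1, hs, h2, hmin⟩ := DeepP.exists_min p z hm
  have hw : Deep m p (z.1 + s, z.2) := by
    intro A B C hw hF
    have hw : A * (z.1 + s) + B * z.2 + C < 0 := hw
    have h3 : 0 ≤ A * z.1 + B * z.2 + C := not_lt.1 fun h => hz A B C h hF
    have h4 : A * s < 0 := by linarith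
    have hA : A < 0 := by
      by_contra hA
      exact absurd (mul_nonneg (not_lt.1 hA) hs) (not_le.2 h4)
    have hr : 0 < Real.sqrt (A ^ 2 + B ^ 2) :=
      Real.sqrt_pos.2 (by nlinarith [sq_nonneg B, sq_pos_of_neg hA])
    have hr2 : Real.sqrt (A ^ 2 + B ^ 2) ^ 2 = A ^ 2 + B ^ 2 := Real.sq_sqrt (by positivity)
    set r := Real.sqrt (A ^ 2 + B ^ 2)
    have hA' : 0 < -A := by linarith
    have h5 := hmin (A / r) (B / r) ((A * z.1 + B * z.2 + C) / (-A))
      (by field_simp; linarith) (div_nonneg h3 hA'.le) (by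
        refine lt_of_le_of_lt (le_of_eq ?_) hF
        congr 1
        ext i
        have e : A / r * ((p i).1 - z.1 - (A * z.1 + B * z.2 + C) / (-A)) +
            B / r * ((p i).2 - z.2) = (A * (p i).1 + B * (p i).2 + C) / r := by
          have := hA.ne
          field_simp
          ring
        simp only [mem_ofPred_eq, e, div_lt_iff₀ hr, zero_mul])
    rw [le_div_iff₀ hA'] at h5
    linarith
  refine ⟨a, b, -a * (z.1 + s) - b * z.2, -b, a, b * (z.1 + s) - a * z.2, ?_, ?_, ?_⟩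
  · have : a * a - -b * b = 1 := by linarith
    rw [this]
    exact one_ne_zero
  · refine lt_of_le_of_lt (le_of_eq ?_) h2
    congr 1
    ext i
    simp only [G, mem_ofPred_eq]
    constructor <;> intro h <;> linarith
  · intro A B C h _ hF
    refine hw (A * a - B * b) (A * b + B * a)
      (A * (-a * (z.1 + s) - b * z.2) + B * (b * (z.1 + s) - a * z.2) + C) ?_ ?_
    · show (A * a - B * b) * (z.1 + s) + (A * b + B * a) * z.2 + _ < 0
      linarith
    · refine lt_of_le_of_lt (le_of_eq ?_) hF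
      congr 1
      ext i
      simp only [G, mem_ofPred_eq]
      constructor <;> intro h <;> linarith

end Pool.Agent.P.MP_daa8d5_co.Pl
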