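import Pool.Agent.P.MP_daa8d5_co.Pl.Stm
import Pool.Agent.P.MP_daa8d5_co.Ball

set_option autoImplicit false

namespace Pool.Agent.P.MP_daa8d5_co.Pl

open Set

namespace FillP

attribute [local instance] decE

variable {ι : Type} [Fintype ι] {d : ℕ}

/-- Essential families of indices are small, and full ones have the point in the interior. -/
theorem ess_idx (p : ι → EuclideanSpace ℝ (Fin d)) (hp : Function.Injective p) (S : Set ι)
    (y : EuclideanSpace ℝ (Fin d)) (hy : y ∈ convexHull ℝ (p '' S))
    (hess : ∀ i ∈ S, y ∉ convexHull ℝ (p '' (S \ {i}))) :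
    S.ncard ≤ d + 1 ∧ (S.ncard = d + 1 → y ∈ interior (convexHull ℝ (p '' S))) := by
  classical
  let A : Finset (EuclideanSpace ℝ (Fin d)) := ((toFinite S).image p).toFinset
  have hA : (A : Set (EuclideanSpace ℝ (Fin d))) = p '' S := by simp [A]
  have hc : A.card = S.ncard := by
    rw [← Set.ncard_coe_finset, hA, Set.ncard_image_of_injective _ hp]
  have hy' : y ∈ convexHull ℝ (A : Set (EuclideanSpace ℝ (Fin d))) := by rw [hA]; exact hy
  have he : ∀ z ∈ A, y ∉ convexHull ℝ ((A.erase z : Finset _) : Set (EuclideanSpace ℝ (Fin d))) := by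
    intro z hz h
    have hz' : z ∈ p '' S := by rw [← hA]; exact_mod_cast hz
    obtain ⟨i, hi, rfl⟩ := hz'
    apply hess i hi
    refine convexHull_mono ?_ h
    intro w hw
    rw [Finset.coe_erase, hA] at hw
    obtain ⟨⟨k, hk, rfl⟩, hne⟩ := hw
    refine ⟨k, ⟨hk, ?_⟩, rfl⟩
    intro hki
    apply hne
    have : k = i := hki
    simp [this]
  refine ⟨hc ▸ card_le_of_essential A y hy' he, fun h => ?_⟩
  have := interior_of_essential A y hy' he (hc.trans h)
  rwa [hA] at this

end FillP

open FillP in
theorem sfill : SFill := by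
  classical
  intro ι _ d n t p x U C hp hUC hCU hU hcard hex hgain
  let P : Set (ι → Option (Fin n)) := {o | o x = none ∧
    ∀ j, ∃ y ∈ convexHull ℝ (p '' {i | o i = some j}), y ∈ C}
  let In : (ι → Option (Fin n)) → Fin n → Prop := fun o j =>
    ∃ y ∈ convexHull ℝ (p '' {i | o i = some j}), y ∈ U
  let tight : (ι → Option (Fin n)) → ℕ := fun o => {j | ¬ In o j}.ncard
  let size : (ι → Option (Fin n)) → ℕ := fun o => {i | o i ≠ none}.ncard
  have hP : P.Nonempty := hex
  obtain ⟨o0, ho0, hmin0⟩ := (InvImage.wf tight wellFounded_lt).has_min P hP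
  let P' := {o ∈ P | tight o ≤ tight o0}
  obtain ⟨o, ⟨⟨hx, hF⟩, hq⟩, hmin1⟩ := (InvImage.wf size wellFounded_lt).has_min P' ⟨o0, ho0, le_rfl⟩
  -- the parts cover everything but `x`
  have hcov : ∀ w, w ≠ x → o w ≠ none := by
    intro w hw hno
    obtain ⟨j, hj1, hj2⟩ := hgain o hx hF w hw hno
    let o' := Function.update o w (some j)
    have hsub : ∀ k, {i | o i = some k} ⊆ {i | o' i = some k} := by
      intro k i hi
      have hi : o i = some k := hi
      have hiw : i ≠ w := by
        rintro rfl
        rw [hno] at hi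
        cases hi
      show o' i = some k
      simp [o', hiw, hi]
    have hsub2 : insert w {i | o i = some j} ⊆ {i | o' i = some j} := by
      rintro i (rfl | hi)
      · show o' i = some j
        simp [o']
      · exact hsub j hi
    have ho' : o' ∈ P := by
      refine ⟨by simp [o', hw.symm, hx], fun k => ?_⟩
      obtain ⟨y, hy, hd⟩ := hF k
      exact ⟨y, convexHull_mono (image_mono (hsub k)) hy, hd⟩
    apply hmin0 o' ho'
    show tight o' < tight o0
    refine lt_of_lt_of_le ?_ hq
    apply Set.ncard_lt_ncard _ (toFinite _)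
    refine ⟨fun k hk => ?_, fun h => ?_⟩
    · rintro ⟨y, hy, hd⟩
      exact hk ⟨y, convexHull_mono (image_mono (hsub k)) hy, hd⟩
    · have h1 : j ∈ {j | ¬ In o j} := by
        rintro ⟨y, hy, hd⟩
        exact hj1 y hy hd
      obtain ⟨y, hy, hd⟩ := hj2
      exact h h1 ⟨y, convexHull_mono (image_mono hsub2) hy, hd⟩
  -- every index is essential
  have hess : ∀ j, ∀ w ∈ {i | o i = some j}, ∀ y ∈ convexHull ℝ (p '' ({i | o i = some j} \ {w})),
      y ∈ C → (In o j → y ∈ U) → False := by
    intro j w hw y hy hd hin
    have hw : o w = some j := hw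
    let o' := Function.update o w none
    have h1 : {i | o i = some j} \ {w} ⊆ {i | o' i = some j} := by
      rintro i ⟨hi, hiw⟩
      have hi : o i = some j := hi
      have hiw : i ≠ w := hiw
      show o' i = some j
      simp [o', hiw, hi]
    have h2 : ∀ k, k ≠ j → {i | o i = some k} ⊆ {i | o' i = some k} := by
      intro k hk i hi
      have hi : o i = some k := hi
      have hiw : i ≠ w := by
        rintro rfl
        rw [hw] at hi
        exact hk (Option.some.inj hi).symm
      show o' i = some k
      simp [o', hiw, hi]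
    have ho' : o' ∈ P := by
      refine ⟨?_, fun k => ?_⟩
      · by_cases hxw : x = w
        · simp [o', hxw]
        · simp [o', hxw, hx]
      · by_cases hk : k = j
        · subst hk
          exact ⟨y, convexHull_mono (image_mono h1) hy, hd⟩
        · obtain ⟨z, hz, hzC⟩ := hF k
          exact ⟨z, convexHull_mono (image_mono (h2 k hk)) hz, hzC⟩
    have ht : tight o' ≤ tight o := by
      apply Set.ncard_le_ncard _ (toFinite _)
      intro k hk h
      apply hk
      by_cases hkj : k = j
      · subst hkj
        exact ⟨y, convexHull_mono (image_mono h1) hy, hin h⟩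
      · obtain ⟨z, hz, hzU⟩ := h
        exact ⟨z, convexHull_mono (image_mono (h2 k hkj)) hz, hzU⟩
    apply hmin1 o' ⟨ho', ht.trans hq⟩
    show size o' < size o
    apply Set.ncard_lt_ncard _ (toFinite _)
    refine ⟨fun i hi => ?_, fun h => ?_⟩
    · have hi : o' i ≠ none := hi
      by_cases hiw : i = w
      · subst hiw
        simp [o'] at hi
      · show o i ≠ none
        simpa [o', hiw] using hi
    · have h3 : w ∈ {i | o i ≠ none} := by
        show o w ≠ none
        simp [hw]
      have h4 : o' w ≠ none := h h3
      simp [o'] at h4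
  have hle : ∀ j, {i | o i = some j}.ncard ≤ d + 1 := by
    intro j
    by_cases hj : In o j
    · obtain ⟨y, hy, hd⟩ := hj
      exact (ess_idx p hp _ y hy fun w hw h => hess j w hw y h (hUC hd) fun _ => hd).1
    · obtain ⟨y, hy, hd⟩ := hF j
      exact (ess_idx p hp _ y hy fun w hw h => hess j w hw y h hd fun h' => absurd h' hj).1
  have hfull : ∀ j, {i | o i = some j}.ncard = d + 1 →
      C ⊆ convexHull ℝ (p '' {i | o i = some j}) := by
    intro j hc
    have hcl : IsClosed (convexHull ℝ (p '' {i | o i = some j})) :=
      ((toFinite _).image p).isClosed_convexHull ℝ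
    have hj : In o j := by
      by_contra hj
      obtain ⟨y, hy, hd⟩ := hF j
      have hi := (ess_idx p hp _ y hy
        fun w hw h => hess j w hw y h hd fun h' => absurd h' hj).2 hc
      obtain ⟨w, hw1, hw2⟩ := mem_closure_iff.1 (hCU hd) _ isOpen_interior hi
      exact hj ⟨w, interior_subset hw1, hw2⟩
    have hb : U ⊆ interior (convexHull ℝ (p '' {i | o i = some j})) := by
      have hin : ∀ y ∈ U, y ∈ convexHull ℝ (p '' {i | o i = some j}) →
          y ∈ interior (convexHull ℝ (p '' {i | o i = some j})) := fun y hd hy =>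
        (ess_idx p hp _ y hy fun w hw h => hess j w hw y h (hUC hd) fun _ => hd).2 hc
      refine hU.subset_left_of_subset_union isOpen_interior hcl.isOpen_compl ?_ ?_ ?_
      · exact disjoint_compl_right.mono_left interior_subset
      · intro y hy
        by_cases h : y ∈ convexHull ℝ (p '' {i | o i = some j})
        · exact Or.inl (hin y hy h)
        · exact Or.inr h
      · obtain ⟨y, hy, hd⟩ := hj
        exact ⟨y, hd, hin y hd hy⟩
    exact hCU.trans (closure_minimal (hb.trans interior_subset) hcl)
  refine ⟨o, hx, hF, {j | {i | o i = some j}.ncard = d + 1}, ?_, fun j hj => hfull j hj⟩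
  let B : Fin n → Finset ι := fun j => Finset.univ.filter fun i => o i = some j
  have hB : ∀ j, (B j).card = {i | o i = some j}.ncard := by
    intro j
    rw [← Set.ncard_coe_finset]
    congr 1
    ext i
    simp [B]
  have h1 : (Finset.univ.erase x).card ≤ ∑ j, (B j).card := by
    refine le_trans (Finset.card_le_card ?_) (Finset.card_biUnion_le (s := Finset.univ) (t := B))
    intro w hw
    have := hcov w (Finset.mem_erase.1 hw).1
    obtain ⟨j, hj⟩ := Option.ne_none_iff_exists'.1 this
    exact Finset.mem_biUnion.2 ⟨j, Finset.mem_univ _, by simp [B, hj]⟩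
  have h2 : ∑ j, (B j).card ≤
      ∑ j : Fin n, (d + if {i | o i = some j}.ncard = d + 1 then 1 else 0) := by
    apply Finset.sum_le_sum
    intro j _
    have := hle j
    rw [hB]
    split_ifs <;> omega
  rw [Finset.sum_add_distrib, Finset.sum_boole] at h2
  simp only [Finset.sum_const, Finset.card_univ, Fintype.card_fin, smul_eq_mul, Nat.cast_id] at h2
  rw [Finset.card_erase_of_mem (Finset.mem_univ _), Finset.card_univ] at h1
  have h3 : (Finset.univ.filter fun j : Fin n => {i | o i = some j}.ncard = d + 1).card =
      {j : Fin n | {i | o i = some j}.ncard = d + 1}.ncard := by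
    rw [← Set.ncard_coe_finset]
    congr 1
    ext j
    simp
  omega

end Pool.Agent.P.MP_daa8d5_co.Pl
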