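import Pool.Agent.P.MP_daa8d5_co.Pl.Stm

set_option autoImplicit false

namespace Pool.Agent.P.MP_daa8d5_co.Pl

namespace HallP

/-- A lexicographic half-plane. -/
def Lx (a b c a' b' c' : ℝ) : Set (ℝ × ℝ) :=
  {x | a * x.1 + b * x.2 + c < 0 ∨ (a * x.1 + b * x.2 + c ≤ 0 ∧ a' * x.1 + b' * x.2 + c' < 0)}

theorem comb_neg {s t u v : ℝ} (hs : 0 ≤ s) (ht : 0 ≤ t) (h : s + t = 1) (hu : u < 0)
    (hv : v < 0) : s * u + t * v < 0 := by
  rcases hs.eq_or_lt with e | e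
  · have : t = 1 := by linarith
    rw [← e, this]; linarith
  · nlinarith [mul_pos e (neg_pos.2 hu), mul_nonneg ht (neg_pos.2 hv).le]

theorem convex_Lx (a b c a' b' c' : ℝ) : Convex ℝ (Lx a b c a' b' c') := by
  intro x hx y hy s t hs ht h
  have key : ∀ a b c : ℝ, a * (s • x + t • y).1 + b * (s • x + t • y).2 + c =
      s * (a * x.1 + b * x.2 + c) + t * (a * y.1 + b * y.2 + c) := by
    intro a b c
    simp only [Prod.fst_add, Prod.snd_add, Prod.smul_fst, Prod.smul_snd, smul_eq_mul]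
    linear_combination (-c) * h
  rcases hs.eq_or_lt with e | hs'
  · have e' : t = 1 := by linarith
    rw [← e, e', zero_smul, one_smul, zero_add]; exact hy
  rcases ht.eq_or_lt with e | ht'
  · have e' : s = 1 := by linarith
    rw [← e, e', zero_smul, one_smul, add_zero]; exact hx
  simp only [Lx, Set.mem_setOf_eq] at hx hy ⊢
  rw [key, key]
  rcases hx with hx | hx <;> rcases hy with hy | hy
  · exact Or.inl (comb_neg hs ht h hx hy)
  · left
    nlinarith [mul_pos hs' (neg_pos.2 hx), mul_nonneg ht (neg_nonneg.2 hy.1)]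
  · left
    nlinarith [mul_pos ht' (neg_pos.2 hy), mul_nonneg hs (neg_nonneg.2 hx.1)]
  · refine Or.inr ⟨?_, comb_neg hs ht h hx.2 hy.2⟩
    nlinarith [mul_nonneg hs (neg_nonneg.2 hx.1), mul_nonneg ht (neg_nonneg.2 hy.1)]

theorem hc_le {ι : Type} [Fintype ι] {m : ℕ} {q : ι → ℝ × ℝ} {α β : ℝ} (h : HC m q α β)
    (a b c a' b' c' : ℝ)
    (hK : ∀ η, α ≤ η → η ≤ β → 0 ≤ b * η + c ∧ (0 < b * η + c ∨ 0 ≤ b' * η + c'))
    {A : Set ι} (hA : ∀ i, 0 ≤ a * (q i).1 + b * (q i).2 + c →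
      (0 < a * (q i).1 + b * (q i).2 + c ∨ 0 ≤ a' * (q i).1 + b' * (q i).2 + c') → i ∈ A) :
    m ≤ A.ncard := by
  by_contra hc
  have hsub : {i | q i ∉ Lx a b c a' b' c'} ⊆ A := by
    intro i hi
    simp only [Lx, Set.mem_setOf_eq, not_or, not_lt, not_and] at hi
    refine hA i hi.1 ?_
    rcases lt_or_ge 0 (a * (q i).1 + b * (q i).2 + c) with h1 | h1
    · exact Or.inl h1
    · exact Or.inr (hi.2 h1)
  obtain ⟨η, h1, h2, h3⟩ := h _ (convex_Lx a b c a' b' c')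
    (lt_of_le_of_lt (Set.ncard_le_ncard hsub (Set.toFinite _)) (not_le.1 hc))
  obtain ⟨h4, h5⟩ := hK η h1 h2
  simp only [Lx, Set.mem_setOf_eq, mul_zero, zero_add] at h3
  rcases h3 with h3 | h3
  · linarith
  · rcases h5 with h5 | h5 <;> linarith [h3.1, h3.2]

theorem count {ι : Type} [Fintype ι] {m : ℕ} {V S B Z : Set ι} (hV : V.ncard + 1 = m)
    (hS : S ⊆ V) (hZ : Z.ncard ≤ 1) (h : m ≤ ((V \ S) ∪ B ∪ Z).ncard) : S.ncard ≤ B.ncard := by
  have h1 := Set.ncard_union_le ((V \ S) ∪ B) Z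
  have h2 := Set.ncard_union_le (V \ S) B
  have h3 := Set.ncard_diff_add_ncard_of_subset hS (Set.toFinite _)
  omega

end HallP

open HallP

theorem shall : SHall := by
  intro ι _ m q Rs α β ⟨_, hc, hV, _, hL, hZ1, hZ2⟩
  refine ⟨fun τ => count hV (fun i hi => hi.1) hZ1 ?_, fun σ => count hV (fun i hi => hi.1) hZ2 ?_⟩
  · refine hc_le hc (-τ) 1 (-α) 1 0 0 (fun η h1 _ => ⟨by linarith, Or.inr (by simp)⟩) ?_
    intro i h1 h2
    simp only [Set.mem_union, Set.mem_diff, Set.mem_setOf_eq]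
    rcases lt_or_ge (q i).1 0 with h3 | h3
    · refine Or.inl (Or.inl ⟨h3, fun h4 => ?_⟩)
      rcases h2 with h2 | h2 <;> linarith [h4.2]
    by_cases h4 : i ∈ Rs
    · exact Or.inl (Or.inr ⟨h4, by linarith⟩)
    · have h5 : (q i).1 = 0 := le_antisymm (hL i h4) h3
      rw [h5] at h1
      exact Or.inr ⟨h4, h5, by linarith⟩
  · refine hc_le hc σ (-1) β 1 0 0 (fun η _ h1 => ⟨by linarith, Or.inr (by simp)⟩) ?_
    intro i h1 h2
    simp only [Set.mem_union, Set.mem_diff, Set.mem_setOf_eq]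
    rcases lt_or_ge (q i).1 0 with h3 | h3
    · refine Or.inl (Or.inl ⟨h3, fun h4 => ?_⟩)
      rcases h2 with h2 | h2 <;> linarith [h4.2]
    by_cases h4 : i ∈ Rs
    · exact Or.inl (Or.inr ⟨h4, by linarith⟩)
    · have h5 : (q i).1 = 0 := le_antisymm (hL i h4) h3
      rw [h5] at h1
      exact Or.inr ⟨h4, h5, by linarith⟩

theorem sspec : SSpec := by
  intro ι _ m q α β hg h3 hαβ hc hV
  have k1 : m ≤ ({i | (q i).1 < 0} ∪ {i | (q i).1 = 0 ∧ (q i).2 ≤ β}).ncard := by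
    refine hc_le hc (-1) 0 0 0 (-1) β (fun η _ h1 => ⟨by simp, Or.inr (by linarith)⟩) ?_
    intro i h1 h2
    simp only [Set.mem_union, Set.mem_setOf_eq]
    rcases lt_or_ge (q i).1 0 with h4 | h4
    · exact Or.inl h4
    · refine Or.inr ⟨by linarith, ?_⟩
      rcases h2 with h2 | h2 <;> linarith
  have k2 : m ≤ ({i | (q i).1 < 0} ∪ {i | (q i).1 = 0 ∧ α ≤ (q i).2}).ncard := by
    refine hc_le hc (-1) 0 0 0 1 (-α) (fun η h1 _ => ⟨by simp, Or.inr (by linarith)⟩) ?_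
    intro i h1 h2
    simp only [Set.mem_union, Set.mem_setOf_eq]
    rcases lt_or_ge (q i).1 0 with h4 | h4
    · exact Or.inl h4
    · refine Or.inr ⟨by linarith, ?_⟩
      rcases h2 with h2 | h2 <;> linarith
  replace k1 := k1.trans (Set.ncard_union_le _ _)
  replace k2 := k2.trans (Set.ncard_union_le _ _)
  have line : ∀ i j k, i ≠ j → i ≠ k → j ≠ k → (q i).1 = 0 → (q j).1 = 0 → (q k).1 = 0 →
      False := fun i j k h1 h2 h4 e1 e2 e3 =>
    hg.line (a := 1) (b := 0) (c := 0) (Or.inl one_ne_zero) h1 h2 h4 (by simp [e1])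
      (by simp [e2]) (by simp [e3])
  constructor
  · by_cases hx : ∃ i, (q i).1 = 0 ∧ α ≤ (q i).2 ∧ (q i).2 ≤ β
    · exact Or.inl hx
    push Not at hx
    obtain ⟨o1, a1, a2⟩ := Set.nonempty_of_ncard_ne_zero
      (s := {i | (q i).1 = 0 ∧ (q i).2 ≤ β}) (by omega)
    obtain ⟨o2, b1, b2⟩ := Set.nonempty_of_ncard_ne_zero
      (s := {i | (q i).1 = 0 ∧ α ≤ (q i).2}) (by omega)
    have a3 : (q o1).2 < α := by
      by_contra h
      exact absurd (hx o1 a1 (not_lt.1 h)) (not_lt.2 a2)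
    have b3 : β < (q o2).2 := hx o2 b1 b2
    have hne : o1 ≠ o2 := by
      rintro rfl
      linarith
    have hall : ∀ i, (q i).1 = 0 → i = o1 ∨ i = o2 := fun i hi => by
      by_contra h
      push Not at h
      exact line i o1 o2 h.1 h.2 hne hi a1 b1
    refine Or.inr ⟨?_, o1, o2, a1, b1, a3, b3, hall⟩
    have hsub : {i | (q i).1 = 0 ∧ (q i).2 ≤ β} ⊆ {o1} := by
      intro i hi
      rcases hall i hi.1 with e | e
      · exact e
      · exact absurd (e ▸ hi.2) (not_le.2 b3)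
    have := Set.ncard_le_ncard hsub (Set.toFinite _)
    rw [Set.ncard_singleton] at this
    omega
  · rintro rfl
    by_contra hm
    obtain ⟨i, j, hi, hj, hij⟩ := (Set.one_lt_ncard_iff
      (s := {i | (q i).1 = 0 ∧ (q i).2 ≤ α}) (Set.toFinite _)).1 (by omega)
    obtain ⟨k, l, hk, hl, hkl⟩ := (Set.one_lt_ncard_iff
      (s := {i | (q i).1 = 0 ∧ α ≤ (q i).2}) (Set.toFinite _)).1 (by omega)
    have up : ∀ x, (q x).1 = 0 → x = k ∨ x = l := fun x hx => by
      by_contra h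
      push Not at h
      exact line x k l h.1 h.2 hkl hx hk.1 hl.1
    have ge : ∀ x, (q x).1 = 0 → α ≤ (q x).2 := fun x hx => by
      rcases up x hx with e | e <;> rw [e]
      exacts [hk.2, hl.2]
    refine hij (hg.inj h3 (Prod.ext (hi.1.trans hj.1.symm) ?_))
    rw [le_antisymm hi.2 (ge i hi.1), le_antisymm hj.2 (ge j hj.1)]

end Pool.Agent.P.MP_daa8d5_co.Pl
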