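import Pool.Agent.P.MP_daa8d5_co.Pl.Stm

set_option autoImplicit false

namespace Pool.Agent.P.MP_daa8d5_co.Pl

open Set

namespace MaxP

theorem rot {ι : Type} {m : ℕ} {p : ι → ℝ × ℝ} {a b c : ℝ × ℝ} (h : Anti m p a b c) :
    Anti m p b c a := by
  obtain ⟨h0, h1, h2, h3⟩ := h
  refine ⟨?_, h2, h3, h1⟩
  have : D b c a = D a b c := by simp only [D]; ring
  rwa [this]

theorem arm {ι : Type} [Fintype ι] {m : ℕ} {p : ι → ℝ × ℝ} {a b c : ℝ × ℝ}
    (hc : 2 * m < Fintype.card ι) (h : Anti m p a b c) :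
    ∃ i, D a b (p i) ≤ 0 ∧ D c a (p i) ≤ 0 := by
  obtain ⟨-, h1, -, h3⟩ := h
  by_contra hno
  push Not at hno
  have hsub : (univ : Set ι) ⊆ {i | 0 < D a b (p i)} ∪ {i | 0 < D c a (p i)} := by
    intro i _
    by_cases hi : D a b (p i) ≤ 0
    · exact Or.inr (hno i hi)
    · exact Or.inl (not_le.1 hi)
  have e1 := Set.ncard_le_ncard hsub
  have e2 := Set.ncard_union_le {i | 0 < D a b (p i)} {i | 0 < D c a (p i)}
  rw [Set.ncard_univ, Nat.card_eq_fintype_card] at e1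
  omega

theorem top {ι : Type} [Fintype ι] {m : ℕ} {p : ι → ℝ × ℝ} {a b c : ℝ × ℝ}
    (hc : 2 * m < Fintype.card ι) (h : Anti m p a b c) {u v M : ℝ}
    (hM : ∀ i, u * (p i).1 + v * (p i).2 ≤ M) (hb : u * b.1 + v * b.2 ≤ u * a.1 + v * a.2)
    (hc' : u * c.1 + v * c.2 ≤ u * a.1 + v * a.2) : u * a.1 + v * a.2 ≤ M := by
  obtain ⟨i, h1, h2⟩ := arm hc h
  have h0 := h.1
  have e : D a b c * ((u * (p i).1 + v * (p i).2) - (u * a.1 + v * a.2)) =
      (-D c a (p i)) * ((u * a.1 + v * a.2) - (u * b.1 + v * b.2)) +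
        (-D a b (p i)) * ((u * a.1 + v * a.2) - (u * c.1 + v * c.2)) := by
    simp only [D]; ring
  have e1 : 0 ≤ D a b c * ((u * (p i).1 + v * (p i).2) - (u * a.1 + v * a.2)) := by
    rw [e]
    exact add_nonneg (mul_nonneg (by linarith) (by linarith))
      (mul_nonneg (by linarith) (by linarith))
  have e2 := (mul_nonneg_iff_of_pos_left h0).1 e1
  linarith [hM i]

theorem bound {ι : Type} [Fintype ι] {m : ℕ} {p : ι → ℝ × ℝ} {a b c : ℝ × ℝ}
    (hc : 2 * m < Fintype.card ι) (h : Anti m p a b c) {u v M : ℝ}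
    (hM : ∀ i, u * (p i).1 + v * (p i).2 ≤ M) : u * a.1 + v * a.2 ≤ M := by
  have t1 := top hc h hM
  have t2 := top hc (rot h) hM
  have t3 := top hc (rot (rot h)) hM
  rcases le_total (u * b.1 + v * b.2) (u * a.1 + v * a.2) with h1 | h1 <;>
    rcases le_total (u * c.1 + v * c.2) (u * a.1 + v * a.2) with h2 | h2 <;>
    rcases le_total (u * b.1 + v * b.2) (u * c.1 + v * c.2) with h3 | h3
  · exact t1 h1 h2
  · exact t1 h1 h2
  · exact h2.trans (t3 h2 h3)
  · exact h2.trans (t3 h2 (h1.trans h2))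
  · exact h1.trans (t2 (h2.trans h1) h1)
  · exact h1.trans (t2 h3 h1)
  · exact h2.trans (t3 h2 h3)
  · exact h1.trans (t2 h3 h1)

theorem norm_bound {ι : Type} [Fintype ι] {m : ℕ} {p : ι → ℝ × ℝ} {a b c : ℝ × ℝ}
    (hc : 2 * m < Fintype.card ι) (h : Anti m p a b c) {M : ℝ} (hM : ∀ i, ‖p i‖ ≤ M) :
    ‖a‖ ≤ M := by
  have h1 : ∀ i, |(p i).1| ≤ M := fun i => (norm_fst_le (p i)).trans (hM i)
  have h2 : ∀ i, |(p i).2| ≤ M := fun i => (norm_snd_le (p i)).trans (hM i)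
  have b1 := bound hc h (u := 1) (v := 0) (M := M) fun i => by linarith [(abs_le.1 (h1 i)).2]
  have b2 := bound hc h (u := -1) (v := 0) (M := M) fun i => by linarith [(abs_le.1 (h1 i)).1]
  have b3 := bound hc h (u := 0) (v := 1) (M := M) fun i => by linarith [(abs_le.1 (h2 i)).2]
  have b4 := bound hc h (u := 0) (v := -1) (M := M) fun i => by linarith [(abs_le.1 (h2 i)).1]
  rw [Prod.norm_def]
  exact max_le (abs_le.2 ⟨by linarith, by linarith⟩) (abs_le.2 ⟨by linarith, by linarith⟩)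

theorem nondeg {ι : Type} [Fintype ι] {m : ℕ} {p : ι → ℝ × ℝ} (hp : GP p) {a b c : ℝ × ℝ}
    (hc : 2 * m < Fintype.card ι) (hab : b ≠ a) (h0 : D a b c = 0)
    (h1 : {i | 0 < D a b (p i)}.ncard < m) (h2 : {i | 0 < D b c (p i)}.ncard < m)
    (h3 : {i | 0 < D c a (p i)}.ncard < m) : False := by
  have hne : -(b.2 - a.2) ≠ 0 ∨ b.1 - a.1 ≠ 0 := by
    by_contra hno
    push Not at hno
    exact hab (Prod.ext (by linarith [hno.2]) (by linarith [hno.1]))
  have hN : 0 < (b.1 - a.1) ^ 2 + (b.2 - a.2) ^ 2 := by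
    rcases hne with h | h
    · have : 0 < (b.2 - a.2) ^ 2 := by
        have h' : b.2 - a.2 ≠ 0 := fun e => h (by rw [e, neg_zero])
        positivity
      positivity
    · positivity
  set N := (b.1 - a.1) ^ 2 + (b.2 - a.2) ^ 2 with hNd
  set L := (c.1 - a.1) * (b.1 - a.1) + (c.2 - a.2) * (b.2 - a.2) with hL
  have e1 : ∀ x, N * D c a x = -L * D a b x := by
    intro x
    have : N * D c a x + L * D a b x =
        ((x.1 - a.1) * (b.1 - a.1) + (x.2 - a.2) * (b.2 - a.2)) * D a b c := by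
      simp only [D, hNd, hL]; ring
    rw [h0] at this
    linarith
  have e2 : ∀ x, N * D b c x = (L - N) * D a b x := by
    intro x
    have : D a b x + D b c x + D c a x = D a b c := by simp only [D]; ring
    rw [h0] at this
    have h' := e1 x
    linear_combination N * this - h'
  have hneg : {i | D a b (p i) < 0}.ncard < m := by
    by_cases hl : 0 < L
    · refine lt_of_le_of_lt (Set.ncard_le_ncard fun i hi => ?_) h3
      have hi : D a b (p i) < 0 := hi
      have : 0 < N * D c a (p i) := by rw [e1]; nlinarith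
      exact (mul_pos_iff_of_pos_left hN).1 this
    · refine lt_of_le_of_lt (Set.ncard_le_ncard fun i hi => ?_) h2
      have hi : D a b (p i) < 0 := hi
      have : 0 < N * D b c (p i) := by rw [e2]; exact mul_pos_of_neg_of_neg (by linarith) hi
      exact (mul_pos_iff_of_pos_left hN).1 this
  have hline := hp.line_ncard (c := (b.2 - a.2) * a.1 - (b.1 - a.1) * a.2) hne
  have hsub : (univ : Set ι) ⊆ ({i | 0 < D a b (p i)} ∪ {i | D a b (p i) < 0}) ∪
      {i | -(b.2 - a.2) * (p i).1 + (b.1 - a.1) * (p i).2 +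
        ((b.2 - a.2) * a.1 - (b.1 - a.1) * a.2) = 0} := by
    intro i _
    rcases lt_trichotomy (D a b (p i)) 0 with h | h | h
    · exact Or.inl (Or.inr h)
    · refine Or.inr ?_
      show _ = (0 : ℝ)
      rw [← h]; simp only [D]; ring
    · exact Or.inl (Or.inl h)
  have f1 := Set.ncard_le_ncard hsub
  have f2 := Set.ncard_union_le ({i | 0 < D a b (p i)} ∪ {i | D a b (p i) < 0})
    {i | -(b.2 - a.2) * (p i).1 + (b.1 - a.1) * (p i).2 +
        ((b.2 - a.2) * a.1 - (b.1 - a.1) * a.2) = 0}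
  have f3 := Set.ncard_union_le {i | 0 < D a b (p i)} {i | D a b (p i) < 0}
  rw [Set.ncard_univ, Nat.card_eq_fintype_card] at f1
  omega

theorem closed_cnt {ι X : Type} [Fintype ι] [TopologicalSpace X] (m : ℕ) (p : ι → ℝ × ℝ)
    (f g : X → ℝ × ℝ) (hf : Continuous f) (hg : Continuous g) :
    IsClosed {x | {i | 0 < D (f x) (g x) (p i)}.ncard < m} := by
  have := isClosed_few m (fun i x => -D (f x) (g x) (p i)) fun i => by
    simp only [D]; fun_prop
  simpa only [neg_lt_zero] using this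

end MaxP

open MaxP in
theorem smax : SMax := by
  intro ι _ m p hp hc ⟨a0, b0, c0, h0⟩
  obtain ⟨M, hM⟩ : ∃ M : ℝ, ∀ i, ‖p i‖ ≤ M := by
    obtain ⟨M, hM⟩ := (Set.finite_range fun i => ‖p i‖).bddAbove
    exact ⟨M, fun i => hM ⟨i, rfl⟩⟩
  let K : Set ((ℝ × ℝ) × (ℝ × ℝ) × (ℝ × ℝ)) := Metric.closedBall 0 M ∩
    ({t | 0 ≤ D t.1 t.2.1 t.2.2} ∩ ({t | {i | 0 < D t.1 t.2.1 (p i)}.ncard < m} ∩
      ({t | {i | 0 < D t.2.1 t.2.2 (p i)}.ncard < m} ∩
        {t | {i | 0 < D t.2.2 t.1 (p i)}.ncard < m})))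
  have hK : IsCompact K := by
    refine (isCompact_closedBall _ _).inter_right (IsClosed.inter ?_ (IsClosed.inter ?_
      (IsClosed.inter ?_ ?_)))
    · exact isClosed_le continuous_const (by simp only [D]; fun_prop)
    · exact closed_cnt m p _ _ (by fun_prop) (by fun_prop)
    · exact closed_cnt m p _ _ (by fun_prop) (by fun_prop)
    · exact closed_cnt m p _ _ (by fun_prop) (by fun_prop)
  have hmem : ∀ a b c, Anti m p a b c → (a, b, c) ∈ K := by
    intro a b c h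
    refine ⟨?_, h.1.le, h.2.1, h.2.2.1, h.2.2.2⟩
    rw [mem_closedBall_zero_iff, Prod.norm_def, Prod.norm_def]
    exact max_le (norm_bound hc h hM)
      (max_le (norm_bound hc (rot h) hM) (norm_bound hc (rot (rot h)) hM))
  obtain ⟨⟨a, b, c⟩, ⟨-, k0, k1, k2, k3⟩, hmax⟩ := hK.exists_isMaxOn ⟨_, hmem a0 b0 c0 h0⟩
    (f := fun t => ‖t.2.1 - t.1‖) (by fun_prop)
  have hmax' : ∀ a' b' c', Anti m p a' b' c' → ‖b' - a'‖ ≤ ‖b - a‖ :=
    fun a' b' c' h => hmax (hmem a' b' c' h)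
  have hab : b ≠ a := by
    intro e
    have h1 := hmax' a0 b0 c0 h0
    rw [e, sub_self, norm_zero, norm_le_zero_iff, sub_eq_zero] at h1
    have h2 := h0.1
    rw [h1] at h2
    simp [D] at h2
  refine ⟨a, b, c, ⟨?_, k1, k2, k3⟩, hmax'⟩
  refine lt_of_le_of_ne k0 fun e => ?_
  exact nondeg hp hc hab e.symm k1 k2 k3

end Pool.Agent.P.MP_daa8d5_co.Pl
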