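import Pool.Agent.P.MP_daa8d5_co.Pl.Stm

set_option autoImplicit false

namespace Pool.Agent.P.MP_daa8d5_co.Pl

open Set

namespace PertP

theorem hull_iff {ι E : Type} [Fintype ι] [AddCommGroup E] [Module ℝ E] (p : ι → E) (S : Set ι)
    (y : E) : y ∈ convexHull ℝ (p '' S) ↔
      ∃ w ∈ stdSimplex ℝ ι, (∀ i, i ∉ S → w i = 0) ∧ ∑ i, w i • p i = y := by
  classical
  constructor
  · intro hy
    have hc : Convex ℝ {y : E | ∃ w ∈ stdSimplex ℝ ι, (∀ i, i ∉ S → w i = 0) ∧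
        ∑ i, w i • p i = y} := by
      rintro _ ⟨w, hw, hw0, rfl⟩ _ ⟨v, hv, hv0, rfl⟩ a b ha hb hab
      refine ⟨a • w + b • v, convex_stdSimplex ℝ ι hw hv ha hb hab, fun i hi => ?_, ?_⟩
      · simp [hw0 i hi, hv0 i hi]
      · simp only [Pi.add_apply, Pi.smul_apply, smul_eq_mul, add_smul, mul_smul,
          Finset.sum_add_distrib, Finset.smul_sum]
    refine convexHull_min ?_ hc hy
    rintro _ ⟨i, hi, rfl⟩
    refine ⟨Pi.single i 1, single_mem_stdSimplex ℝ i, fun k hk => ?_, ?_⟩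
    · have : k ≠ i := fun h => hk (h ▸ hi)
      simp [this]
    · rw [Finset.sum_eq_single i]
      · simp
      · intro k _ hk
        simp [hk]
      · simp
  · rintro ⟨w, hw, hw0, rfl⟩
    have e1 : ∑ i, w i • p i = ∑ i ∈ Finset.univ.filter (· ∈ S), w i • p i := by
      rw [Finset.sum_filter]
      refine Finset.sum_congr rfl fun i _ => ?_
      split_ifs with h
      · rfl
      · simp [hw0 i h]
    have e2 : ∑ i ∈ Finset.univ.filter (· ∈ S), w i = 1 := by
      rw [← hw.2, Finset.sum_filter]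
      refine Finset.sum_congr rfl fun i _ => ?_
      split_ifs with h
      · rfl
      · exact (hw0 i h).symm
    rw [e1]
    exact (convex_convexHull ℝ _).sum_mem (fun i _ => hw.1 i) e2 fun i hi =>
      subset_convexHull ℝ _ ⟨i, (Finset.mem_filter.1 hi).2, rfl⟩

theorem isClosed_part {ι : Type} [Fintype ι] {m : ℕ} (c : ι → Fin m) (T : Finset (Fin m))
    (j : Fin m) : IsClosed {p : ι → ℝ × ℝ | ∃ y ∈ convexHull ℝ (p '' {i | c i = j}),
      ∀ k ∈ T, y ∈ convexHull ℝ (p '' {i | c i = k})} := by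
  classical
  let A : Set ((ι → ℝ × ℝ) × (Fin m → stdSimplex ℝ ι)) :=
    {z | (∀ i, c i ≠ j → (z.2 j).1 i = 0) ∧ ∀ k ∈ T, (∀ i, c i ≠ k → (z.2 k).1 i = 0) ∧
      ∑ i, (z.2 k).1 i • z.1 i = ∑ i, (z.2 j).1 i • z.1 i}
  have hw : ∀ (k : Fin m) (i : ι), Continuous
      fun z : (ι → ℝ × ℝ) × (Fin m → stdSimplex ℝ ι) => (z.2 k).1 i := fun k i =>
    (continuous_apply i).comp (continuous_subtype_val.comp ((continuous_apply k).comp
      continuous_snd))
  have hs : ∀ k : Fin m, Continuous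
      fun z : (ι → ℝ × ℝ) × (Fin m → stdSimplex ℝ ι) => ∑ i, (z.2 k).1 i • z.1 i := fun k =>
    continuous_finsetSum _ fun i _ => (hw k i).smul ((continuous_apply i).comp continuous_fst)
  have hz : ∀ k : Fin m, IsClosed {z : (ι → ℝ × ℝ) × (Fin m → stdSimplex ℝ ι) |
      ∀ i, c i ≠ k → (z.2 k).1 i = 0} := by
    intro k
    simp only [ofPred_forall]
    exact isClosed_iInter fun i => isClosed_iInter fun _ => isClosed_eq (hw k i) continuous_const
  have hA : IsClosed A := by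
    refine (hz j).inter ?_
    have : {z : (ι → ℝ × ℝ) × (Fin m → stdSimplex ℝ ι) | ∀ k ∈ T,
        (∀ i, c i ≠ k → (z.2 k).1 i = 0) ∧
        ∑ i, (z.2 k).1 i • z.1 i = ∑ i, (z.2 j).1 i • z.1 i} =
        ⋂ k ∈ T, ({z | ∀ i, c i ≠ k → (z.2 k).1 i = 0} ∩
          {z | ∑ i, (z.2 k).1 i • z.1 i = ∑ i, (z.2 j).1 i • z.1 i}) := by
      ext z
      simp only [mem_ofPred_eq, mem_iInter, mem_inter_iff]
    have h2 := isClosed_biInter (s := (T : Set (Fin m))) fun k _ =>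
      (hz k).inter (isClosed_eq (hs k) (hs j))
    have h3 : IsClosed {z : (ι → ℝ × ℝ) × (Fin m → stdSimplex ℝ ι) | ∀ k ∈ T,
        (∀ i, c i ≠ k → (z.2 k).1 i = 0) ∧
        ∑ i, (z.2 k).1 i • z.1 i = ∑ i, (z.2 j).1 i • z.1 i} := by
      rw [this]
      exact h2
    exact h3
  have himg := isClosedMap_fst_of_compactSpace A hA
  convert himg using 1
  ext p
  constructor
  · rintro ⟨y, hy, hk⟩
    obtain ⟨w, hw, hw0, hwy⟩ := (hull_iff p _ y).1 hy
    have hk' : ∀ k : Fin m, ∃ v : stdSimplex ℝ ι, (k = j → v.1 = w) ∧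
        (k ∈ T → (∀ i, c i ≠ k → v.1 i = 0) ∧ ∑ i, v.1 i • p i = y) := by
      intro k
      by_cases h1 : k = j
      · subst h1
        exact ⟨⟨w, hw⟩, fun _ => rfl, fun _ => ⟨fun i hi => hw0 i hi, hwy⟩⟩
      by_cases h2 : k ∈ T
      · obtain ⟨v, hv, hv0, hvy⟩ := (hull_iff p _ y).1 (hk k h2)
        exact ⟨⟨v, hv⟩, fun h => absurd h h1, fun _ => ⟨fun i hi => hv0 i hi, hvy⟩⟩
      · exact ⟨⟨w, hw⟩, fun _ => rfl, fun h => absurd h h2⟩
    choose W hW1 hW2 using hk'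
    refine ⟨(p, W), ⟨fun i hi => ?_, fun k hk => ⟨(hW2 k hk).1, ?_⟩⟩, rfl⟩
    · show (W j).1 i = 0
      rw [hW1 j rfl]
      exact hw0 i hi
    · show ∑ i, (W k).1 i • p i = ∑ i, (W j).1 i • p i
      rw [(hW2 k hk).2, hW1 j rfl, hwy]
  · rintro ⟨⟨p', W⟩, ⟨h1, h2⟩, rfl⟩
    exact ⟨∑ i, (W j).1 i • p' i, (hull_iff p' _ _).2 ⟨_, (W j).2, fun i hi => h1 i hi, rfl⟩,
      fun k hk => (hull_iff p' _ _).2 ⟨_, (W k).2, fun i hi => (h2 k hk).1 i hi, (h2 k hk).2⟩⟩

theorem isClosed_good {ι : Type} [Fintype ι] (m t : ℕ) :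
    IsClosed {p : ι → ℝ × ℝ | Good m t p} := by
  classical
  have : {p : ι → ℝ × ℝ | Good m t p} = ⋃ c : ι → Fin m, ⋃ T : {T : Finset (Fin m) // T.card = t},
      ⋂ j, {p : ι → ℝ × ℝ | ∃ y ∈ convexHull ℝ (p '' {i | c i = j}),
        ∀ k ∈ T.1, y ∈ convexHull ℝ (p '' {i | c i = k})} := by
    ext p
    simp only [Good, mem_ofPred_eq, mem_iUnion, mem_iInter, Subtype.exists, exists_prop]
  rw [this]
  exact isClosed_iUnion_of_finite fun c => isClosed_iUnion_of_finite fun T =>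
    isClosed_iInter fun j => isClosed_part c T.1 j

theorem finite_quad {A B C : ℝ} (hA : A ≠ 0) : {e : ℝ | A * e ^ 2 + B * e + C = 0}.Finite := by
  have hne : (Polynomial.C A * Polynomial.X ^ 2 + Polynomial.C B * Polynomial.X +
      Polynomial.C C : Polynomial ℝ) ≠ 0 := by
    intro h
    have := congrArg (fun q => Polynomial.coeff q 2) h
    simp [Polynomial.coeff_X, Polynomial.coeff_C] at this
    exact hA this
  refine (Polynomial.finite_setOfPred_isRoot hne).subset fun e he => ?_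
  simpa [Polynomial.IsRoot] using he

end PertP

theorem spert : SPert := by
  intro ι _ m t h p
  classical
  let k : ι → ℝ := fun i => ((Fintype.equivFin ι i : ℕ) : ℝ)
  have hk : Function.Injective k := by
    intro i j hij
    have h1 : ((Fintype.equivFin ι i : ℕ)) = (Fintype.equivFin ι j : ℕ) := by
      exact Nat.cast_injective (R := ℝ) hij
    exact (Fintype.equivFin ι).injective (Fin.ext h1)
  let q : ℝ → ι → ℝ × ℝ := fun e i => ((p i).1 + e * k i, (p i).2 + e * k i ^ 2)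
  have hq : Continuous q := by
    refine continuous_pi fun i => ?_
    fun_prop
  have hfin : {e : ℝ | ¬ GP (q e)}.Finite := by
    have hsub : {e : ℝ | ¬ GP (q e)} ⊆ ⋃ z : ι × ι × ι, ⋃ _ : z.1 ≠ z.2.1 ∧ z.1 ≠ z.2.2 ∧
        z.2.1 ≠ z.2.2, {e : ℝ | D (q e z.1) (q e z.2.1) (q e z.2.2) = 0} := by
      intro e he
      simp only [GP, mem_ofPred_eq, not_forall, not_not] at he
      obtain ⟨i, j, l, h1, h2, h3, h4⟩ := he
      exact mem_iUnion.2 ⟨(i, j, l), mem_iUnion.2 ⟨⟨h1, h2, h3⟩, h4⟩⟩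
    refine Finite.subset (finite_iUnion fun z => finite_iUnion fun hz => ?_) hsub
    obtain ⟨i, j, l⟩ := z
    obtain ⟨h1, h2, h3⟩ := hz
    have hA : (k j - k i) * (k l - k i) * (k l - k j) ≠ 0 :=
      mul_ne_zero (mul_ne_zero (sub_ne_zero.2 (hk.ne (Ne.symm h1)))
        (sub_ne_zero.2 (hk.ne (Ne.symm h2)))) (sub_ne_zero.2 (hk.ne (Ne.symm h3)))
    refine (PertP.finite_quad (B := ((p j).1 - (p i).1) * (k l ^ 2 - k i ^ 2) +
      (k j - k i) * ((p l).2 - (p i).2) - ((p j).2 - (p i).2) * (k l - k i) -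
      (k j ^ 2 - k i ^ 2) * ((p l).1 - (p i).1)) (C := D (p i) (p j) (p l)) hA).subset
      fun e he => ?_
    have he : D (q e i) (q e j) (q e l) = 0 := he
    simp only [D, q] at he
    simp only [mem_ofPred_eq, D]
    linear_combination he
  have hd : Dense {e : ℝ | ¬ GP (q e)}ᶜ := hfin.countable.dense_compl ℝ
  have hc : IsClosed (q ⁻¹' {p | Good m t p}) := (PertP.isClosed_good m t).preimage hq
  have h0 : (0 : ℝ) ∈ q ⁻¹' {p | Good m t p} := by
    refine hc.closure_subset (closure_mono ?_ (hd 0))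
    intro e he
    exact h (q e) (not_not.1 he)
  have e0 : q 0 = p := by
    funext i
    simp [q]
  rw [mem_preimage, e0] at h0
  exact h0

end Pool.Agent.P.MP_daa8d5_co.Pl
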