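import Pool.Agent.P.MP_daa8d5_co.Pl.Stm

set_option autoImplicit false

namespace Pool.Agent.P.MP_daa8d5_co.Pl

open Set

namespace RunP

/-- The least slope through `(0, α)` on a nonempty set of left points. -/
theorem low {ι : Type} [Fintype ι] (q : ι → ℝ × ℝ) (α : ℝ) (S : Set {i // (q i).1 < 0})
    (hS : S.Nonempty) : ∃ c0 ∈ S, S.ncard ≤
      {c | (q c).1 < 0 ∧ (q c).2 - α ≤ ((q c0.1).2 - α) / (q c0.1).1 * (q c).1}.ncard := by
  obtain ⟨c0, hc0, hmin⟩ :=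
    Set.exists_min_image S (fun c => ((q c.1).2 - α) / (q c.1).1) (toFinite S) hS
  refine ⟨c0, hc0, ?_⟩
  rw [← Set.ncard_image_of_injective S Subtype.val_injective]
  refine Set.ncard_le_ncard ?_
  rintro _ ⟨c, hc, rfl⟩
  refine ⟨c.2, ?_⟩
  have h1 : ((q c0.1).2 - α) / (q c0.1).1 ≤ ((q c.1).2 - α) / (q c.1).1 := hmin c hc
  exact (le_div_iff_of_neg c.2).1 h1

/-- The largest slope through `(0, β)` on a nonempty set of left points. -/
theorem up {ι : Type} [Fintype ι] (q : ι → ℝ × ℝ) (β : ℝ) (S : Set {i // (q i).1 < 0})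
    (hS : S.Nonempty) : ∃ c0 ∈ S, S.ncard ≤
      {c | (q c).1 < 0 ∧ ((q c0.1).2 - β) / (q c0.1).1 * (q c).1 ≤ (q c).2 - β}.ncard := by
  obtain ⟨c0, hc0, hmax⟩ :=
    Set.exists_max_image S (fun c => ((q c.1).2 - β) / (q c.1).1) (toFinite S) hS
  refine ⟨c0, hc0, ?_⟩
  rw [← Set.ncard_image_of_injective S Subtype.val_injective]
  refine Set.ncard_le_ncard ?_
  rintro _ ⟨c, hc, rfl⟩
  refine ⟨c.2, ?_⟩
  have h1 : ((q c.1).2 - β) / (q c.1).1 ≤ ((q c0.1).2 - β) / (q c0.1).1 := hmax c hc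
  exact (div_le_iff_of_neg c.2).1 h1

/-- Counting right points inside the subtype. -/
theorem cnt {ι : Type} [Fintype ι] (Rs : Set ι) (P : ι → Prop) (B : Set {i // i ∈ Rs})
    (h : ∀ y (hy : y ∈ Rs), P y → (⟨y, hy⟩ : {i // i ∈ Rs}) ∈ B) :
    {y | y ∈ Rs ∧ P y}.ncard ≤ B.ncard := by
  rw [← Set.ncard_image_of_injective B Subtype.val_injective]
  refine Set.ncard_le_ncard ?_
  rintro y ⟨hy, hP⟩
  exact ⟨⟨y, hy⟩, h y hy hP, rfl⟩

theorem slope_chain {s s' x x' a a' : ℝ} (hx : 0 ≤ x) (hx' : 0 ≤ x') (h : a < s * x)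
    (h' : a' < s' * x') : a' < s * x' ∨ a < s' * x := by
  rcases le_total s s' with hs | hs
  · exact Or.inr (h.trans_le (mul_le_mul_of_nonneg_right hs hx))
  · exact Or.inl (h'.trans_le (mul_le_mul_of_nonneg_right hs hx'))

theorem slope_chain' {s s' x x' a a' : ℝ} (hx : 0 ≤ x) (hx' : 0 ≤ x') (h : s * x ≤ a)
    (h' : s' * x' ≤ a') : s * x' ≤ a' ∨ s' * x ≤ a := by
  rcases le_total s s' with hs | hs
  · exact Or.inl ((mul_le_mul_of_nonneg_right hs hx').trans h')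
  · exact Or.inr ((mul_le_mul_of_nonneg_right hs hx).trans h)

end RunP

open RunP

theorem srun (h1 : SComb) (h2 : SHall) : SRun := by
  classical
  intro ι _ m q Rs α β hT hU
  obtain ⟨hH1, hH2⟩ := h2 ι m q Rs α β hT
  obtain ⟨hαβ, -, hm, hR, -⟩ := hT
  let V : Type := {i // (q i).1 < 0}
  let R : Type := {i // i ∈ Rs}
  let h : V → R → ℝ := fun v y => ht (q v.1) (q y.1)
  have hlt : ∀ (v : V) (y : R) (c : ℝ),
      h v y < c ↔ (q y.1).2 - c < ((q v.1).2 - c) / (q v.1).1 * (q y.1).1 :=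
    fun v y c => ht_lt_iff v.2 (hR _ y.2) c
  have hle : ∀ (v : V) (y : R) (c : ℝ),
      h v y ≤ c ↔ (q y.1).2 - c ≤ ((q v.1).2 - c) / (q v.1).1 * (q y.1).1 :=
    fun v y c => ht_le_iff v.2 (hR _ y.2) c
  have hge : ∀ (v : V) (y : R) (c : ℝ),
      c ≤ h v y ↔ ((q v.1).2 - c) / (q v.1).1 * (q y.1).1 ≤ (q y.1).2 - c :=
    fun v y c => le_ht_iff v.2 (hR _ y.2) c
  have hall1 : ∀ S : Set V, S.ncard ≤ {y : R | ∃ c ∈ S, α ≤ h c y}.ncard := by
    intro S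
    rcases S.eq_empty_or_nonempty with rfl | hS
    · simp
    obtain ⟨c0, hc0, hc⟩ := low q α S hS
    refine hc.trans ((hH1 _).trans (cnt Rs _ _ fun y hy hP => ?_))
    exact ⟨c0, hc0, (hge c0 ⟨y, hy⟩ α).2 hP⟩
  have hall2 : ∀ S : Set V, S.ncard ≤ {y : R | ∃ c ∈ S, h c y ≤ β}.ncard := by
    intro S
    rcases S.eq_empty_or_nonempty with rfl | hS
    · simp
    obtain ⟨c0, hc0, hc⟩ := up q β S hS
    refine hc.trans ((hH2 _).trans (cnt Rs _ _ fun y hy hP => ?_))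
    exact ⟨c0, hc0, (hle c0 ⟨y, hy⟩ β).2 hP⟩
  have huh : UH (fun (v : V) (y : R) => h v y ≤ β) (fun (v : V) (y : R) => α ≤ h v y) := by
    intro S S' z hz hz'
    rcases S.eq_empty_or_nonempty with rfl | hS
    · rw [Set.ncard_empty, zero_add]
      exact (hall1 S').trans (Set.ncard_le_ncard fun y hy => Or.inr hy)
    rcases S'.eq_empty_or_nonempty with rfl | hS'
    · rw [Set.ncard_empty, add_zero]
      exact (hall2 S).trans (Set.ncard_le_ncard fun y hy => Or.inl hy)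
    obtain ⟨c0, hc0, hc⟩ := up q β S hS
    obtain ⟨c1, hc1, hc'⟩ := low q α S' hS'
    have e0 := not_le.1 (mt (hle c0 z β).2 (hz c0 hc0))
    have e1 := not_le.1 (mt (hge c1 z α).2 (hz' c1 hc1))
    refine (add_le_add hc hc').trans ((hU _ _ z.1 z.2 e0 e1).trans (cnt Rs _ _ fun y hy hP => ?_))
    rcases hP with hP | hP
    · exact Or.inl ⟨c0, hc0, (hle c0 ⟨y, hy⟩ β).2 hP⟩
    · exact Or.inr ⟨c1, hc1, (hge c1 ⟨y, hy⟩ α).2 hP⟩
  have ch1 : ∀ c : ℝ, Chain fun (v : V) (y : R) => h v y < c := by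
    intro c v v' y y' a1 a2
    rw [hlt] at a1 a2
    exact (slope_chain (hR _ y.2) (hR _ y'.2) a1 a2).imp (hlt v y' c).2 (hlt v' y c).2
  have ch2 : Chain fun (v : V) (y : R) => α ≤ h v y := by
    intro v v' y y' a1 a2
    rw [hge] at a1 a2
    exact (slope_chain' (hR _ y.2) (hR _ y'.2) a1 a2).imp (hge v y' α).2 (hge v' y α).2
  obtain ⟨c, hβc, o', T', a1, a2, a3⟩ := h1 V R h α β hαβ ch1 ch2 hall1 huh
  let o : ι → Option ι := fun i => if hi : i ∈ Rs then (o' ⟨i, hi⟩).map Subtype.val else none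
  have ho : ∀ y : R, o y.1 = (o' y).map Subtype.val := fun y => by
    exact dif_pos y.2
  refine ⟨c, hβc, o, Subtype.val '' T', ⟨?_, ?_⟩, ?_⟩
  · rintro _ ⟨v, hv, rfl⟩
    obtain ⟨y, y', b1, b2, b3, b4⟩ := a1 v hv
    exact ⟨v.2, y.1, y.2, y'.1, y'.2, by rw [ho, b1]; rfl, by rw [ho, b2]; rfl, b3, b4⟩
  · intro v hv hvT
    obtain ⟨y, b1, b2, b3⟩ := a2 ⟨v, hv⟩ fun hc => hvT ⟨_, hc, rfl⟩
    exact ⟨y.1, y.2, by rw [ho, b1]; rfl, b2, b3⟩
  · rcases a3 with a3 | ⟨a3, w, hw⟩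
    · left
      have eR : Fintype.card R = Rs.ncard := by
        rw [← Nat.card_eq_fintype_card]; exact Nat.card_coe_set_eq Rs
      have eV : Fintype.card V = {i | (q i).1 < 0}.ncard := by
        rw [← Nat.card_eq_fintype_card]; exact Nat.card_coe_set_eq {i | (q i).1 < 0}
      rw [Set.ncard_image_of_injective T' Subtype.val_injective]
      omega
    · exact Or.inr ⟨a3, w.1, w.2, by rw [ho, hw]; rfl⟩

end Pool.Agent.P.MP_daa8d5_co.Pl
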