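import Pool.Agent.P.MP_daa8d5_co.Pl.Stm

set_option autoImplicit false

namespace Pool.Agent.P.MP_daa8d5_co.Pl

namespace StarP

theorem cover {ι : Type} [Fintype ι] {m : ℕ} (hc : 2 * m ≤ Fintype.card ι + 1) {P Q : ι → Prop}
    (h : ∀ i, P i ∨ Q i) (h1 : {i | P i}.ncard < m) (h2 : {i | Q i}.ncard < m) : False := by
  have e1 : (Set.univ : Set ι) ⊆ {i | P i} ∪ {i | Q i} := fun i _ => h i
  have e2 := Set.ncard_le_ncard e1
  have e3 := Set.ncard_union_le {i | P i} {i | Q i}
  rw [Set.ncard_univ, Nat.card_eq_fintype_card] at e2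
  omega

theorem lt_of_imp {ι : Type} [Fintype ι] {m : ℕ} {P Q : ι → Prop} (h : ∀ i, P i → Q i)
    (h2 : {i | Q i}.ncard < m) : {i | P i}.ncard < m :=
  lt_of_le_of_lt (Set.ncard_le_ncard fun i hi => h i hi) h2

theorem rot {ι : Type} {m : ℕ} {p : ι → ℝ × ℝ} {a b c : ℝ × ℝ} (h : Anti m p a b c) :
    Anti m p b c a := by
  refine ⟨?_, h.2.2.1, h.2.2.2, h.2.1⟩
  have := h.1
  simp only [D] at this ⊢
  linarith

theorem core {ι : Type} [Fintype ι] {m : ℕ} (q : ι → ℝ × ℝ) (hc : 2 * m ≤ Fintype.card ι + 1)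
    (u w : ℝ × ℝ) (hw : 0 < ‖w‖) (h3 : {i | (q i).1 < 0}.ncard < m)
    (h1 : {i | (q i).2 < 1 + (q i).1}.ncard < m) (h2 : {i | 0 < (q i).2}.ncard < m)
    (hmax : ∀ a b c, Anti m q a b c → ‖(b.1 - a.1) • u + (b.2 - a.2) • w‖ ≤ ‖w‖) :
    HF m q 0 1 := by
  intro κ μ C e1 e2 hF
  simp only [mul_zero, zero_add, mul_one] at e1 e2
  unfold Few at hF
  by_cases c1 : 0 < κ ∧ 0 < μ + κ
  · obtain ⟨k1, k2⟩ := c1
    set s := -C / κ with hs
    set r := -(μ + C) / (μ + κ) with hr
    have s0 : 0 < s := div_pos (by linarith) k1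
    have r0 : 0 < r := div_pos (by linarith) k2
    have s1 : s * κ = -C := by rw [hs]; field_simp
    have r1 : r * (μ + κ) = -(μ + C) := by rw [hr]; field_simp
    have hA : Anti m q (-1, 0) (s, 0) (r, 1 + r) := by
      refine ⟨?_, lt_of_imp (fun i hi => ?_) h2, lt_of_imp (fun i hi => ?_) hF,
        lt_of_imp (fun i hi => ?_) h1⟩
      · simp only [D]; nlinarith
      · simp only [D] at hi; nlinarith
      · simp only [D] at hi
        have : κ * ((r - s) * ((q i).2 - 0) - (1 + r - 0) * ((q i).1 - s)) =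
            -(1 + r) * (κ * (q i).1 + μ * (q i).2 + C) := by
          linear_combination (1 + r - (q i).2) * s1 + (q i).2 * r1
        nlinarith [mul_pos k1 hi]
      · simp only [D] at hi; nlinarith
    have m1 := hmax _ _ _ hA
    have m2 := hmax _ _ _ (rot hA)
    have m3 := hmax _ _ _ (rot (rot hA))
    simp only at m1 m2 m3
    set x := (s - -1) • u + ((0 : ℝ) - 0) • w with hx
    set y := (r - s) • u + (1 + r - 0) • w with hy
    set z := (-1 - r) • u + (0 - (1 + r)) • w with hz
    rcases le_total r s with hrs | hrs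
    · have e : ((1 + r) * (1 + s)) • w = (1 + r) • y + (r - s) • z := by
        simp only [hy, hz]; module
      have := norm_add_le ((1 + r) • y) ((r - s) • z)
      rw [← e, norm_smul, norm_smul, norm_smul, Real.norm_eq_abs, Real.norm_eq_abs,
        Real.norm_eq_abs, abs_of_pos (by positivity), abs_of_pos (by positivity),
        abs_of_nonpos (by linarith)] at this
      have a1 := mul_le_mul_of_nonneg_left m2 (show 0 ≤ 1 + r by linarith)
      have a2 := mul_le_mul_of_nonneg_left m3 (show 0 ≤ -(r - s) by linarith)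
      nlinarith [mul_pos (mul_pos r0 (show 0 < 1 + s by linarith)) hw]
    · have e : ((1 + r) * (1 + s)) • w = (1 + s) • y + (s - r) • x := by
        simp only [hy, hx]; module
      have := norm_add_le ((1 + s) • y) ((s - r) • x)
      rw [← e, norm_smul, norm_smul, norm_smul, Real.norm_eq_abs, Real.norm_eq_abs,
        Real.norm_eq_abs, abs_of_pos (by positivity), abs_of_pos (by positivity),
        abs_of_nonpos (by linarith)] at this
      have a1 := mul_le_mul_of_nonneg_left m2 (show 0 ≤ 1 + s by linarith)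
      have a2 := mul_le_mul_of_nonneg_left m1 (show 0 ≤ -(s - r) by linarith)
      nlinarith [mul_pos (mul_pos s0 (show 0 < 1 + r by linarith)) hw]
  by_cases c2 : κ ≤ 0 ∧ 0 < μ
  · obtain ⟨k1, k2⟩ := c2
    rcases k1.eq_or_lt with k1 | k1
    · refine cover hc (fun i => ?_) hF h2
      by_contra hn
      push Not at hn
      rw [k1] at hn
      nlinarith [hn.1, hn.2]
    set s := -C / κ with hs
    set r := -C / μ with hr
    have s0 : s < 0 := div_neg_of_pos_of_neg (by linarith) k1
    have r0 : 1 < r := by rw [hr, lt_div_iff₀ k2]; linarith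
    have s1 : s * κ = -C := by rw [hs]; field_simp [k1.ne]
    have r1 : r * μ = -C := by rw [hr]; field_simp
    have hA : Anti m q (0, 0) (0, r) (s, 0) := by
      refine ⟨?_, lt_of_imp (fun i hi => ?_) h3, lt_of_imp (fun i hi => ?_) hF,
        lt_of_imp (fun i hi => ?_) h2⟩
      · simp only [D]; nlinarith
      · simp only [D] at hi; nlinarith
      · simp only [D] at hi
        have : -κ * ((s - 0) * ((q i).2 - r) - (0 - r) * ((q i).1 - 0)) =
            -r * (κ * (q i).1 + μ * (q i).2 + C) := by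
          linear_combination (r - (q i).2) * s1 + (q i).2 * r1
        nlinarith [mul_pos (show 0 < -κ by linarith) hi]
      · simp only [D] at hi; nlinarith
    have m1 := hmax _ _ _ hA
    simp only [sub_zero, zero_smul, zero_add, norm_smul, Real.norm_eq_abs] at m1
    rw [abs_of_pos (by linarith)] at m1
    nlinarith
  by_cases c3 : μ + κ ≤ 0 ∧ μ < 0
  · obtain ⟨k1, k2⟩ := c3
    rcases k1.eq_or_lt with k1 | k1
    · refine cover hc (fun i => ?_) hF h1
      by_contra hn
      push Not at hn
      have : κ = -μ := by linarith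
      rw [this] at hn
      nlinarith [hn.1, hn.2]
    set s := -C / μ with hs
    set r := -(μ + C) / (μ + κ) with hr
    have s0 : s < 0 := div_neg_of_pos_of_neg (by linarith) k2
    have r0 : r < 0 := div_neg_of_pos_of_neg (by linarith) k1
    have s1 : s * μ = -C := by rw [hs]; field_simp [k2.ne]
    have r1 : r * (μ + κ) = -(μ + C) := by rw [hr]; field_simp [k1.ne]
    have hA : Anti m q (0, s) (0, 1) (r, 1 + r) := by
      refine ⟨?_, lt_of_imp (fun i hi => ?_) h3, lt_of_imp (fun i hi => ?_) h1,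
        lt_of_imp (fun i hi => ?_) hF⟩
      · simp only [D]; nlinarith
      · simp only [D] at hi; nlinarith
      · simp only [D] at hi; nlinarith
      · simp only [D] at hi
        have : -μ * ((0 - r) * ((q i).2 - (1 + r)) - (s - (1 + r)) * ((q i).1 - r)) =
            r * (κ * (q i).1 + μ * (q i).2 + C) := by
          linear_combination ((q i).1 - r) * s1 - (q i).1 * r1
        nlinarith [mul_pos (show 0 < -μ by linarith) hi]
    have m1 := hmax _ _ _ hA
    simp only [sub_zero, zero_smul, zero_add, norm_smul, Real.norm_eq_abs] at m1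
    rw [abs_of_pos (by linarith)] at m1
    nlinarith
  have k1 : κ ≤ 0 := by
    by_contra hn
    push Not at hn c1 c3
    have := c1 hn
    have := c3 this
    linarith
  have k2 : μ = 0 := by
    push Not at c2 c3
    have := c2 k1
    have := c3 (by linarith)
    linarith
  refine cover hc (fun i => ?_) hF h3
  by_contra hn
  push Not at hn
  rw [k2] at hn
  nlinarith [hn.1, hn.2]

end StarP

open StarP in
theorem sstar : SStar := by
  intro ι _ m p a b c hc hA hmax
  have hD := hA.1
  have hδ : (a.1 - c.1) * (b.2 - a.2) - (a.2 - c.2) * (b.1 - a.1) = D a b c := by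
    simp only [D]; ring
  obtain ⟨a1, b1, c1, a2, b2, c2, hd, g1, g2⟩ := G_inv (a1 := a.1 - c.1) (b1 := b.1 - a.1)
    (c1 := a.1) (a2 := a.2 - c.2) (b2 := b.2 - a.2) (c2 := a.2) (by rw [hδ]; exact hD.ne')
  set F := G (a.1 - c.1) (b.1 - a.1) a.1 (a.2 - c.2) (b.2 - a.2) a.2 with hFdef
  set q : ι → ℝ × ℝ := fun i => G a1 b1 c1 a2 b2 c2 (p i) with hq
  have hp : ∀ i, F (q i) = p i := fun i => g2 (p i)
  have hDF : ∀ x y z, D (F x) (F y) (F z) = D a b c * D x y z := fun x y z => by
    rw [hFdef, D_G, hδ]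
  have fa : F (0, 0) = a := by ext <;> simp [hFdef, G]
  have fb : F (0, 1) = b := by ext <;> simp [hFdef, G]
  have fc : F (-1, 0) = c := by ext <;> simp [hFdef, G]
  have h3 : {i | (q i).1 < 0}.ncard < m := by
    refine lt_of_imp (fun i hi => ?_) hA.2.1
    rw [← hp i, ← fa, ← fb, hDF]
    apply mul_pos hD
    simp only [D]; linarith
  have h1 : {i | (q i).2 < 1 + (q i).1}.ncard < m := by
    refine lt_of_imp (fun i hi => ?_) hA.2.2.1
    rw [← hp i, ← fc, ← fb, hDF]
    apply mul_pos hD
    simp only [D]; linarith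
  have h2 : {i | 0 < (q i).2}.ncard < m := by
    refine lt_of_imp (fun i hi => ?_) hA.2.2.2
    rw [← hp i, ← fc, ← fa, hDF]
    apply mul_pos hD
    simp only [D]; linarith
  refine ⟨a1, b1, c1, a2, b2, c2, ?_, h3, h1, h2, ?_⟩
  · rw [hd, hδ]; exact inv_ne_zero hD.ne'
  refine core q hc (a - c) (b - a) ?_ h3 h1 h2 fun x y z hxyz => ?_
  · rw [norm_pos_iff, sub_ne_zero]
    rintro rfl
    simp [D] at hD
  · have : Anti m p (F x) (F y) (F z) := by
      refine ⟨?_, lt_of_imp (fun i hi => ?_) hxyz.2.1, lt_of_imp (fun i hi => ?_) hxyz.2.2.1,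
        lt_of_imp (fun i hi => ?_) hxyz.2.2.2⟩
      · rw [hDF]; exact mul_pos hD hxyz.1
      all_goals
        rw [← hp i, hDF] at hi
        exact (mul_pos_iff_of_pos_left hD).1 hi
    have h := hmax _ _ _ this
    convert h using 2
    ext <;> simp [hFdef, G] <;> ring

end Pool.Agent.P.MP_daa8d5_co.Pl
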