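import Pool.Agent.P.MP_daa8d5_co.Pl.Stm

set_option autoImplicit false

namespace Pool.Agent.P.MP_daa8d5_co.Pl

open Set

namespace ThinAP

theorem count {ι : Type} [Fintype ι] {m : ℕ} {q : ι → ℝ × ℝ} (hq : GP q) {a b c : ℝ}
    (hab : a ≠ 0 ∨ b ≠ 0) (hV : {i | (q i).1 < 0}.ncard + 1 = m) {o : ι → Option ι}
    (hy : ∀ v, (q v).1 < 0 → ∃ y, 0 < (q y).1 ∧ o y = some v ∧ b * ht (q v) (q y) + c ≤ 0)
    {u w : ι} (hu : (q u).1 = 0) (hu' : a * (q u).1 + b * (q u).2 + c < 0) (hw : 0 < (q w).1)
    (hw' : a * (q w).1 + b * (q w).2 + c < 0) (how : o w = none) :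
    m ≤ {i | a * (q i).1 + b * (q i).2 + c < 0}.ncard := by
  classical
  choose! y hy1 hy2 hy3 using hy
  let φ : ι → ℝ := fun i => a * (q i).1 + b * (q i).2 + c
  let V : Set ι := {i | (q i).1 < 0}
  let B : Set ι := {v | (q v).1 < 0 ∧ φ v = 0 ∧ φ (y v) = 0}
  let H : Set ι := {i | φ i < 0}
  have hB : B.ncard ≤ 1 := by
    rw [Set.ncard_le_one_iff (toFinite _)]
    intro v v' hv hv'
    by_contra hne
    refine hq.line hab hne (k := y v) ?_ ?_ hv.2.1 hv'.2.1 hv.2.2
    · intro e
      have := hy1 v hv.1
      rw [← e] at this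
      exact lt_asymm hv.1 this
    · intro e
      have := hy1 v hv.1
      rw [← e] at this
      exact lt_asymm hv'.1 this
  let g : ι → ι := fun v => if φ v < 0 then v else y v
  have hg : ∀ v ∈ V \ B, g v ∈ H \ {u, w} := by
    rintro v ⟨hv, hvB⟩
    have hv : (q v).1 < 0 := hv
    by_cases h : φ v < 0
    · simp only [g, if_pos h]
      refine ⟨h, ?_⟩
      rintro (e | e)
      · rw [e, hu] at hv
        exact lt_irrefl _ hv
      · rw [e] at hv
        exact lt_asymm hv hw
    · simp only [g, if_neg h]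
      obtain ⟨s, -, s1, s0, e1, e2⟩ := ht_comb hv (hy1 v hv).le
      have s0 := s0 (hy1 v hv)
      have h3 := hy3 v hv
      have key : s * φ v + (1 - s) * φ (y v) ≤ 0 := by
        have : s * φ v + (1 - s) * φ (y v) = b * ht (q v) (q (y v)) + c := by
          simp only [φ]
          linear_combination a * e1 + b * e2
        rwa [this]
      have h4 : 0 ≤ φ v := not_lt.1 h
      refine ⟨?_, ?_⟩
      · by_contra hn
        have h5 : 0 ≤ φ (y v) := not_lt.1 hn
        have h6 : 0 ≤ s * φ v := mul_nonneg s0.le h4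
        have h7 : 0 ≤ (1 - s) * φ (y v) := mul_nonneg (by linarith) h5
        have h8 : s * φ v = 0 := by linarith
        have h9 : (1 - s) * φ (y v) = 0 := by linarith
        exact hvB ⟨hv, (mul_eq_zero.1 h8).resolve_left s0.ne',
          (mul_eq_zero.1 h9).resolve_left (by linarith)⟩
      · rintro (e | e)
        · have := hy1 v hv
          rw [e, hu] at this
          exact lt_irrefl _ this
        · have := hy2 v hv
          rw [show y v = w from e, how] at this
          exact absurd this (by simp)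
  have hinj : InjOn g (V \ B) := by
    rintro v ⟨hv, -⟩ v' ⟨hv', -⟩ e
    have hv : (q v).1 < 0 := hv
    have hv' : (q v').1 < 0 := hv'
    by_cases h : φ v < 0 <;> by_cases h' : φ v' < 0
    · simpa only [g, if_pos h, if_pos h'] using e
    · simp only [g, if_pos h, if_neg h'] at e
      have := hy1 v' hv'
      rw [← e] at this
      exact absurd this (not_lt.2 hv.le)
    · simp only [g, if_neg h, if_pos h'] at e
      have := hy1 v hv
      rw [e] at this
      exact absurd this (not_lt.2 hv'.le)
    · simp only [g, if_neg h, if_neg h'] at e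
      have h1 := hy2 v hv
      rw [e, hy2 v' hv'] at h1
      exact (Option.some.inj h1).symm
  have h1 : (V \ B).ncard ≤ (H \ {u, w}).ncard := Set.ncard_le_ncard_of_injOn g hg hinj
  have h2 : V.ncard ≤ (V \ B).ncard + B.ncard := Set.ncard_le_ncard_sdiff_add_ncard V B
  have huw : u ≠ w := fun e => by
    rw [← e, hu] at hw
    exact lt_irrefl _ hw
  have h3 : (H \ {u, w}).ncard + ({u, w} : Set ι).ncard = H.ncard :=
    Set.ncard_sdiff_add_ncard_of_subset (by
      rintro i (e | e)
      · rw [e]
        exact hu'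
      · rw [show i = w from e]
        exact hw')
  rw [Set.ncard_pair huw] at h3
  change V.ncard + 1 = m at hV
  change m ≤ H.ncard
  omega

end ThinAP

open ThinAP in
theorem sthinA (h1 : SSpec) (h2 : SRun) (h3 : SAsm2) (h4 : SAnc) (h5 : SUA) : SThinA := by
  intro ι _ m t q hq ht htm hc hV hH1 hH2 hF
  have hC : HC m q 0 1 := hF.hc zero_le_one
  rcases (h1 ι m q 0 1 hq (by omega) zero_le_one hC hV).1 with ⟨x, x0, x1, x2⟩ |
    ⟨hV', o1, o2, a1, a2, b1, b2, hax⟩
  · refine h4 ι (Fin 3) m t q x ![-1, 0, 1] ![1, -1, 0] ![-1, 0, 0] hq ht htm hc ?_ ?_ ?_ ?_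
    · intro k
      fin_cases k <;> simp
    · intro y
      by_contra hn
      push Not at hn
      have e0 := hn 0
      have e1 := hn 1
      have e2 := hn 2
      simp at e0 e1 e2
      linarith
    · intro k
      fin_cases k <;> simp <;> linarith
    · intro k
      fin_cases k
      · refine lt_of_le_of_lt (Set.ncard_le_ncard fun i hi => ?_) hH1
        simp at hi ⊢
        linarith
      · refine lt_of_le_of_lt (Set.ncard_le_ncard fun i hi => ?_) hH2
        simpa using hi
      · refine lt_of_le_of_lt (Set.ncard_le_ncard fun i hi => ?_) hV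
        simpa using hi
  have h12 : o1 ≠ o2 := fun e => by
    rw [e] at b1
    linarith
  have hT : Thin m q {i | 0 < (q i).1} 0 1 := by
    refine ⟨zero_le_one, hC, hV', fun i hi => le_of_lt hi, fun i hi => not_lt.1 hi, ?_, ?_⟩
    · refine (Set.ncard_le_ncard (t := {o2}) fun i hi => ?_).trans (Set.ncard_singleton o2).le
      rcases hax i hi.2.1 with e | e
      · have := hi.2.2
        rw [e] at this
        linarith
      · exact e
    · refine (Set.ncard_le_ncard (t := {o1}) fun i hi => ?_).trans (Set.ncard_singleton o1).le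
      rcases hax i hi.2.1 with e | e
      · exact e
      · have := hi.2.2
        rw [e] at this
        linarith
  have hR : {i | 0 < (q i).1}.ncard + 2 = m + t := by
    have e1 := Set.ncard_add_ncard_compl {i | 0 < (q i).1}
    have e2 : {i | 0 < (q i).1}ᶜ = {i | (q i).1 < 0} ∪ {o1, o2} := by
      ext i
      simp only [mem_compl_iff, mem_ofPred_eq, not_lt, mem_union, mem_insert_iff,
        mem_singleton_iff]
      constructor
      · intro h
        exact h.lt_or_eq.imp_right (hax i)
      · rintro (h | h | h)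
        · exact h.le
        · rw [h, a1]
        · rw [h, a2]
    rw [e2, Set.ncard_union_eq (by
      rw [Set.disjoint_right]
      rintro i (h | h) hi
      · rw [h] at hi
        exact absurd hi (not_lt.2 a1.ge)
      · rw [show i = o2 from h] at hi
        exact absurd hi (not_lt.2 a2.ge)), Set.ncard_pair h12, Nat.card_eq_fintype_card] at e1
    omega
  rcases h5 ι m t q hq ht htm hc hT (fun i hi => by
    rcases hax i hi with e | e <;> rw [e]
    · exact Or.inl b1
    · exact Or.inr b2) hH1 hH2 with hU | hG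
  swap
  · exact hG
  obtain ⟨c, hc1, o, T, hA, hcard | ⟨rfl, w, hw, how⟩⟩ := h2 ι m q _ 0 1 hT hU
  · exact h3 ι m t q _ 0 c o T o1 o2 hV' (fun i hi => le_of_lt hi) (not_lt.2 a1.le)
      (not_lt.2 a2.le) h12 a1 a2 b1.le (by linarith) (by linarith) hA (by omega)
  exfalso
  have hw : 0 < (q w).1 := hw
  by_cases hw1 : (q w).2 < 1 + (q w).1
  · have := count (a := -1) (b := 1) (c := -1) (o := o) hq (Or.inr one_ne_zero) hV' (fun v hv => by
      by_cases hv' : v ∈ T
      · obtain ⟨-, y, hy, -, -, e, -, e', -⟩ := hA.1 v hv'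
        exact ⟨y, hy, e, by linarith⟩
      · obtain ⟨y, hy, e, -, e'⟩ := hA.2 v hv hv'
        exact ⟨y, hy, e, by linarith⟩) a1 (by linarith) hw (by linarith) how
    refine absurd (this.trans (Set.ncard_le_ncard fun i hi => ?_)) (not_le.2 hH1)
    have hi : -1 * (q i).1 + 1 * (q i).2 + -1 < 0 := hi
    change (q i).2 < 1 + (q i).1
    linarith
  · have := count (a := 0) (b := -1) (c := 0) (o := o) hq (Or.inr (by norm_num)) hV'
      (fun v hv => by
      by_cases hv' : v ∈ T
      · obtain ⟨-, -, -, y, hy, -, e, -, e'⟩ := hA.1 v hv'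
        exact ⟨y, hy, e, by linarith⟩
      · obtain ⟨y, hy, e, e', -⟩ := hA.2 v hv hv'
        exact ⟨y, hy, e, by linarith⟩) a2 (by linarith) hw (by linarith) how
    refine absurd (this.trans (Set.ncard_le_ncard fun i hi => ?_)) (not_le.2 hH2)
    have hi : 0 * (q i).1 + -1 * (q i).2 + 0 < 0 := hi
    change 0 < (q i).2
    linarith

end Pool.Agent.P.MP_daa8d5_co.Pl
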