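import Pool.Agent.P.MP_daa8d5_co.Pl.Stm

set_option autoImplicit false

namespace Pool.Agent.P.MP_daa8d5_co.Pl

open Set

namespace ThinDP

theorem us_of_thin (h1 : SHall) {ι : Type} [Fintype ι] {m : ℕ} {q : ι → ℝ × ℝ} {Rs : Set ι}
    (hT : Thin m q Rs 0 0) (h0 : ∀ y ∈ Rs, (q y).1 = 0 → (q y).2 ≠ 0) : US q Rs 0 0 := by
  intro σ τ z hz a1 a2
  obtain ⟨b1, b2⟩ := h1 ι m q Rs 0 0 hT
  have hz0 := hT.2.2.2.1 z hz
  have hst : σ < τ := by
    by_contra hcon
    have : τ * (q z).1 ≤ σ * (q z).1 := mul_le_mul_of_nonneg_right (not_lt.1 hcon) hz0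
    linarith
  have hdis : Disjoint {y | y ∈ Rs ∧ (q y).2 - 0 ≤ σ * (q y).1}
      {y | y ∈ Rs ∧ τ * (q y).1 ≤ (q y).2 - 0} := by
    rw [Set.disjoint_left]
    rintro y ⟨c1, c2⟩ ⟨_, c3⟩
    have c4 := hT.2.2.2.1 y c1
    have c5 : (q y).1 = 0 := by
      by_contra hne
      have : 0 < (q y).1 := lt_of_le_of_ne c4 (Ne.symm hne)
      nlinarith
    rw [c5] at c2 c3
    exact h0 y c1 c5 (by linarith)
  have hU : {y | y ∈ Rs ∧ ((q y).2 - 0 ≤ σ * (q y).1 ∨ τ * (q y).1 ≤ (q y).2 - 0)} =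
      {y | y ∈ Rs ∧ (q y).2 - 0 ≤ σ * (q y).1} ∪ {y | y ∈ Rs ∧ τ * (q y).1 ≤ (q y).2 - 0} := by
    ext y
    simp only [mem_ofPred_eq, mem_union]
    tauto
  rw [hU, Set.ncard_union_eq hdis]
  exact add_le_add (b2 σ) (b1 τ)

theorem run0 (h1 : SHall) (h3 : SRun) {ι : Type} [Fintype ι] {m t : ℕ} {q : ι → ℝ × ℝ}
    {Rs : Set ι} (htm : t < m) (hT : Thin m q Rs 0 0)
    (h0 : ∀ y ∈ Rs, (q y).1 = 0 → (q y).2 ≠ 0) :
    ∃ c : ℝ, 0 ≤ c ∧ ∃ (o : ι → Option ι) (T : Set ι), Asg q Rs 0 c o T ∧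
      (Rs.ncard + 1 ≤ m + T.ncard ∨ t ≤ T.ncard) := by
  obtain ⟨c, hc, o, T, hA, h⟩ := h3 ι m q Rs 0 0 hT (us_of_thin h1 hT h0)
  rcases h with h | ⟨rfl, -⟩
  · exact ⟨c, hc, o, T, hA, Or.inl h⟩
  · refine ⟨0, le_rfl, o, {i | (q i).1 < 0}, ⟨fun v hv => ?_, fun v hv hv' => absurd hv hv'⟩,
      Or.inr ?_⟩
    · by_cases hvT : v ∈ T
      · exact hA.1 v hvT
      · obtain ⟨y, hy, e1, e2, e3⟩ := hA.2 v hv hvT
        exact ⟨hv, y, hy, y, hy, e1, e1, e3, e2⟩
    · have := hT.2.2.1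
      omega

end ThinDP

theorem sthinD (h1 : SHall) (h2 : SSpec) (h3 : SRun) (h4 : SAsm1) (h5 : SAsm2) : SThinD := by
  intro ι _ m t q hG ht htm hc hb hF
  have hHC : HC m q 0 0 := hF.hc le_rfl
  have h3c : 3 ≤ Fintype.card ι := by omega
  obtain ⟨hs1, hs2⟩ := h2 ι m q 0 0 hG h3c le_rfl hHC hb
  have hm := hs2 rfl
  have hcompl : {i | (q i).1 < 0}.ncard + {i | 0 ≤ (q i).1}.ncard = Fintype.card ι := by
    have := Set.ncard_add_ncard_compl {i | (q i).1 < 0}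
    rw [Nat.card_eq_fintype_card] at this
    rw [← this]
    congr 2
    ext i
    simp
  rcases hs1 with ⟨o1, e1, e2, e3⟩ | ⟨-, o1, o2, e1, e2, e3, e4, e5⟩
  · have e4 : (q o1).2 = 0 := le_antisymm e3 e2
    have hsub : ∀ P : ι → Prop,
        {i | i ∉ {i | 0 ≤ (q i).1 ∧ i ≠ o1} ∧ (q i).1 = 0 ∧ P i}.ncard ≤ 1 := by
      intro P
      rw [← Set.ncard_singleton o1]
      refine Set.ncard_le_ncard (fun i hi => ?_) (Set.toFinite _)
      by_contra hne
      exact hi.1 ⟨hi.2.1.ge, hne⟩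
    have hT : Thin m q {i | 0 ≤ (q i).1 ∧ i ≠ o1} 0 0 := by
      refine ⟨le_rfl, hHC, hm, fun i hi => hi.1, fun i hi => ?_, hsub _, hsub _⟩
      by_contra hcon
      refine hi ⟨(not_le.1 hcon).le, ?_⟩
      rintro rfl
      exact hcon e1.le
    obtain ⟨c, hc0, o, T, hA, hT'⟩ := ThinDP.run0 h1 h3 htm hT (fun y hy a1 a2 =>
      hy.2 (hG.inj h3c (Prod.ext (a1.trans e1.symm) (a2.trans e4.symm))))
    have hcard : {i | 0 ≤ (q i).1}.ncard = {i | 0 ≤ (q i).1 ∧ i ≠ o1}.ncard + 1 := by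
      rw [← Set.ncard_insert_of_notMem (a := o1) (by simp)]
      congr 1
      ext i
      simp only [mem_ofPred_eq, mem_insert_iff]
      constructor
      · intro hi
        by_cases h : i = o1
        · exact Or.inl h
        · exact Or.inr ⟨hi, h⟩
      · rintro (rfl | hi)
        · exact e1.ge
        · exact hi.1
    exact h4 ι m t q _ 0 c o T o1 hm (fun i hi => hi.1) (by simp) e1 e4 hc0 hA (by omega)
  · have h12 : o1 ≠ o2 := by
      rintro rfl
      linarith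
    have hT : Thin m q {i | 0 < (q i).1} 0 0 := by
      refine ⟨le_rfl, hHC, hm, fun i hi => le_of_lt hi, fun i hi => not_lt.1 hi, ?_, ?_⟩
      · rw [← Set.ncard_singleton o2]
        refine Set.ncard_le_ncard (fun i hi => ?_) (Set.toFinite _)
        rcases e5 i hi.2.1 with rfl | rfl
        · exact absurd hi.2.2 (not_le.2 e3)
        · rfl
      · rw [← Set.ncard_singleton o1]
        refine Set.ncard_le_ncard (fun i hi => ?_) (Set.toFinite _)
        rcases e5 i hi.2.1 with rfl | rfl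
        · rfl
        · exact absurd hi.2.2 (not_le.2 e4)
    obtain ⟨c, hc0, o, T, hA, hT'⟩ := ThinDP.run0 h1 h3 htm hT (fun y hy a1 =>
      absurd a1 (ne_of_gt hy))
    have n1 : o1 ∉ {i | 0 < (q i).1} := by simp [e1]
    have n2 : o2 ∉ {i | 0 < (q i).1} := by simp [e2]
    have hcard : {i | 0 ≤ (q i).1}.ncard = {i | 0 < (q i).1}.ncard + 2 := by
      have : {i | 0 ≤ (q i).1} = insert o1 (insert o2 {i | 0 < (q i).1}) := by
        ext i
        simp only [mem_ofPred_eq, mem_insert_iff]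
        constructor
        · intro hi
          rcases hi.eq_or_lt with h | h
          · rcases e5 i h.symm with h' | h'
            · exact Or.inl h'
            · exact Or.inr (Or.inl h')
          · exact Or.inr (Or.inr h)
        · rintro (rfl | rfl | hi)
          · exact e1.ge
          · exact e2.ge
          · exact hi.le
      rw [this, Set.ncard_insert_of_notMem (by simp [h12, e1]), Set.ncard_insert_of_notMem n2]
    exact h5 ι m t q _ 0 c o T o1 o2 hm (fun i hi => le_of_lt hi) n1 n2 h12 e1 e2 e3.le e4.le hc0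
      hA (by omega)

end Pool.Agent.P.MP_daa8d5_co.Pl
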