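import Pool.Agent.P.MP_daa8d5_co.Pl.Stm

set_option autoImplicit false

namespace Pool.Agent.P.MP_daa8d5_co.Pl

namespace TriH

open Set

theorem arm {ι : Type} [Fintype ι] {m : ℕ} (hc : 2 * m ≤ Fintype.card ι + 1) {f g : ι → ℝ}
    (h1 : {i | f i < 0}.ncard < m) (h2 : {i | g i < 0}.ncard < m) : ∃ i, 0 ≤ f i ∧ 0 ≤ g i := by
  by_contra hn
  push Not at hn
  have e1 : (Set.univ : Set ι) ⊆ {i | f i < 0} ∪ {i | g i < 0} := by
    intro i _
    by_cases h : f i < 0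
    · exact Or.inl h
    · exact Or.inr (hn i (not_lt.1 h))
  have e2 := Set.ncard_le_ncard e1
  have e3 := Set.ncard_union_le {i | f i < 0} {i | g i < 0}
  rw [Set.ncard_univ, Nat.card_eq_fintype_card] at e2
  omega

theorem lt_of_imp {ι : Type} [Fintype ι] {m : ℕ} {P Q : ι → Prop} (h : ∀ i, P i → Q i)
    (h2 : {i | Q i}.ncard < m) : {i | P i}.ncard < m :=
  lt_of_le_of_lt (Set.ncard_le_ncard fun i hi => h i hi) h2

theorem pos_case {ι : Type} [Fintype ι] {m : ℕ} (p : ι → ℝ × ℝ) (a1 b1 c1 a2 b2 c2 C : ℝ)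
    (hC : 0 < C) (hδ : 0 < a1 * b2 - a2 * b1) (h1 : Few m p a1 b1 c1) (h2 : Few m p a2 b2 c2)
    (h3 : Few m p (-a1 - a2) (-b1 - b2) (-C - c1 - c2)) : ∃ a b c, Anti m p a b c := by
  obtain ⟨a1', b1', c1', a2', b2', c2', -, -, g⟩ := G_inv (c1 := c1) (c2 := c2) hδ.ne'
  set F := G a1' b1' c1' a2' b2' c2' with hF
  have key : ∀ u v x, (a1 * b2 - a2 * b1) * D (F u) (F v) x = D u v (G a1 b1 c1 a2 b2 c2 x) := by
    intro u v x
    rw [← D_G a1 b1 c1 a2 b2 c2, g, g]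
  refine ⟨F (0, 0), F (-C, 0), F (0, -C), ?_, lt_of_imp (fun i hi => ?_) h2,
    lt_of_imp (fun i hi => ?_) h3, lt_of_imp (fun i hi => ?_) h1⟩
  · have := key (0, 0) (-C, 0) (F (0, -C))
    rw [g] at this
    refine (mul_pos_iff_of_pos_left hδ).1 ?_
    rw [this]
    simp only [D]
    nlinarith
  all_goals
    have := mul_pos hδ hi
    rw [key] at this
    simp only [D, G] at this
    nlinarith

theorem of_three {ι : Type} [Fintype ι] {m : ℕ} (p : ι → ℝ × ℝ) (hc : 2 * m ≤ Fintype.card ι + 1)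
    (a1 b1 c1 a2 b2 c2 C : ℝ) (hC : 0 < C) (h1 : Few m p a1 b1 c1) (h2 : Few m p a2 b2 c2)
    (h3 : Few m p (-a1 - a2) (-b1 - b2) (-C - c1 - c2)) : ∃ a b c, Anti m p a b c := by
  obtain ⟨i1, e1, e2⟩ := arm hc h2 h3
  obtain ⟨i2, e3, e4⟩ := arm hc h1 h3
  obtain ⟨i3, e5, e6⟩ := arm hc h1 h2
  have hD := D_G a1 b1 c1 a2 b2 c2 (p i3) (p i1) (p i2)
  have hpos : 0 < D (G a1 b1 c1 a2 b2 c2 (p i3)) (G a1 b1 c1 a2 b2 c2 (p i1))
      (G a1 b1 c1 a2 b2 c2 (p i2)) := by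
    simp only [D, G]
    set u1 := a1 * (p i1).1 + b1 * (p i1).2 + c1
    set v1 := a2 * (p i1).1 + b2 * (p i1).2 + c2
    set u2 := a1 * (p i2).1 + b1 * (p i2).2 + c1
    set v2 := a2 * (p i2).1 + b2 * (p i2).2 + c2
    set u3 := a1 * (p i3).1 + b1 * (p i3).2 + c1
    set v3 := a2 * (p i3).1 + b2 * (p i3).2 + c2
    have f1 : 0 ≤ -C - u1 - v1 := by simp only [u1, v1]; linarith
    have f2 : 0 ≤ -C - u2 - v2 := by simp only [u2, v2]; linarith
    set w1 := -C - u1 - v1 with hw1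
    set w2 := -C - u2 - v2 with hw2
    have g1 : u1 = -C - v1 - w1 := by linarith
    have g2 : v2 = -C - u2 - w2 := by linarith
    rw [g1, g2]
    have : (-C - v1 - w1 - u3) * (-C - u2 - w2 - v3) - (v1 - v3) * (u2 - u3) =
        C * C + C * (u2 + w2 + v3 + v1 + w1 + u3) + v1 * w2 + v1 * v3 + w1 * u2 + w1 * w2 +
          w1 * v3 + u3 * u2 + u3 * w2 + v1 * u3 + v3 * u2 := by ring
    rw [this]
    positivity
  have hδ : a1 * b2 - a2 * b1 ≠ 0 := by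
    intro h0
    rw [hD, h0, zero_mul] at hpos
    exact lt_irrefl _ hpos
  rcases lt_or_gt_of_ne hδ with h | h
  · refine pos_case p a2 b2 c2 a1 b1 c1 C hC (by linarith) h2 h1 ?_
    convert h3 using 1 <;> ring
  · exact pos_case p a1 b1 c1 a2 b2 c2 C hC h h1 h2 h3

theorem sep {ι : Type} [Fintype ι] {m : ℕ} (p : ι → ℝ × ℝ) (hm : 0 < m)
    (hc : 2 * m ≤ Fintype.card ι + 1) (S1 S2 S3 : Set ι) (h1 : S1ᶜ.ncard < m) (h2 : S2ᶜ.ncard < m)
    (h3 : S3ᶜ.ncard < m)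
    (he : ∀ z, z ∈ convexHull ℝ (p '' S1) → z ∈ convexHull ℝ (p '' S2) →
      z ∉ convexHull ℝ (p '' S3)) : ∃ a b c, Anti m p a b c := by
  have hne : ∀ S : Set ι, Sᶜ.ncard < m → S.Nonempty := by
    intro S hS
    by_contra hn
    rw [not_nonempty_iff_eq_empty] at hn
    rw [hn, compl_empty, Set.ncard_univ, Nat.card_eq_fintype_card] at hS
    omega
  let L : ((ℝ × ℝ) × (ℝ × ℝ) × (ℝ × ℝ)) →ₗ[ℝ] ((ℝ × ℝ) × (ℝ × ℝ)) :=
    { toFun := fun x => (x.1 - x.2.2, x.2.1 - x.2.2)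
      map_add' := fun x y => by ext <;> simp <;> ring
      map_smul' := fun r x => by ext <;> simp <;> ring }
  have hL : ∀ u v w : ℝ × ℝ, L (u, v, w) = (u - w, v - w) := fun u v w => rfl
  let K := L '' (convexHull ℝ (p '' S1) ×ˢ convexHull ℝ (p '' S2) ×ˢ convexHull ℝ (p '' S3))
  have hcp : ∀ S : Set ι, IsCompact (convexHull ℝ (p '' S)) :=
    fun S => ((toFinite S).image p).isCompact_convexHull ℝ
  have hK : IsCompact K := ((hcp S1).prod ((hcp S2).prod (hcp S3))).image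
    L.continuous_of_finiteDimensional
  have hKc : Convex ℝ K := ((convex_convexHull ℝ _).prod ((convex_convexHull ℝ _).prod
    (convex_convexHull ℝ _))).linear_image L
  have h0 : (0 : (ℝ × ℝ) × (ℝ × ℝ)) ∉ K := by
    rintro ⟨⟨u, v, w⟩, ⟨hu, hv, hw⟩, h⟩
    rw [hL, Prod.mk_eq_zero, sub_eq_zero, sub_eq_zero] at h
    obtain ⟨rfl, rfl⟩ := h
    exact he _ hu hv hw
  obtain ⟨f, r, hr, hf⟩ := geometric_hahn_banach_point_closed hKc hK.isClosed h0
  rw [map_zero] at hr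
  let f1 : (ℝ × ℝ) →L[ℝ] ℝ := f.comp (ContinuousLinearMap.inl ℝ _ _)
  let f2 : (ℝ × ℝ) →L[ℝ] ℝ := f.comp (ContinuousLinearMap.inr ℝ _ _)
  have hsplit : ∀ u v : ℝ × ℝ, f (u, v) = f1 u + f2 v := by
    intro u v
    simp only [f1, f2, ContinuousLinearMap.comp_apply, ContinuousLinearMap.inl_apply,
      ContinuousLinearMap.inr_apply, ← map_add, Prod.mk_add_mk, add_zero, zero_add]
  obtain ⟨j1, k1, m1⟩ := exists_min_image S1 (fun j => f1 (p j)) (toFinite _) (hne S1 h1)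
  obtain ⟨j2, k2, m2⟩ := exists_min_image S2 (fun j => f2 (p j)) (toFinite _) (hne S2 h2)
  obtain ⟨j3, k3, m3⟩ := exists_min_image S3 (fun j => -f1 (p j) - f2 (p j)) (toFinite _)
    (hne S3 h3)
  have hpos := hf _ ⟨(p j1, p j2, p j3), ⟨subset_convexHull ℝ _ ⟨j1, k1, rfl⟩,
    subset_convexHull ℝ _ ⟨j2, k2, rfl⟩, subset_convexHull ℝ _ ⟨j3, k3, rfl⟩⟩, rfl⟩
  rw [hL, hsplit, map_sub, map_sub] at hpos
  refine of_three p hc (f1 (1, 0)) (f1 (0, 1)) (-f1 (p j1)) (f2 (1, 0)) (f2 (0, 1)) (-f2 (p j2))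
    (f1 (p j1) + f2 (p j2) + (-f1 (p j3) - f2 (p j3))) (by linarith) ?_ ?_ ?_
  · refine lt_of_le_of_lt (Set.ncard_le_ncard (t := S1ᶜ) fun i hi hS => ?_) h1
    have e1 := m1 i hS
    have e2 := clm_form f1 (p i)
    simp only [mem_ofPred_eq] at hi
    linarith
  · refine lt_of_le_of_lt (Set.ncard_le_ncard (t := S2ᶜ) fun i hi hS => ?_) h2
    have e1 := m2 i hS
    have e2 := clm_form f2 (p i)
    simp only [mem_ofPred_eq] at hi
    linarith
  · refine lt_of_le_of_lt (Set.ncard_le_ncard (t := S3ᶜ) fun i hi hS => ?_) h3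
    have e1 := m3 i hS
    have e2 := clm_form f1 (p i)
    have e3 := clm_form f2 (p i)
    simp only [mem_ofPred_eq] at hi
    linarith

end TriH

open TriH Set in
theorem stri : STri := by
  intro ι _ m p hm hc hz
  classical
  by_contra hno
  let s : Finset (Set ι) := Finset.univ.filter fun S => Sᶜ.ncard < m
  have hs : ∀ S, S ∈ s ↔ Sᶜ.ncard < m := fun S => by simp [s]
  have h3 : ∀ S1 ∈ s, ∀ S2 ∈ s, ∀ S3 ∈ s, ∃ z, z ∈ convexHull ℝ (p '' S1) ∧
      z ∈ convexHull ℝ (p '' S2) ∧ z ∈ convexHull ℝ (p '' S3) := by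
    intro S1 h1 S2 h2 S3 h3
    by_contra hn
    push Not at hn
    exact hno (sep p hm hc S1 S2 S3 ((hs _).1 h1) ((hs _).1 h2) ((hs _).1 h3) hn)
  have hu : (univ : Set ι) ∈ s := by rw [hs]; simpa using hm
  obtain ⟨z, hzz⟩ := Convex.helly_theorem' (𝕜 := ℝ) (F := fun S : Set ι => convexHull ℝ (p '' S))
    (s := s) (fun S _ => convex_convexHull ℝ _) (by
      intro I hI hcard
      have hr : Module.finrank ℝ (ℝ × ℝ) = 2 := by simp
      rw [hr] at hcard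
      have : ∃ S1 ∈ s, ∃ S2 ∈ s, ∃ S3 ∈ s, ∀ S ∈ I, S = S1 ∨ S = S2 ∨ S = S3 := by
        have : I.card = 0 ∨ I.card = 1 ∨ I.card = 2 ∨ I.card = 3 := by omega
        rcases this with h | h | h | h
        · rw [Finset.card_eq_zero] at h
          exact ⟨_, hu, _, hu, _, hu, by simp [h]⟩
        · obtain ⟨a, rfl⟩ := Finset.card_eq_one.1 h
          exact ⟨a, hI (by simp), _, hu, _, hu, by simp⟩
        · obtain ⟨a, b, -, rfl⟩ := Finset.card_eq_two.1 h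
          exact ⟨a, hI (by simp), b, hI (by simp), _, hu, by simp⟩
        · obtain ⟨a, b, c, -, -, -, rfl⟩ := Finset.card_eq_three.1 h
          exact ⟨a, hI (by simp), b, hI (by simp), c, hI (by simp), by simp⟩
      obtain ⟨S1, e1, S2, e2, S3, e3, hall⟩ := this
      obtain ⟨z, z1, z2, z3⟩ := h3 S1 e1 S2 e2 S3 e3
      refine ⟨z, mem_iInter₂.2 fun S hS => ?_⟩
      rcases hall S hS with rfl | rfl | rfl <;> assumption)
  apply hz z
  intro a b c hneg hF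
  have h1 : {i | 0 ≤ a * (p i).1 + b * (p i).2 + c} ∈ s := by
    rw [hs]
    refine lt_of_le_of_lt (Set.ncard_le_ncard fun i hi => ?_) hF
    have hi' : ¬ (0 ≤ a * (p i).1 + b * (p i).2 + c) := hi
    exact not_le.1 hi'
  have h2 := mem_iInter₂.1 hzz _ h1
  have hcv : Convex ℝ {y : ℝ × ℝ | 0 ≤ a * y.1 + b * y.2 + c} := by
    intro x hx y hy u v hu hv huv
    simp only [mem_ofPred_eq, Prod.fst_add, Prod.smul_fst, smul_eq_mul, Prod.snd_add,
      Prod.smul_snd] at hx hy ⊢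
    have : c = u * c + v * c := by rw [← add_mul, huv, one_mul]
    nlinarith [mul_nonneg hu hx, mul_nonneg hv hy]
  have h4 := convexHull_min (by rintro _ ⟨i, hi, rfl⟩; exact hi) hcv h2
  exact absurd hneg (not_lt.2 h4)

end Pool.Agent.P.MP_daa8d5_co.Pl
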