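import Pool.Agent.P.MP_daa8d5_co.Pl.Stm

set_option autoImplicit false

namespace Pool.Agent.P.MP_daa8d5_co.Pl

namespace UAP

/-- At least `k` elements of `C` have rank below `k`. -/
theorem rank_lemma {ι : Type} [Fintype ι] (C : Set ι) (g : ι → ℝ) (k : ℕ) (hk : k ≤ C.ncard) :
    k ≤ {x | x ∈ C ∧ {y | y ∈ C ∧ g y < g x}.ncard < k}.ncard := by
  classical
  by_cases hB : ∃ x, x ∈ C ∧ k ≤ {y | y ∈ C ∧ g y < g x}.ncard
  · obtain ⟨x, hx, hmin⟩ := Set.exists_min_image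
      {x | x ∈ C ∧ k ≤ {y | y ∈ C ∧ g y < g x}.ncard} g (Set.toFinite _) hB
    refine hx.2.trans (Set.ncard_le_ncard ?_)
    rintro y ⟨hy, hlt⟩
    refine ⟨hy, ?_⟩
    by_contra hc
    exact absurd (hmin y ⟨hy, not_lt.1 hc⟩) (not_le.2 hlt)
  · push Not at hB
    refine hk.trans (Set.ncard_le_ncard ?_)
    intro x hx
    exact ⟨hx, hB x hx⟩

/-- Two large subsets of a set meet. -/
theorem exists_mem_both {ι : Type} [Fintype ι] {C A B : Set ι} (hA : A ⊆ C) (hB : B ⊆ C)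
    (h : C.ncard < A.ncard + B.ncard) : ∃ x, x ∈ A ∧ x ∈ B := by
  by_contra hc
  push Not at hc
  have hd : Disjoint A B := Set.disjoint_left.2 hc
  have h1 := Set.ncard_union_eq hd
  have h2 : (A ∪ B).ncard ≤ C.ncard := Set.ncard_le_ncard (Set.union_subset hA hB)
  omega

/-- Counting the indices of a half-plane by the sign of the first coordinate. -/
theorem count_lt {ι : Type} [Fintype ι] {m k : ℕ} {H V S Z A B : Set ι} (hSV : S ⊆ V)
    (hV : V.ncard + 1 = m) (hZ : Z.ncard ≤ 1) (hB : B.ncard < k) (hk : A.ncard + k = S.ncard)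
    (hH : H ⊆ ((V \ S) ∪ Z) ∪ (A ∪ B)) : H.ncard < m := by
  have h1 : H.ncard ≤ (((V \ S) ∪ Z) ∪ (A ∪ B)).ncard := Set.ncard_le_ncard hH
  have h2 := Set.ncard_union_le ((V \ S) ∪ Z) (A ∪ B)
  have h3 := Set.ncard_union_le (V \ S) Z
  have h4 := Set.ncard_union_le A B
  have h5 := Set.ncard_sdiff_add_ncard_of_subset hSV
  omega

/-- The anchor lemma with four half-planes, two of them through the anchor. -/
theorem anc4 (h2 : SAnc) {ι : Type} [Fintype ι] {m t : ℕ} {q : ι → ℝ × ℝ} (x : ι)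
    (hq : GP q) (ht : 1 ≤ t) (htm : t < m) (hc : Fintype.card ι + 1 = 2 * m + t)
    (a0 b0 c0 a1 b1 c1 a2 b2 c2 a3 b3 c3 : ℝ) (n0 : b0 ≠ 0) (n1 : b1 ≠ 0) (n2 : b2 ≠ 0)
    (n3 : b3 ≠ 0)
    (hcov : ∀ y : ℝ × ℝ, a0 * y.1 + b0 * y.2 + c0 < 0 ∨ a1 * y.1 + b1 * y.2 + c1 < 0 ∨
      a2 * y.1 + b2 * y.2 + c2 < 0 ∨ a3 * y.1 + b3 * y.2 + c3 < 0)
    (x0 : a0 * (q x).1 + b0 * (q x).2 + c0 ≤ 0) (x1 : a1 * (q x).1 + b1 * (q x).2 + c1 ≤ 0)
    (x2 : a2 * (q x).1 + b2 * (q x).2 + c2 ≤ 0) (x3 : a3 * (q x).1 + b3 * (q x).2 + c3 ≤ 0)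
    (f0 : Few m q a0 b0 c0) (f1 : Few m q a1 b1 c1) (f2 : Few m q a2 b2 c2)
    (f3 : Few m q a3 b3 c3) : Good m t q := by
  refine h2 ι (Fin 4) m t q x ![a0, a1, a2, a3] ![b0, b1, b2, b3] ![c0, c1, c2, c3] hq ht htm hc
    ?_ ?_ ?_ ?_
  · intro k
    fin_cases k
    · exact Or.inr n0
    · exact Or.inr n1
    · exact Or.inr n2
    · exact Or.inr n3
  · intro y
    rcases hcov y with h | h | h | h
    · exact ⟨0, h⟩
    · exact ⟨1, h⟩
    · exact ⟨2, h⟩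
    · exact ⟨3, h⟩
  · intro k
    fin_cases k
    · exact x0
    · exact x1
    · exact x2
    · exact x3
  · intro k
    fin_cases k
    · exact f0
    · exact f1
    · exact f2
    · exact f3

end UAP

open UAP in
theorem sua (h1 : SHall) (h2 : SAnc) : SUA := by
  intro ι _ m t q hq ht htm hc hT _ hH1 hH2
  by_cases hU : US q {i | 0 < (q i).1} 0 1
  · exact Or.inl hU
  right
  unfold US at hU
  push Not at hU
  obtain ⟨σ, τ, z, hz, hz1, hz2, hfail⟩ := hU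
  have hz0 : 0 < (q z).1 := hz
  have hστ : σ < τ := by
    by_contra hcon
    have := mul_le_mul_of_nonneg_right (not_lt.1 hcon) hz0.le
    linarith
  obtain ⟨hHm, hHp⟩ := h1 ι m q _ 0 1 hT
  have hm := hHm τ
  have hp := hHp σ
  obtain ⟨-, -, hV, -, -, hZm, hZp⟩ := hT
  set Sp := {c | (q c).1 < 0 ∧ σ * (q c).1 ≤ (q c).2 - 1} with hSp
  set Sm := {c | (q c).1 < 0 ∧ (q c).2 - 0 ≤ τ * (q c).1} with hSm
  set P := {y | y ∈ {i | 0 < (q i).1} ∧ (q y).2 - 1 ≤ σ * (q y).1} with hP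
  set Q := {y | y ∈ {i | 0 < (q i).1} ∧ τ * (q y).1 ≤ (q y).2 - 0} with hQ
  have hun : {y | y ∈ {i | 0 < (q i).1} ∧
      ((q y).2 - 1 ≤ σ * (q y).1 ∨ τ * (q y).1 ≤ (q y).2 - 0)} = P ∪ Q := by
    ext y
    simp only [hP, hQ, Set.mem_union, Set.mem_ofPred_eq]
    tauto
  rw [hun] at hfail
  have e1 := Set.ncard_union_add_ncard_inter P Q
  have e2 := Set.ncard_inter_add_ncard_sdiff_eq_ncard P Q
  have e3 := Set.ncard_inter_add_ncard_sdiff_eq_ncard Q P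
  rw [Set.inter_comm Q P] at e3
  obtain ⟨kp, hkp⟩ : ∃ k, (P \ Q).ncard + k = Sp.ncard := ⟨Sp.ncard - (P \ Q).ncard, by omega⟩
  obtain ⟨km, hkm⟩ : ∃ k, (Q \ P).ncard + k = Sm.ncard := ⟨Sm.ncard - (Q \ P).ncard, by omega⟩
  have r1 := rank_lemma (P ∩ Q) (fun i => (q i).2 - 1 - σ * (q i).1) kp (by omega)
  have r2 := rank_lemma (P ∩ Q) (fun i => τ * (q i).1 - (q i).2) km (by omega)
  obtain ⟨x, ⟨hx, hx1⟩, -, hx2⟩ := exists_mem_both (C := P ∩ Q)
    (A := {x | x ∈ P ∩ Q ∧ {y | y ∈ P ∩ Q ∧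
      (q y).2 - 1 - σ * (q y).1 < (q x).2 - 1 - σ * (q x).1}.ncard < kp})
    (B := {x | x ∈ P ∩ Q ∧ {y | y ∈ P ∩ Q ∧
      τ * (q y).1 - (q y).2 < τ * (q x).1 - (q x).2}.ncard < km})
    (fun _ h => h.1) (fun _ h => h.1) (by omega)
  clear r1 r2 e1 e2 e3 hfail hm hp hHm hHp hun hz hz0 hz1 hz2
  have hx0 : 0 < (q x).1 := hx.1.1
  have hxP : (q x).2 - 1 ≤ σ * (q x).1 := hx.1.2
  have hxQ : τ * (q x).1 ≤ (q x).2 - 0 := hx.2.2
  have fp : Few m q (-σ) 1 (σ * (q x).1 - (q x).2) := by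
    refine count_lt (V := {i | (q i).1 < 0}) (S := Sp) (fun _ h => h.1) hV hZp hx1 hkp ?_
    clear hx1 hx2 hkp hkm hV hZp hZm hH1 hH2 hc htm ht
    intro i hi
    have hi : -σ * (q i).1 + 1 * (q i).2 + (σ * (q x).1 - (q x).2) < 0 := hi
    rcases lt_trichotomy (q i).1 0 with h | h | h
    · refine Or.inl (Or.inl ⟨h, fun hs => ?_⟩)
      have := hs.2
      linarith
    · refine Or.inl (Or.inr ⟨fun h' => ?_, h, ?_⟩)
      · exact absurd h (ne_of_gt h')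
      · rw [h] at hi
        linarith
    · have hiP : i ∈ P := ⟨h, by linarith⟩
      by_cases hiQ : i ∈ Q
      · exact Or.inr (Or.inr ⟨⟨hiP, hiQ⟩, by linarith⟩)
      · exact Or.inr (Or.inl ⟨hiP, hiQ⟩)
  have fm : Few m q τ (-1) ((q x).2 - τ * (q x).1) := by
    refine count_lt (V := {i | (q i).1 < 0}) (S := Sm) (fun _ h => h.1) hV hZm hx2 hkm ?_
    clear hx1 hx2 hkp hkm hV hZp hZm hH1 hH2 hc htm ht
    intro i hi
    have hi : τ * (q i).1 + -1 * (q i).2 + ((q x).2 - τ * (q x).1) < 0 := hi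
    rcases lt_trichotomy (q i).1 0 with h | h | h
    · refine Or.inl (Or.inl ⟨h, fun hs => ?_⟩)
      have := hs.2
      linarith
    · refine Or.inl (Or.inr ⟨fun h' => ?_, h, ?_⟩)
      · exact absurd h (ne_of_gt h')
      · rw [h] at hi
        linarith
    · have hiQ : i ∈ Q := ⟨h, by linarith⟩
      by_cases hiP : i ∈ P
      · exact Or.inr (Or.inr ⟨⟨hiP, hiQ⟩, by linarith⟩)
      · exact Or.inr (Or.inl ⟨hiQ, hiP⟩)
  clear hx1 hx2 hkp hkm hV hZp hZm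
  have f1 : Few m q (-1) 1 (-1) := by
    refine lt_of_le_of_lt (Set.ncard_le_ncard fun i hi => ?_) hH1
    have hi : -1 * (q i).1 + 1 * (q i).2 + -1 < 0 := hi
    show (q i).2 < 1 + (q i).1
    linarith
  have f2 : Few m q 0 (-1) 0 := by
    refine lt_of_le_of_lt (Set.ncard_le_ncard fun i hi => ?_) hH2
    have hi : 0 * (q i).1 + -1 * (q i).2 + 0 < 0 := hi
    show 0 < (q i).2
    linarith
  clear hH1 hH2
  have key : ∀ y : ℝ × ℝ, ¬ (-σ * y.1 + 1 * y.2 + (σ * (q x).1 - (q x).2) < 0) →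
      ¬ (τ * y.1 + -1 * y.2 + ((q x).2 - τ * (q x).1) < 0) → (q x).1 ≤ y.1 := by
    intro y k1 k2
    by_contra hcon
    have := mul_pos (sub_pos.2 hστ) (sub_pos.2 (not_le.1 hcon))
    have k1 := not_lt.1 k1
    have k2 := not_lt.1 k2
    nlinarith
  have n1 : (1 : ℝ) ≠ 0 := one_ne_zero
  have n2 : (-1 : ℝ) ≠ 0 := by norm_num
  by_cases c1 : 1 + (q x).1 < (q x).2
  · have hσ : 0 ≤ σ := by
      by_contra hcon
      have := mul_neg_of_neg_of_pos (not_le.1 hcon) hx0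
      linarith
    refine anc4 h2 x hq ht htm hc _ _ _ _ _ _ _ _ _ _ _ _ n1 n2 n2 n2 (fun y => ?_) (by linarith)
      (by linarith) (by linarith) (by linarith) fp fm f2 f2
    by_contra hcon
    simp only [not_or] at hcon
    obtain ⟨k1, k2, k3, -⟩ := hcon
    have := mul_nonneg hσ (sub_nonneg.2 (key y k1 k2))
    have k1 := not_lt.1 k1
    have k3 := not_lt.1 k3
    nlinarith
  by_cases c2 : (q x).2 < 0
  · have hτ : τ ≤ 0 := by
      by_contra hcon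
      have := mul_pos (not_le.1 hcon) hx0
      linarith
    refine anc4 h2 x hq ht htm hc _ _ _ _ _ _ _ _ _ _ _ _ n1 n2 n1 n1 (fun y => ?_) (by linarith)
      (by linarith) (by linarith) (by linarith) fp fm f1 f1
    by_contra hcon
    simp only [not_or] at hcon
    obtain ⟨k1, k2, k3, -⟩ := hcon
    have k4 := key y k1 k2
    have := mul_nonneg (neg_nonneg.2 hτ) (sub_nonneg.2 k4)
    have k2 := not_lt.1 k2
    have k3 := not_lt.1 k3
    nlinarith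
  · have c1 := not_lt.1 c1
    have c2 := not_lt.1 c2
    refine anc4 h2 x hq ht htm hc _ _ _ _ _ _ _ _ _ _ _ _ n1 n2 n1 n2 (fun y => ?_) (by linarith)
      (by linarith) (by linarith) (by linarith) fp fm f1 f2
    by_contra hcon
    simp only [not_or] at hcon
    obtain ⟨k1, k2, k3, k4⟩ := hcon
    have k5 := key y k1 k2
    have k3 := not_lt.1 k3
    have k4 := not_lt.1 k4
    linarith

end Pool.Agent.P.MP_daa8d5_co.Pl
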