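import Pool.Agent.P.MP_daa8d5_co.Pl.Comb
import Pool.Agent.P.MP_daa8d5_co.Pl.Hall
import Pool.Agent.P.MP_daa8d5_co.Pl.Run
import Pool.Agent.P.MP_daa8d5_co.Pl.Asm
import Pool.Agent.P.MP_daa8d5_co.Pl.Fill
import Pool.Agent.P.MP_daa8d5_co.Pl.AncE
import Pool.Agent.P.MP_daa8d5_co.Pl.Anc
import Pool.Agent.P.MP_daa8d5_co.Pl.ThinD
import Pool.Agent.P.MP_daa8d5_co.Pl.UA
import Pool.Agent.P.MP_daa8d5_co.Pl.ThinA
import Pool.Agent.P.MP_daa8d5_co.Pl.One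
import Pool.Agent.P.MP_daa8d5_co.Pl.TriH
import Pool.Agent.P.MP_daa8d5_co.Pl.Max
import Pool.Agent.P.MP_daa8d5_co.Pl.StarH
import Pool.Agent.P.MP_daa8d5_co.Pl.Deep
import Pool.Agent.P.MP_daa8d5_co.Pl.Pert

set_option autoImplicit false

namespace Pool.Agent.P.MP_daa8d5_co.Pl

theorem sall_holds : SAll :=
  sall (sthinD shall sspec (srun scomb shall) sasm1 sasm2)
    (sthinA sspec (srun scomb shall) sasm2 (sanc (sancE sfill)) (sua shall (sanc (sancE sfill))))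
    (sone sasm2) stri smax sstar sdeep spert

end Pool.Agent.P.MP_daa8d5_co.Pl
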