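import Pool.Agent.P.MP_daa8d5_co.Pl.Defs

set_option autoImplicit false

namespace Pool.Agent.P.MP_daa8d5_co.Pl

open Set

theorem good_of_parts {ι E J : Type} [AddCommGroup E] [Module ℝ E] [Fintype J] {m t : ℕ}
    (p : ι → E) (o : ι → Option J) (T : Set J) (hJ : Fintype.card J = m) (hm : 0 < m)
    (hT : t ≤ T.ncard)
    (h : ∀ j, ∃ y ∈ convexHull ℝ (p '' {i | o i = some j}),
      ∀ k ∈ T, y ∈ convexHull ℝ (p '' {i | o i = some k})) : Good m t p := by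
  classical
  let e : J ≃ Fin m := Fintype.equivFinOfCardEq hJ
  obtain ⟨T', hT', hc⟩ := Set.exists_subset_card_eq hT
  let c : ι → Fin m := fun i => (o i).elim ⟨0, hm⟩ e
  have hsub : ∀ j : J, p '' {i | o i = some j} ⊆ p '' {i | c i = e j} := by
    intro j
    apply image_mono
    intro i hi
    have hi : o i = some j := hi
    simp [c, hi]
  refine ⟨c, (T'.toFinite.toFinset).map e.toEmbedding, ?_, fun j => ?_⟩
  · rw [Finset.card_map, ← hc, Set.ncard_eq_toFinset_card T' T'.toFinite]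
  · obtain ⟨y, hy, hk⟩ := h (e.symm j)
    refine ⟨y, ?_, fun k hk' => ?_⟩
    · have := convexHull_mono (𝕜 := ℝ) (hsub (e.symm j)) hy
      simpa using this
    · obtain ⟨k', hk1, rfl⟩ := Finset.mem_map.1 hk'
      exact convexHull_mono (𝕜 := ℝ) (hsub k') (hk k' (hT' ((Set.Finite.mem_toFinset _).1 hk1)))

theorem axis_mem {K : Set (ℝ × ℝ)} (hK : Convex ℝ K) {u v w : ℝ} (hu : ((0 : ℝ), u) ∈ K)
    (hw : ((0 : ℝ), w) ∈ K) (h1 : u ≤ v) (h2 : v ≤ w) : ((0 : ℝ), v) ∈ K := by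
  rcases eq_or_lt_of_le (h1.trans h2) with h | h
  · have : v = u := le_antisymm (h ▸ h2) h1
    rwa [this]
  · have hp : 0 < w - u := sub_pos.2 h
    have := hK hu hw (a := (w - v) / (w - u)) (b := (v - u) / (w - u))
      (div_nonneg (by linarith) hp.le) (div_nonneg (by linarith) hp.le) (by field_simp; ring)
    convert this using 1
    ext
    · simp
    · simp only [Prod.smul_mk, smul_eq_mul, Prod.mk_add_mk]
      field_simp
      ring

/-- Parts meeting the vertical axis: members of `T` cover `[a, b]`, the others meet `[a, b]`. -/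
theorem good_line {ι J : Type} [Fintype J] {m t : ℕ} (q : ι → ℝ × ℝ) (o : ι → Option J)
    (T : Set J) (hJ : Fintype.card J = m) (hm : 0 < m) (hT : t ≤ T.ncard) {a b : ℝ} (hab : a ≤ b)
    (h1 : ∀ j ∈ T, ∃ u w : ℝ, u ≤ a ∧ b ≤ w ∧
      ((0 : ℝ), u) ∈ convexHull ℝ (q '' {i | o i = some j}) ∧
      ((0 : ℝ), w) ∈ convexHull ℝ (q '' {i | o i = some j}))
    (h2 : ∀ j, j ∉ T → ∃ v : ℝ, a ≤ v ∧ v ≤ b ∧
      ((0 : ℝ), v) ∈ convexHull ℝ (q '' {i | o i = some j})) : Good m t q := by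
  refine good_of_parts q o T hJ hm hT fun j => ?_
  have key : ∀ v : ℝ, a ≤ v → v ≤ b → ∀ k ∈ T,
      ((0 : ℝ), v) ∈ convexHull ℝ (q '' {i | o i = some k}) := by
    intro v hv1 hv2 k hk
    obtain ⟨u, w, hu, hw, h3, h4⟩ := h1 k hk
    exact axis_mem (convex_convexHull ℝ _) h3 h4 (hu.trans hv1) (hv2.trans hw)
  by_cases hj : j ∈ T
  · exact ⟨_, key a le_rfl hab j hj, key a le_rfl hab⟩
  · obtain ⟨v, hv1, hv2, hv⟩ := h2 j hj
    exact ⟨_, hv, key v hv1 hv2⟩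

theorem Good.map {ι E F : Type} [AddCommGroup E] [Module ℝ E] [AddCommGroup F] [Module ℝ F]
    {m t : ℕ} {p : ι → E} (h : Good m t p) (f : E →ᵃ[ℝ] F) : Good m t (fun i => f (p i)) := by
  obtain ⟨c, T, hT, h⟩ := h
  have key : ∀ (s : Set ι) (y : E), y ∈ convexHull ℝ (p '' s) →
      f y ∈ convexHull ℝ ((fun i => f (p i)) '' s) := by
    intro s y hy
    have h1 : (fun i => f (p i)) '' s = f '' (p '' s) := by rw [image_image]
    rw [h1, ← AffineMap.image_convexHull]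
    exact mem_image_of_mem _ hy
  refine ⟨c, T, hT, fun j => ?_⟩
  obtain ⟨y, hy, hk⟩ := h j
  exact ⟨f y, key _ _ hy, fun k hk' => key _ _ (hk k hk')⟩

/-- `G` as an affine map. -/
def Gaff (a1 b1 c1 a2 b2 c2 : ℝ) : (ℝ × ℝ) →ᵃ[ℝ] (ℝ × ℝ) where
  toFun := G a1 b1 c1 a2 b2 c2
  linear :=
    { toFun := G a1 b1 0 a2 b2 0
      map_add' := fun x y => by ext <;> simp [G] <;> ring
      map_smul' := fun r x => by ext <;> simp [G] <;> ring }
  map_vadd' := fun x y => by ext <;> simp [G] <;> ring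

theorem Good.mapG {ι : Type} {m t : ℕ} {p : ι → ℝ × ℝ} (h : Good m t p) (a1 b1 c1 a2 b2 c2 : ℝ) :
    Good m t (fun i => G a1 b1 c1 a2 b2 c2 (p i)) :=
  h.map (Gaff a1 b1 c1 a2 b2 c2)

theorem D_G (a1 b1 c1 a2 b2 c2 : ℝ) (x y z : ℝ × ℝ) :
    D (G a1 b1 c1 a2 b2 c2 x) (G a1 b1 c1 a2 b2 c2 y) (G a1 b1 c1 a2 b2 c2 z) =
      (a1 * b2 - a2 * b1) * D x y z := by
  simp only [D, G]; ring

theorem G_inv {a1 b1 c1 a2 b2 c2 : ℝ} (h : a1 * b2 - a2 * b1 ≠ 0) :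
    ∃ a1' b1' c1' a2' b2' c2' : ℝ, a1' * b2' - a2' * b1' = (a1 * b2 - a2 * b1)⁻¹ ∧
      (∀ x, G a1' b1' c1' a2' b2' c2' (G a1 b1 c1 a2 b2 c2 x) = x) ∧
      ∀ x, G a1 b1 c1 a2 b2 c2 (G a1' b1' c1' a2' b2' c2' x) = x := by
  set δ := a1 * b2 - a2 * b1 with hδ
  refine ⟨b2 / δ, -b1 / δ, (b1 * c2 - b2 * c1) / δ, -a2 / δ, a1 / δ, (a2 * c1 - a1 * c2) / δ,
    ?_, fun x => ?_, fun x => ?_⟩
  · field_simp; rw [hδ]; ring
  · ext <;> simp only [G] <;> field_simp <;> rw [hδ] <;> ring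
  · ext <;> simp only [G] <;> field_simp <;> rw [hδ] <;> ring

theorem Good.of_G {ι : Type} {m t : ℕ} {p : ι → ℝ × ℝ} {a1 b1 c1 a2 b2 c2 : ℝ}
    (hδ : a1 * b2 - a2 * b1 ≠ 0) (h : Good m t (fun i => G a1 b1 c1 a2 b2 c2 (p i))) :
    Good m t p := by
  obtain ⟨a1', b1', c1', a2', b2', c2', -, h1, -⟩ := G_inv (c1 := c1) (c2 := c2) hδ
  have := h.mapG a1' b1' c1' a2' b2' c2'
  simpa only [h1] using this

theorem GP.mapG {ι : Type} {p : ι → ℝ × ℝ} (h : GP p) {a1 b1 c1 a2 b2 c2 : ℝ}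
    (hδ : a1 * b2 - a2 * b1 ≠ 0) : GP (fun i => G a1 b1 c1 a2 b2 c2 (p i)) := by
  intro i j k h1 h2 h3
  simp only [D_G]
  exact mul_ne_zero hδ (h i j k h1 h2 h3)

theorem GP.inj {ι : Type} [Fintype ι] {p : ι → ℝ × ℝ} (h : GP p) (h3 : 3 ≤ Fintype.card ι) :
    Function.Injective p := by
  classical
  intro i j hij
  by_contra hne
  obtain ⟨k, hk⟩ : ∃ k, k ∉ ({i, j} : Finset ι) := by
    by_contra hc
    push Not at hc
    have h1 : (Finset.univ : Finset ι) ⊆ {i, j} := fun k _ => hc k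
    have h2 := Finset.card_le_card h1
    have h4 : ({i, j} : Finset ι).card ≤ 2 := Finset.card_le_two
    rw [Finset.card_univ] at h2
    omega
  simp only [Finset.mem_insert, Finset.mem_singleton, not_or] at hk
  apply h i j k hne (Ne.symm hk.1) (Ne.symm hk.2)
  simp [D, hij]

theorem GP.line {ι : Type} {p : ι → ℝ × ℝ} (h : GP p) {a b c : ℝ} (hab : a ≠ 0 ∨ b ≠ 0)
    {i j k : ι} (h1 : i ≠ j) (h2 : i ≠ k) (h3 : j ≠ k)
    (hi : a * (p i).1 + b * (p i).2 + c = 0) (hj : a * (p j).1 + b * (p j).2 + c = 0)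
    (hk : a * (p k).1 + b * (p k).2 + c = 0) : False := by
  apply h i j k h1 h2 h3
  have e1 : a * D (p i) (p j) (p k) = 0 := by
    simp only [D]
    linear_combination ((p k).2 - (p i).2) * (hj - hi) - ((p j).2 - (p i).2) * (hk - hi)
  have e2 : b * D (p i) (p j) (p k) = 0 := by
    simp only [D]
    linear_combination ((p j).1 - (p i).1) * (hk - hi) - ((p k).1 - (p i).1) * (hj - hi)
  rcases hab with hab | hab
  · exact (mul_eq_zero.1 e1).resolve_left hab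
  · exact (mul_eq_zero.1 e2).resolve_left hab

theorem GP.line_ncard {ι : Type} [Fintype ι] {p : ι → ℝ × ℝ} (h : GP p) {a b c : ℝ}
    (hab : a ≠ 0 ∨ b ≠ 0) : {i | a * (p i).1 + b * (p i).2 + c = 0}.ncard ≤ 2 := by
  by_contra hc
  push Not at hc
  obtain ⟨i, j, k, hi, hj, hk, h1, h2, h3⟩ := (Set.two_lt_ncard_iff (toFinite _)).1 hc
  exact h.line hab h1 h2 h3 hi hj hk

theorem clm_form (f : (ℝ × ℝ) →L[ℝ] ℝ) (x : ℝ × ℝ) : f x = f (1, 0) * x.1 + f (0, 1) * x.2 := by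
  have : x = x.1 • ((1 : ℝ), (0 : ℝ)) + x.2 • ((0 : ℝ), (1 : ℝ)) := by ext <;> simp
  conv_lhs => rw [this]
  rw [map_add, map_smul, map_smul]
  simp [mul_comm]

theorem HF.hc {ι : Type} [Fintype ι] {m : ℕ} {p : ι → ℝ × ℝ} {α β : ℝ} (hαβ : α ≤ β)
    (h : HF m p α β) : HC m p α β := by
  intro K hK hc
  by_contra hno
  push Not at hno
  let C : Set (ℝ × ℝ) := convexHull ℝ (p '' {i | p i ∈ K})
  have hCK : C ⊆ K := convexHull_min (by rintro _ ⟨i, hi, rfl⟩; exact hi) hK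
  have hCc : IsCompact C := ((toFinite _).image p).isCompact_convexHull ℝ
  let S : Set (ℝ × ℝ) := ({0} : Set ℝ) ×ˢ Icc α β
  have hSc : IsCompact S := isCompact_singleton.prod isCompact_Icc
  have hSv : Convex ℝ S := (convex_singleton 0).prod (convex_Icc α β)
  have hd : Disjoint S C := by
    rw [Set.disjoint_left]
    rintro ⟨x, y⟩ ⟨hx, hy⟩ hC
    have hx : x = 0 := hx
    subst hx
    exact hno y hy.1 hy.2 (hCK hC)
  obtain ⟨f, u, v, h1, huv, h2⟩ :=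
    geometric_hahn_banach_compact_closed hSv hSc (convex_convexHull ℝ _) hCc.isClosed hd
  have e1 := h1 (0, α) ⟨rfl, le_rfl, hαβ⟩
  have e2 := h1 (0, β) ⟨rfl, hαβ, le_rfl⟩
  rw [clm_form] at e1 e2
  simp only [mul_zero, zero_add] at e1 e2
  apply h (f (1, 0)) (f (0, 1)) (-u) (by linarith) (by linarith)
  refine lt_of_le_of_lt (Set.ncard_le_ncard ?_) hc
  intro i hi hiK
  have := h2 (p i) (subset_convexHull ℝ _ ⟨i, hiK, rfl⟩)
  rw [clm_form] at this
  have hi : f (1, 0) * (p i).1 + f (0, 1) * (p i).2 + -u < 0 := hi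
  linarith

theorem isClosed_few {ι X : Type} [Fintype ι] [TopologicalSpace X] (m : ℕ) (g : ι → X → ℝ)
    (hg : ∀ i, Continuous (g i)) : IsClosed {x | {i | g i x < 0}.ncard < m} := by
  have : {x | {i | g i x < 0}.ncard < m} =
      ⋃ S ∈ {S : Set ι | S.ncard < m}, ⋂ i ∈ Sᶜ, {x | 0 ≤ g i x} := by
    ext x
    simp only [mem_ofPred_eq, mem_iUnion, mem_iInter, mem_compl_iff, exists_prop]
    constructor
    · intro h
      exact ⟨_, h, fun i hi => not_lt.1 hi⟩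
    · rintro ⟨S, hS, h⟩
      refine lt_of_le_of_lt (Set.ncard_le_ncard fun i hi => ?_) hS
      by_contra hn
      exact absurd (h i hn) (not_le.2 hi)
  rw [this]
  exact (toFinite _).isClosed_biUnion fun S _ =>
    isClosed_biInter fun i _ => isClosed_le continuous_const (hg i)

theorem ht_le_iff {v y : ℝ × ℝ} (hv : v.1 < 0) (hy : 0 ≤ y.1) (c : ℝ) :
    ht v y ≤ c ↔ y.2 - c ≤ (v.2 - c) / v.1 * y.1 := by
  have hp : 0 < y.1 - v.1 := by linarith
  have hv' : 0 < -v.1 := by linarith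
  have e : (v.2 - c) / v.1 * y.1 = (c - v.2) * y.1 / (-v.1) := by
    have := hv.ne
    field_simp
    ring
  rw [ht, div_le_iff₀ hp, e, le_div_iff₀ hv']
  constructor <;> intro h <;> nlinarith

theorem le_ht_iff {v y : ℝ × ℝ} (hv : v.1 < 0) (hy : 0 ≤ y.1) (c : ℝ) :
    c ≤ ht v y ↔ (v.2 - c) / v.1 * y.1 ≤ y.2 - c := by
  have hp : 0 < y.1 - v.1 := by linarith
  have hv' : 0 < -v.1 := by linarith
  have e : (v.2 - c) / v.1 * y.1 = (c - v.2) * y.1 / (-v.1) := by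
    have := hv.ne
    field_simp
    ring
  rw [ht, le_div_iff₀ hp, e, div_le_iff₀ hv']
  constructor <;> intro h <;> nlinarith

theorem ht_lt_iff {v y : ℝ × ℝ} (hv : v.1 < 0) (hy : 0 ≤ y.1) (c : ℝ) :
    ht v y < c ↔ y.2 - c < (v.2 - c) / v.1 * y.1 := by
  rw [← not_le, le_ht_iff hv hy, not_le]

/-- The crossing point is a convex combination of the two ends, with a positive weight on `y`. -/
theorem ht_comb {v y : ℝ × ℝ} (hv : v.1 < 0) (hy : 0 ≤ y.1) :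
    ∃ s : ℝ, 0 ≤ s ∧ s < 1 ∧ (0 < y.1 → 0 < s) ∧ s * v.1 + (1 - s) * y.1 = 0 ∧
      s * v.2 + (1 - s) * y.2 = ht v y := by
  have hp : 0 < y.1 - v.1 := by linarith
  refine ⟨y.1 / (y.1 - v.1), div_nonneg hy hp.le, (div_lt_one hp).2 (by linarith),
    fun h => div_pos h hp, ?_, ?_⟩
  · field_simp; ring
  · rw [ht]; field_simp; ring

theorem ht_mem {K : Set (ℝ × ℝ)} (hK : Convex ℝ K) {v y : ℝ × ℝ} (hv : v.1 < 0) (hy : 0 ≤ y.1)
    (h1 : v ∈ K) (h2 : y ∈ K) : ((0 : ℝ), ht v y) ∈ K := by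
  obtain ⟨s, s0, s1, -, e1, e2⟩ := ht_comb hv hy
  have := hK h1 h2 (a := s) (b := 1 - s) s0 (by linarith) (by ring)
  convert this using 1
  ext
  · simpa using e1.symm
  · simpa using e2.symm

end Pool.Agent.P.MP_daa8d5_co.Pl
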