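import Pool.Agent.P.MP_daa8d5_co.Pl.Comb2

set_option autoImplicit false

namespace Pool.Agent.P.MP_daa8d5_co.Pl

namespace CombP

variable {V R : Type}

/-- Between two chain relations one can remove one pair at a time. -/
theorem removable [Fintype V] [Fintype R] {A A0 : V → R → Prop} (cA : Chain A) (c0 : Chain A0)
    (hsub : ∀ v y, A0 v y → A v y) (hne : ∃ v y, A v y ∧ ¬ A0 v y) :
    ∃ u y1, A u y1 ∧ ¬ A0 u y1 ∧ Chain fun v y => A v y ∧ ¬ (v = u ∧ y = y1) := by
  obtain ⟨v0, y0, h0⟩ := hne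
  obtain ⟨⟨u, y1⟩, ⟨h1, h2⟩, hmin⟩ := (InvImage.wf
    (fun p : V × R => {z | A p.1 z}.ncard + {v | A v p.2}.ncard) wellFounded_lt).has_min
    {p : V × R | A p.1 p.2 ∧ ¬ A0 p.1 p.2} ⟨(v0, y0), h0⟩
  simp only at h1 h2
  have key : ∀ v y, A u y → A v y1 → A v y := by
    intro v y a1 a2
    by_contra hn
    by_cases b1 : A0 u y
    · by_cases b2 : A0 v y1
      · rcases c0 u v y y1 b1 b2 with h | h
        · exact h2 h
        · exact hn (hsub v y h)
      · apply hmin (v, y1) ⟨a2, b2⟩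
        show {z | A v z}.ncard + _ < {z | A u z}.ncard + _
        apply Nat.add_lt_add_right
        exact Set.ncard_lt_ncard ⟨fun z hz => (cA u v y z a1 hz).resolve_right hn,
          fun h => hn (h a1)⟩
    · apply hmin (u, y) ⟨a1, b1⟩
      show _ + {v | A v y}.ncard < _ + {v | A v y1}.ncard
      apply Nat.add_lt_add_left
      exact Set.ncard_lt_ncard ⟨fun v' hv' => (cA v' v y y1 hv' a2).resolve_right hn,
        fun h => hn (h a2)⟩
  refine ⟨u, y1, h1, h2, ?_⟩
  rintro v v' y y' ⟨a1, a2⟩ ⟨b1, b2⟩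
  have := cA v v' y y' a1 b1
  have k1 := key v' y
  have k2 := key v y'
  grind

theorem count [Fintype V] [Fintype R] {A B : V → R → Prop} {o : R → Option V} (hN : Norm A B o)
    (hf : ∀ y, o y ≠ none) :
    Fintype.card R ≤ Fintype.card V + {v | ∃ p q, Core A B o v p q}.ncard := by
  have key : ∀ v, ∃ p q : R, (∀ z, o z = some v → z = p ∨ z = q) ∧
      (p = q ∨ ∃ p q, Core A B o v p q) := by
    intro v
    rcases hN v with ⟨y, h, -⟩ | ⟨p, q, h⟩
    · exact ⟨y, y, fun z hz => Or.inl ((h z).1 hz), Or.inl rfl⟩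
    · exact ⟨p, q, fun z hz => (h.1 z).1 hz, Or.inr ⟨p, q, h⟩⟩
  choose a b h1 h2 using key
  have hsub : (Set.univ : Set R) ⊆ a '' Set.univ ∪ b '' {v | ∃ p q, Core A B o v p q} := by
    intro z _
    rcases ho : o z with _ | v
    · exact absurd ho (hf z)
    rcases h1 v z ho with h | h
    · exact Or.inl ⟨v, trivial, h.symm⟩
    rcases h2 v with h' | h'
    · exact Or.inl ⟨v, trivial, h'.trans h.symm⟩
    · exact Or.inr ⟨v, h', h.symm⟩
  have e1 := Set.ncard_le_ncard hsub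
  have e2 := Set.ncard_union_le (a '' Set.univ) (b '' {v | ∃ p q, Core A B o v p q})
  have e3 := Set.ncard_image_le (f := a) (s := Set.univ)
  have e4 := Set.ncard_image_le (f := b) (s := {v | ∃ p q, Core A B o v p q})
  simp only [Set.ncard_univ, Nat.card_eq_fintype_card] at e1 e3
  omega

theorem output [Fintype V] [Fintype R] (h : V → R → ℝ) (α c : ℝ) {A : V → R → Prop}
    {o : R → Option V} (hN : Norm A (fun v y => α ≤ h v y) o) (h1 : ∀ v y, A v y → h v y ≤ c)
    (h2 : ∀ v y, ¬ A v y → c ≤ h v y) :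
    ∃ T : Set V, (∀ v ∈ T, ∃ y y', o y = some v ∧ o y' = some v ∧ h v y ≤ α ∧ c ≤ h v y') ∧
      (∀ v, v ∉ T → ∃ y, o y = some v ∧ α ≤ h v y ∧ h v y ≤ c) ∧
      ((∀ y, o y ≠ none) → Fintype.card R ≤ Fintype.card V + T.ncard) := by
  refine ⟨{v | ∃ p q, Core A (fun v y => α ≤ h v y) o v p q}, ?_, ?_, count hN⟩
  · rintro v ⟨p, q, e0, -, e1, -, e2⟩
    exact ⟨p, q, (e0 p).2 (Or.inl rfl), (e0 q).2 (Or.inr rfl), (not_le.1 e1).le, h2 v q e2⟩
  · intro v hv
    rcases hN v with ⟨y, e0, e1, e2⟩ | hc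
    · exact ⟨y, (e0 y).2 rfl, e2, h1 v y e1⟩
    · exact absurd hc hv

end CombP

open CombP in
theorem scomb : SComb := by
  intro V R _ _ h α β hαβ cl cB hall hU
  classical
  have key : ∀ n, ∀ A : V → R → Prop, {p : V × R | A p.1 p.2}.ncard ≤ n → Chain A →
      (∀ v y, h v y ≤ β → A v y) → (∀ v y v' y', A v y → h v' y' < h v y → A v' y') →
      (∃ o, Val A (fun v y => α ≤ h v y) o) →
      ∃ c : ℝ, β ≤ c ∧ ∃ (o : R → Option V) (T : Set V),
        (∀ v ∈ T, ∃ y y', o y = some v ∧ o y' = some v ∧ h v y ≤ α ∧ c ≤ h v y') ∧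
        (∀ v, v ∉ T → ∃ y, o y = some v ∧ α ≤ h v y ∧ h v y ≤ c) ∧
        (Fintype.card R ≤ Fintype.card V + T.ncard ∨ (c = β ∧ ∃ w, o w = none)) := by
    intro n
    induction n using Nat.strong_induction_on with
    | _ n ih =>
    intro A hn cA hf hd hv
    by_cases hne : ∃ p : V × R, A p.1 p.2 ∧ β < h p.1 p.2
    · obtain ⟨p0, ⟨hp1, hp2⟩, hmax⟩ := Set.exists_max_image
        {p : V × R | A p.1 p.2 ∧ β < h p.1 p.2} (fun p => h p.1 p.2) (Set.toFinite _) hne
      set c := h p0.1 p0.2 with hc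
      have hle : ∀ v y, A v y → h v y ≤ c := by
        intro v y hA
        by_cases hb : β < h v y
        · exact hmax (v, y) ⟨hA, hb⟩
        · linarith [not_lt.1 hb]
      have hsub : ∀ v y, h v y < c → A v y := fun v y hlt => hd _ _ v y hp1 hlt
      obtain ⟨u, y1, a1, a2, cA'⟩ := removable cA (cl c) hsub ⟨p0.1, p0.2, hp1, lt_irrefl _⟩
      have a3 : c ≤ h u y1 := not_lt.1 a2
      have hf' : ∀ v y, h v y ≤ β → A v y ∧ ¬ (v = u ∧ y = y1) := by
        intro v y hb
        refine ⟨hf v y hb, ?_⟩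
        rintro ⟨rfl, rfl⟩
        linarith
      have hU' : UH (fun v y => A v y ∧ ¬ (v = u ∧ y = y1)) (fun v y => α ≤ h v y) := by
        intro S S' z b1 b2
        refine le_trans (hU S S' z (fun c' hc' hb => b1 c' hc' (hf' c' z hb)) b2) ?_
        apply Set.ncard_le_ncard _ (Set.toFinite _)
        rintro y (⟨c', hc', hb⟩ | hb)
        · exact Or.inl ⟨c', hc', hf' c' y hb⟩
        · exact Or.inr hb
      rcases step (A := A) (u := u) (y1 := y1) (fun v y => Iff.rfl) cA cA' cB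
        (fun v y => by
          by_cases hb : h v y ≤ β
          · exact Or.inl (hf' v y hb)
          · exact Or.inr (by linarith [not_le.1 hb])) hU' hv with hv' | ⟨o, hN, hfree⟩
      · refine ih _ (lt_of_lt_of_le ?_ hn) _ le_rfl cA' hf' ?_ hv'
        · exact Set.ncard_lt_ncard ⟨fun p hp => hp.1, fun hh => (@hh (u, y1) a1).2 ⟨rfl, rfl⟩⟩
        · rintro v y v' y' ⟨b1, -⟩ b2
          refine ⟨hd v y v' y' b1 b2, ?_⟩
          rintro ⟨rfl, rfl⟩
          linarith [hle v y b1]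
      · obtain ⟨T, t1, t2, t3⟩ := output h α c hN hle
          (fun v y hA => not_lt.1 fun hlt => hA (hsub v y hlt))
        exact ⟨c, hp2.le, o, T, t1, t2, Or.inl (t3 hfree)⟩
    · obtain ⟨o, ho⟩ := hv
      obtain ⟨o, hN⟩ := normalise ho
      obtain ⟨T, t1, t2, t3⟩ := output h α β hN
        (fun v y hA => not_lt.1 fun hlt => hne ⟨(v, y), hA, hlt⟩)
        (fun v y hA => (not_le.1 fun hb => hA (hf v y hb)).le)
      refine ⟨β, le_rfl, o, T, t1, t2, ?_⟩
      by_cases hfree : ∀ y, o y ≠ none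
      · exact Or.inl (t3 hfree)
      · push Not at hfree
        exact Or.inr ⟨rfl, hfree⟩
  refine key _ (fun _ _ => True) le_rfl (fun _ _ _ _ _ _ => Or.inl trivial) (fun _ _ _ => trivial)
    (fun _ _ _ _ _ _ => trivial) ?_
  obtain ⟨f, hf, hB⟩ := (Fintype.all_card_le_filter_rel_iff_exists_injective
    (fun v y => α ≤ h v y)).1 (by
      intro S
      have := hall (S : Set V)
      rw [Set.ncard_coe_finset, Set.ncard_eq_toFinset_card'] at this
      convert this using 2
      ext y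
      simp)
  let o : R → Option V := fun y => if hy : ∃ v, f v = y then some hy.choose else none
  have ho : ∀ v, o (f v) = some v := by
    intro v
    have hy : ∃ v', f v' = f v := ⟨v, rfl⟩
    simp only [o, dif_pos hy]
    rw [hf hy.choose_spec]
  exact ⟨o, fun v => ⟨⟨f v, ho v, trivial⟩, f v, ho v, hB v⟩⟩

end Pool.Agent.P.MP_daa8d5_co.Pl
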