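import Pool.Agent.P.MP_daa8d5_co.Pl.Stm

set_option autoImplicit false

namespace Pool.Agent.P.MP_daa8d5_co.Pl

namespace CombP

variable {V R : Type}

def Val (A B : V → R → Prop) (o : R → Option V) : Prop :=
  ∀ v, (∃ y, o y = some v ∧ A v y) ∧ ∃ y, o y = some v ∧ B v y

def Sing (A B : V → R → Prop) (o : R → Option V) (v : V) (y : R) : Prop :=
  (∀ z, o z = some v ↔ z = y) ∧ A v y ∧ B v y

def Core (A B : V → R → Prop) (o : R → Option V) (v : V) (p q : R) : Prop :=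
  (∀ z, o z = some v ↔ z = p ∨ z = q) ∧ A v p ∧ ¬ B v p ∧ B v q ∧ ¬ A v q

def Norm (A B : V → R → Prop) (o : R → Option V) : Prop :=
  ∀ v, (∃ y, Sing A B o v y) ∨ ∃ p q, Core A B o v p q

theorem normalise {A B : V → R → Prop} {o : R → Option V} (h : Val A B o) :
    ∃ o', Norm A B o' := by
  classical
  have key : ∀ v, ∃ p q, o p = some v ∧ o q = some v ∧
      ((p = q ∧ A v p ∧ B v p) ∨ (A v p ∧ ¬ B v p ∧ B v q ∧ ¬ A v q)) := by
    intro v
    obtain ⟨⟨a, ha, hA⟩, b, hb, hB⟩ := h v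
    by_cases h1 : A v b
    · exact ⟨b, b, hb, hb, Or.inl ⟨rfl, h1, hB⟩⟩
    by_cases h2 : B v a
    · exact ⟨a, a, ha, ha, Or.inl ⟨rfl, hA, h2⟩⟩
    exact ⟨a, b, ha, hb, Or.inr ⟨hA, h2, hB, h1⟩⟩
  choose a b ha hb hab using key
  let o' : R → Option V := fun z => (o z).bind fun v => if z = a v ∨ z = b v then some v else none
  have ho : ∀ v z, o' z = some v ↔ z = a v ∨ z = b v := by
    intro v z
    constructor
    · intro hz
      simp only [o', Option.bind_eq_some_iff] at hz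
      obtain ⟨v', -, h2⟩ := hz
      split_ifs at h2 with h3
      obtain rfl : v' = v := Option.some.inj h2
      exact h3
    · intro hz
      have : o z = some v := by
        rcases hz with rfl | rfl
        · exact ha v
        · exact hb v
      simp [o', this, hz]
  refine ⟨o', fun v => ?_⟩
  rcases hab v with ⟨h1, h2, h3⟩ | h1
  · exact Or.inl ⟨a v, fun z => by rw [ho, ← h1, or_self], h2, h3⟩
  · exact Or.inr ⟨a v, b v, ho v, h1⟩

theorem Norm.val {A B : V → R → Prop} {o : R → Option V} (h : Norm A B o) : Val A B o := by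
  intro v
  rcases h v with ⟨y, h1, h2, h3⟩ | ⟨p, q, h1, h2, -, h3, -⟩
  · exact ⟨⟨y, (h1 y).2 rfl, h2⟩, y, (h1 y).2 rfl, h3⟩
  · exact ⟨⟨p, (h1 p).2 (Or.inl rfl), h2⟩, q, (h1 q).2 (Or.inr rfl), h3⟩

/-- Reassign three left points. -/
theorem succ3 {A A' B : V → R → Prop} {o : R → Option V} {u : V} (hN : Norm A B o)
    (hA : ∀ v y, v ≠ u → A v y → A' v y) (x c : V) (a1 b1 a2 b2 a3 b3 : R)
    (h1 : A' u a1) (h2 : B u b1) (h3 : A' x a2) (h4 : B x b2) (h5 : A' c a3) (h6 : B c b3)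
    (d1 : a2 = a1 ∨ a2 = b1 ∨ b2 = a1 ∨ b2 = b1 → x = u)
    (d2 : a3 = a1 ∨ a3 = b1 ∨ b3 = a1 ∨ b3 = b1 → c = u)
    (d3 : a3 = a2 ∨ a3 = b2 ∨ b3 = a2 ∨ b3 = b2 → c = x)
    (hK : ∀ z v, z = a1 ∨ z = b1 ∨ z = a2 ∨ z = b2 ∨ z = a3 ∨ z = b3 → o z = some v →
      v = u ∨ v = x ∨ v = c) : ∃ o', Val A' B o' := by
  classical
  let o' : R → Option V := fun z => if z = a1 ∨ z = b1 then some u else
    if z = a2 ∨ z = b2 then some x else if z = a3 ∨ z = b3 then some c else o z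
  have e1 : ∀ z, z = a1 ∨ z = b1 → o' z = some u := fun z hz => by simp only [o', if_pos hz]
  have e2 : ∀ z, z = a2 ∨ z = b2 → o' z = some x := by
    intro z hz
    by_cases h : z = a1 ∨ z = b1
    · rw [e1 z h, d1 (by grind)]
    · simp only [o', if_neg h, if_pos hz]
  have e3 : ∀ z, z = a3 ∨ z = b3 → o' z = some c := by
    intro z hz
    by_cases h : z = a1 ∨ z = b1
    · rw [e1 z h, d2 (by grind)]
    by_cases h' : z = a2 ∨ z = b2
    · rw [e2 z h', d3 (by grind)]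
    · simp only [o', if_neg h, if_neg h', if_pos hz]
  refine ⟨o', fun v => ?_⟩
  by_cases hu : v = u
  · subst hu
    exact ⟨⟨a1, e1 _ (Or.inl rfl), h1⟩, b1, e1 _ (Or.inr rfl), h2⟩
  by_cases hx : v = x
  · subst hx
    exact ⟨⟨a2, e2 _ (Or.inl rfl), h3⟩, b2, e2 _ (Or.inr rfl), h4⟩
  by_cases hc : v = c
  · subst hc
    exact ⟨⟨a3, e3 _ (Or.inl rfl), h5⟩, b3, e3 _ (Or.inr rfl), h6⟩
  have e4 : ∀ z, o z = some v → o' z = some v := by
    intro z hz
    have := hK z v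
    simp only [o']
    rw [if_neg (by grind), if_neg (by grind), if_neg (by grind), hz]
  obtain ⟨⟨a, ha, hA1⟩, b, hb, hB⟩ := hN.val v
  exact ⟨⟨a, e4 a ha, hA v a hu hA1⟩, b, e4 b hb, hB⟩

/-- The exchange that moves the distinguished single. -/
theorem swap {A B : V → R → Prop} {o : R → Option V} {u x c : V} {y1 y ys w : R}
    (hN : Norm A B o) (hu : Sing A B o u y1) (hx : Sing A B o x y) (hxu : x ≠ u) (hcu : c ≠ u)
    (hcx : c ≠ x) (hys : o ys = some c) (h1 : B x ys) (h2 : A c y) (h3 : B c y) (hw : o w = none)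
    (h4 : A x w) (h5 : ¬ B x w) :
    ∃ o', Norm A B o' ∧ Sing A B o' u y1 ∧ Sing A B o' c y ∧
      ∀ z, o' z = none → o z = none ∨ (o z = some c ∧ z ≠ ys) := by
  classical
  let o' : R → Option V := fun z => if z = y then some c else if z = ys then some x else
    if o z = some c then none else if z = w ∧ ¬ A x ys then some x else o z
  have hy : o y = some x := (hx.1 y).2 rfl
  have hx1 := hx.1
  have e1 : ∀ v, v ≠ x → v ≠ c → ∀ z, o' z = some v ↔ o z = some v := by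
    intro v hvx hvc z
    simp only [o']
    split_ifs <;> grind
  have e2 : ∀ z, o' z = some c ↔ z = y := by
    intro z
    simp only [o']
    split_ifs <;> grind
  have e3 : ∀ z, o' z = some x ↔ z = ys ∨ (z = w ∧ ¬ A x ys) := by
    intro z
    simp only [o']
    split_ifs <;> grind
  have hc' : Sing A B o' c y := ⟨e2, h2, h3⟩
  refine ⟨o', fun v => ?_, ⟨fun z => by rw [e1 u hxu.symm hcu.symm, hu.1], hu.2⟩, hc', ?_⟩
  · by_cases hvc : v = c
    · subst hvc
      exact Or.inl ⟨y, hc'⟩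
    by_cases hvx : v = x
    · subst hvx
      by_cases h6 : A v ys
      · exact Or.inl ⟨ys, fun z => by rw [e3]; simp [h6], h6, h1⟩
      · exact Or.inr ⟨w, ys, fun z => by rw [e3]; simp [h6, or_comm], h4, h5, h1, h6⟩
    rcases hN v with ⟨z, hz1, hz2⟩ | ⟨p, q, hz1, hz2⟩
    · exact Or.inl ⟨z, fun z' => by rw [e1 v hvx hvc, hz1], hz2⟩
    · exact Or.inr ⟨p, q, fun z' => by rw [e1 v hvx hvc, hz1], hz2⟩
  · intro z
    simp only [o']
    split_ifs <;> grind

end CombP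

end Pool.Agent.P.MP_daa8d5_co.Pl
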