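import Pool.Agent.P.MP_daa8d5_co.Pl.Comb1

set_option autoImplicit false

namespace Pool.Agent.P.MP_daa8d5_co.Pl

namespace CombP

variable {V R : Type}

/-- The data on the distinguished single. -/
def DX (A A' B : V → R → Prop) (o : R → Option V) (u : V) (y1 : R) (X : Option (V × R)) : Prop :=
  ∀ x y, X = some (x, y) → x ≠ u ∧ Sing A B o x y ∧ A' u y ∧ B u y ∧
    ∀ z, o z = none ∨ z = y1 → ¬ B x z

/-- A released point of `W` gives a valid assignment for the smaller relation. -/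
theorem release {A A' B : V → R → Prop} {o : R → Option V} {u : V} {y1 : R} {X : Option (V × R)}
    (hN : Norm A B o) (hA : ∀ v y, v ≠ u → A v y → A' v y) (tot : ∀ v y, A' v y ∨ B v y)
    (hu : Sing A B o u y1) (hT : ∀ z, o z = none ∨ z = y1 → ¬ A' u z) (hX : DX A A' B o u y1 X)
    (c : V) (ys a3 b3 : R) (hcu : c ≠ u) (hcx : ∀ x y, X = some (x, y) → c ≠ x)
    (hys : o ys = some c) (hW : A' u ys ∨ ∃ x y, X = some (x, y) ∧ B x ys)
    (h5 : A' c a3) (h6 : B c b3) (ha : a3 ≠ ys) (hb : b3 ≠ ys)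
    (ha' : (o a3 = none ∨ a3 = y1) ∨ o a3 = some c) (hb' : (o b3 = none ∨ b3 = y1) ∨ o b3 = some c)
    (hs : (∃ z, (o z = none ∨ z = y1) ∧ z ≠ a3 ∧ z ≠ b3) ∨
      ((A' u ys → B u ys) ∧ ∀ x y, X = some (x, y) → B x ys → A' x ys)) :
    ∃ o', Val A' B o' := by
  have hy1 : o y1 = some u := (hu.1 y1).2 rfl
  by_cases h0 : A' u ys
  · rcases hs with ⟨z, hz, hz1, hz2⟩ | ⟨hs, -⟩
    · have hB : B u z := (tot u z).resolve_left (hT z hz)
      exact succ3 hN hA c c ys z a3 b3 a3 b3 h0 hB h5 h6 h5 h6 (by grind) (by grind) (by grind)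
        (by grind)
    · exact succ3 hN hA c c ys ys a3 b3 a3 b3 h0 (hs h0) h5 h6 h5 h6 (by grind) (by grind)
        (by grind) (by grind)
  · obtain ⟨x, y, hxy, hB⟩ := hW.resolve_left h0
    obtain ⟨hxu, hx, h1, h2, h3⟩ := hX x y hxy
    have hy : o y = some x := (hx.1 y).2 rfl
    have hc := hcx x y hxy
    rcases hs with ⟨z, hz, hz1, hz2⟩ | ⟨-, hs⟩
    · have hA1 : A' x z := (tot x z).resolve_right (h3 z hz)
      have := h3 z hz
      exact succ3 hN hA x c y y z ys a3 b3 h1 h2 hA1 hB h5 h6 (by grind) (by grind) (by grind)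
        (by grind)
    · exact succ3 hN hA x c y y ys ys a3 b3 h1 h2 (hs x y hxy hB) hB h5 h6 (by grind) (by grind)
        (by grind) (by grind)

/-- The progress measure. -/
noncomputable def mu (B : V → R → Prop) (X : Option (V × R)) : ℕ :=
  X.elim 0 fun x => {z | B x.1 z}.ncard + 1

theorem mu_lt [Fintype R] {B : V → R → Prop} (hB : Chain B) (X : Option (V × R)) (c : V) (y' : R)
    (hc : ∀ x y, X = some (x, y) → ∃ z, B c z ∧ ¬ B x z) : mu B X < mu B (some (c, y')) := by
  rcases X with _ | ⟨x, y⟩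
  · simp [mu]
  · obtain ⟨z, h1, h2⟩ := hc x y rfl
    simp only [mu, Option.elim, add_lt_add_iff_right]
    refine Set.ncard_lt_ncard ⟨fun z' hz' => ?_, fun h => h2 (h h1)⟩
    exact ((hB x c z' z hz' h1).resolve_left h2)

theorem pigeon [Fintype V] [Fintype R] {A' B : V → R → Prop} {o : R → Option V} {u : V} {y1 : R}
    (tot : ∀ v y, A' v y ∨ B v y) (hU : UH A' B) (W : R → Prop) (S S' : Set V) (huS : u ∈ S)
    (h1 : ∀ c ∈ S, ¬ A' c y1) (h2 : ∀ c ∈ S', ¬ B c y1) (h3 : ∀ c ∈ S, ∀ z, A' c z → W z)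
    (h4 : ∀ c ∈ S', ∀ z, B c z → W z) (h5 : ∀ z, W z → ∃ c, c ≠ u ∧ o z = some c) :
    (∃ ys c, W ys ∧ o ys = some c ∧ c ∉ S ∧ c ∉ S') ∨
      ∃ y y' c, y ≠ y' ∧ W y ∧ W y' ∧ o y = some c ∧ o y' = some c ∧ (c ∈ S ∨ c ∈ S') := by
  by_contra hcon
  push Not at hcon
  obtain ⟨n1, n2⟩ := hcon
  have e1 := hU S S' y1 h1 h2
  have e2 : {y | (∃ c ∈ S, A' c y) ∨ ∃ c ∈ S', B c y}.ncard ≤ {z | W z}.ncard := by
    apply Set.ncard_le_ncard
    · rintro y (⟨c, hc, h⟩ | ⟨c, hc, h⟩)
      · exact h3 c hc y h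
      · exact h4 c hc y h
    · exact Set.toFinite _
  have e3 : {z | W z}.ncard ≤ ((S ∪ S') \ {u}).ncard := by
    refine Set.ncard_le_ncard_of_injOn (fun z => (o z).getD u) ?_ ?_ (Set.toFinite _)
    · intro z hz
      obtain ⟨c, hc, ho⟩ := h5 z hz
      simp only [ho, Option.getD_some]
      refine ⟨?_, hc⟩
      by_contra hn
      simp only [Set.mem_union, not_or] at hn
      exact hn.2 (n1 z c hz ho hn.1)
    · intro z hz z' hz' he
      obtain ⟨c, hc, ho⟩ := h5 z hz
      obtain ⟨c', hc', ho'⟩ := h5 z' hz'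
      simp only [ho, ho', Option.getD_some] at he
      subst he
      by_contra hne
      have := n2 z z' c hne hz hz' ho ho'
      exact this.2 (n1 z c hz ho this.1)
  have e4 : ((S ∪ S') \ {u}).ncard < (S ∪ S').ncard :=
    Set.ncard_lt_ncard ⟨Set.sdiff_subset, fun h => (h (Or.inl huS)).2 rfl⟩
  have e5 := Set.ncard_union_le S S'
  omega

theorem step_aux [Fintype V] [Fintype R] {A A' B : V → R → Prop} {u : V} {y1 : R}
    (hA' : ∀ v y, A' v y ↔ A v y ∧ ¬ (v = u ∧ y = y1)) (cA : Chain A) (cA' : Chain A')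
    (cB : Chain B) (tot : ∀ v y, A' v y ∨ B v y) (hU : UH A' B) (o : R → Option V)
    (X : Option (V × R)) (hN : Norm A B o) (hu : Sing A B o u y1) (hX : DX A A' B o u y1 X) :
    ((∃ o', Val A' B o') ∨ ∃ o', Norm A B o' ∧ ∀ y, o' y ≠ none) ∨
      ∃ o' X', Norm A B o' ∧ Sing A B o' u y1 ∧ DX A A' B o' u y1 X' ∧ mu B X < mu B X' := by
  have hA : ∀ v y, v ≠ u → A v y → A' v y := fun v y h1 h2 => (hA' v y).2 ⟨h2, fun h => h1 h.1⟩
  have hAA : ∀ v y, A' v y → A v y := fun v y h => ((hA' v y).1 h).1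
  have hy1 : o y1 = some u := (hu.1 y1).2 rfl
  by_cases hf : ∀ y, o y ≠ none
  · exact Or.inl (Or.inr ⟨o, hN, hf⟩)
  push Not at hf
  obtain ⟨w, hw⟩ := hf
  have hwy : w ≠ y1 := by grind
  by_cases h0 : ∃ z, o z = none ∧ A' u z
  · obtain ⟨z, hz, hz'⟩ := h0
    exact Or.inl (Or.inl (succ3 hN hA u u z y1 z y1 z y1 hz' hu.2.2 hz' hu.2.2 hz' hu.2.2
      (by grind) (by grind) (by grind) (by grind)))
  have hT : ∀ z, o z = none ∨ z = y1 → ¬ A' u z := by
    rintro z (hz | rfl) h
    · exact h0 ⟨z, hz, h⟩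
    · exact ((hA' _ _).1 h).2 ⟨rfl, rfl⟩
  let W : R → Prop := fun z => A' u z ∨ ∃ x y, X = some (x, y) ∧ B x z
  let S : Set V := {c | ∀ z, A' c z → A' u z}
  let S' : Set V := {c | ∃ x y, X = some (x, y) ∧ ∀ z, B c z → B x z}
  have hTW : ∀ z, o z = none ∨ z = y1 → ¬ W z := by
    rintro z hz (h | ⟨x, y, hxy, h⟩)
    · exact hT z hz h
    · exact (hX x y hxy).2.2.2.2 z hz h
  have hS : ∀ c ∈ S, ∀ z, A' c z → W z := fun c hc z h => Or.inl (hc z h)
  have hS' : ∀ c ∈ S', ∀ z, B c z → W z := by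
    rintro c ⟨x, y, hxy, hc⟩ z h
    exact Or.inr ⟨x, y, hxy, hc z h⟩
  have hown : ∀ z, W z → ∃ c, c ≠ u ∧ o z = some c := by
    intro z hz
    rcases ho : o z with _ | c
    · exact absurd hz (hTW z (Or.inl ho))
    · refine ⟨c, ?_, rfl⟩
      rintro rfl
      exact hTW z (Or.inr ((hu.1 z).1 ho)) hz
  have rel := release hN hA tot hu hT hX
  rcases pigeon (o := o) tot hU W S S' (fun z h => h)
    (fun c hc h => hTW y1 (Or.inr rfl) (hS c hc y1 h))
    (fun c hc h => hTW y1 (Or.inr rfl) (hS' c hc y1 h)) hS hS' hown with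
    ⟨ys, c, hW, hys, hcS, hcS'⟩ | ⟨y, y', c, hne, hW, hW', hy, hy', hc⟩
  · -- the owner is outside
    have hcu : c ≠ u := by
      rintro rfl
      exact hcS fun z h => h
    have hcx : ∀ x y, X = some (x, y) → c ≠ x := by
      rintro x y hxy rfl
      exact hcS' ⟨c, y, hxy, fun z h => h⟩
    have hlow : ∀ z, A' u z → A' c z := by
      intro z hz
      by_contra hn
      apply hcS
      intro z' hz'
      exact (cA' u c z z' hz hz').resolve_right hn
    have hcy1 : A' c y1 := by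
      by_contra hn
      apply hcS
      intro z' hz'
      rcases cA u c y1 z' hu.2.1 (hAA _ _ hz') with h | h
      · refine (hA' _ _).2 ⟨h, fun h' => hn ?_⟩
        rw [← h'.2]; exact hz'
      · exact absurd (hA c y1 hcu h) hn
    have hbig : ∀ x y, X = some (x, y) → ∃ z, B c z ∧ ¬ B x z := by
      intro x y hxy
      by_contra hn
      push Not at hn
      exact hcS' ⟨x, y, hxy, hn⟩
    have hhigh : ∀ x y, X = some (x, y) → ∀ z, B x z → B c z := by
      intro x y hxy z hz
      obtain ⟨z', h1, h2⟩ := hbig x y hxy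
      exact (cB x c z z' hz h1).resolve_left h2
    have hysT : ¬ (o ys = none ∨ ys = y1) := fun h => hTW ys h hW
    -- the exchange
    have prog : ∀ x y, X = some (x, y) → B x ys → (∀ z, o z = none ∨ z = y1 → ¬ B c z) →
        (∀ z, o z = some c → z ≠ ys → ¬ B c z) →
        ∃ o' X', Norm A B o' ∧ Sing A B o' u y1 ∧ DX A A' B o' u y1 X' ∧ mu B X < mu B X' := by
      intro x y hxy hB hn hn'
      obtain ⟨hxu, hx, h1, h2, h3⟩ := hX x y hxy
      have hBw := h3 w (Or.inl hw)
      obtain ⟨o', e1, e2, e3, e4⟩ := swap hN hu hx hxu hcu (hcx x y hxy) hys hB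
        (hAA _ _ (hlow y h1)) (hhigh x y hxy y hx.2.2) hw
        (hAA _ _ ((tot x w).resolve_right hBw)) hBw
      refine ⟨o', some (c, y), e1, e2, ?_, mu_lt cB X c y hbig⟩
      intro x' y' hxy'
      obtain ⟨rfl, rfl⟩ := Prod.mk.inj (Option.some.inj hxy')
      refine ⟨hcu, e3, h1, h2, ?_⟩
      rintro z (hz | hz)
      · rcases e4 z hz with h | h
        · exact hn z (Or.inl h)
        · exact hn' z h.1 h.2
      · exact hn z (Or.inr hz)
    rcases hN c with ⟨y0, hc0, hcA, hcB⟩ | ⟨p, q, hc0, hp1, hp2, hq1, hq2⟩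
    · obtain rfl : ys = y0 := (hc0 ys).1 hys
      by_cases hz : ∃ z, (o z = none ∨ z = y1) ∧ B c z
      · obtain ⟨z, hz, hzB⟩ := hz
        left; left
        by_cases b1 : B c y1
        · exact rel c ys y1 y1 hcu hcx hys hW hcy1 b1 (by grind) (by grind) (by grind) (by grind)
            (Or.inl ⟨w, Or.inl hw, hwy, hwy⟩)
        have hzy : z ≠ y1 := by grind
        by_cases b2 : A' c z
        · exact rel c ys z z hcu hcx hys hW b2 hzB (by grind) (by grind) (by grind) (by grind)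
            (Or.inl ⟨y1, Or.inr rfl, hzy.symm, hzy.symm⟩)
        refine rel c ys y1 z hcu hcx hys hW hcy1 hzB (by grind) (by grind) (by grind) (by grind)
            (Or.inr ⟨fun _ => (cB u c y1 ys hu.2.2 hcB).resolve_right b1, fun x y hxy _ => ?_⟩)
        have hxz : A' x z := (tot x z).resolve_right ((hX x y hxy).2.2.2.2 z hz)
        exact (cA' x c z ys hxz (hA c ys hcu hcA)).resolve_right b2
      · push Not at hz
        right
        by_cases b1 : A' u ys
        · refine ⟨o, some (c, ys), hN, hu, ?_, mu_lt cB X c ys hbig⟩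
          intro x' y' hxy'
          obtain ⟨rfl, rfl⟩ := Prod.mk.inj (Option.some.inj hxy')
          exact ⟨hcu, ⟨hc0, hcA, hcB⟩, b1,
            (cB u c y1 ys hu.2.2 hcB).resolve_right (hz y1 (Or.inr rfl)), hz⟩
        · obtain ⟨x, y, hxy, hB⟩ := hW.resolve_left b1
          exact prog x y hxy hB hz fun z h1 h2 => absurd ((hc0 z).1 h1) h2
    · have hp : o p = some c := (hc0 p).2 (Or.inl rfl)
      have hq : o q = some c := (hc0 q).2 (Or.inr rfl)
      have hpq : p ≠ q := by grind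
      rcases (hc0 ys).1 hys with rfl | rfl
      · left; left
        exact rel c ys y1 q hcu hcx hys hW hcy1 hq1 (by grind) (by grind) (by grind) (by grind)
          (Or.inl ⟨w, Or.inl hw, hwy, by grind⟩)
      · have b1 : ¬ A' u ys := fun h => hq2 (hAA _ _ (hlow _ h))
        obtain ⟨x, y, hxy, hB⟩ := hW.resolve_left b1
        by_cases hz : ∃ z, (o z = none ∨ z = y1) ∧ B c z
        · obtain ⟨z, hz, hzB⟩ := hz
          left; left
          refine rel c ys p z hcu hcx hys hW (hA c p hcu hp1) hzB hpq (by grind) (by grind)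
            (by grind) (Or.inl ?_)
          by_cases b2 : z = y1
          · exact ⟨w, Or.inl hw, by grind, by grind⟩
          · exact ⟨y1, Or.inr rfl, by grind, by grind⟩
        · push Not at hz
          right
          refine prog x y hxy hB hz fun z h1 h2 => ?_
          rcases (hc0 z).1 h1 with rfl | rfl
          · exact hp2
          · exact absurd rfl h2
  · -- a core with both points in `W`
    left; left
    have hcu : c ≠ u := by
      obtain ⟨c', h1, h2⟩ := hown y hW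
      grind
    rcases hN c with ⟨y0, hc0, -⟩ | ⟨p, q, hc0, hp1, hp2, hq1, hq2⟩
    · exact absurd (((hc0 y).1 hy).trans ((hc0 y').1 hy').symm) hne
    have hp : o p = some c := (hc0 p).2 (Or.inl rfl)
    have hq : o q = some c := (hc0 q).2 (Or.inr rfl)
    have hpq : p ≠ q := by grind
    have hcx : ∀ x y, X = some (x, y) → c ≠ x := by
      rintro x y hxy rfl
      have := (hX c y hxy).2.1.1
      exact hpq (((this p).1 hp).trans ((this q).1 hq).symm)
    have hWp : W p := by
      have h1 := (hc0 y).1 hy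
      have h2 := (hc0 y').1 hy'
      grind
    have hWq : W q := by
      have h1 := (hc0 y).1 hy
      have h2 := (hc0 y').1 hy'
      grind
    rcases hc with hc | hc
    · have hBw : B c w := (tot c w).resolve_left fun h => hTW w (Or.inl hw) (hS c hc w h)
      exact rel c q p w hcu hcx hq hWq (hA c p hcu hp1) hBw hpq (by grind) (by grind) (by grind)
        (Or.inl ⟨y1, Or.inr rfl, by grind, by grind⟩)
    · have hAw : A' c w := (tot c w).resolve_right fun h => hTW w (Or.inl hw) (hS' c hc w h)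
      exact rel c p w q hcu hcx hp hWp hAw hq1 (by grind) hpq.symm (by grind) (by grind)
        (Or.inl ⟨y1, Or.inr rfl, by grind, by grind⟩)

/-- The exchange step. -/
theorem step [Fintype V] [Fintype R] {A A' B : V → R → Prop} {u : V} {y1 : R}
    (hA' : ∀ v y, A' v y ↔ A v y ∧ ¬ (v = u ∧ y = y1)) (cA : Chain A) (cA' : Chain A')
    (cB : Chain B) (tot : ∀ v y, A' v y ∨ B v y) (hU : UH A' B) (h : ∃ o, Val A B o) :
    (∃ o', Val A' B o') ∨ ∃ o', Norm A B o' ∧ ∀ y, o' y ≠ none := by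
  obtain ⟨o, ho⟩ := h
  obtain ⟨o, hN⟩ := normalise ho
  by_cases h0 : ∃ y, o y = some u ∧ A' u y
  · refine Or.inl ⟨o, fun v => ⟨?_, (hN.val v).2⟩⟩
    by_cases hv : v = u
    · subst hv; exact h0
    · obtain ⟨y, h1, h2⟩ := (hN.val v).1
      exact ⟨y, h1, (hA' v y).2 ⟨h2, fun h => hv h.1⟩⟩
  have hu : Sing A B o u y1 := by
    rcases hN u with ⟨y, hy⟩ | ⟨p, q, hc0, hp1, hp2, -⟩
    · by_cases h1 : y = y1
      · rwa [← h1]
      · exact absurd ⟨y, (hy.1 y).2 rfl, (hA' u y).2 ⟨hy.2.1, fun h => h1 h.2⟩⟩ h0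
    · exact absurd ⟨p, (hc0 p).2 (Or.inl rfl), (tot u p).resolve_right hp2⟩ h0
  have hmu : ∀ X, mu B X ≤ Fintype.card R + 1 := by
    rintro (_ | x)
    · simp [mu]
    · simp only [mu, Option.elim, add_le_add_iff_right]
      rw [← Nat.card_eq_fintype_card, ← Set.ncard_univ]
      exact Set.ncard_le_ncard (Set.subset_univ _)
  have key : ∀ n, ∀ o X, Fintype.card R + 1 - mu B X ≤ n → Norm A B o → Sing A B o u y1 →
      DX A A' B o u y1 X → (∃ o', Val A' B o') ∨ ∃ o', Norm A B o' ∧ ∀ y, o' y ≠ none := by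
    intro n
    induction n with
    | zero =>
      intro o X hn h1 h2 h3
      rcases step_aux hA' cA cA' cB tot hU o X h1 h2 h3 with h | ⟨o', X', -, -, -, h⟩
      · exact h
      · have := hmu X'
        omega
    | succ n ih =>
      intro o X hn h1 h2 h3
      rcases step_aux hA' cA cA' cB tot hU o X h1 h2 h3 with h | ⟨o', X', e1, e2, e3, h⟩
      · exact h
      · exact ih o' X' (by omega) e1 e2 e3
  exact key _ o none le_rfl hN hu fun x y h => by simp at h

end CombP

end Pool.Agent.P.MP_daa8d5_co.Pl
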