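import Mathlib

set_option autoImplicit false

namespace Pool.Agent.P.MP_daa8d5_co.Pl

/-- Twice the signed area of the triangle `a b x`. -/
def D (a b x : ℝ × ℝ) : ℝ := (b.1 - a.1) * (x.2 - a.2) - (b.2 - a.2) * (x.1 - a.1)

/-- No three distinct indices are collinear. -/
def GP {ι : Type} (p : ι → ℝ × ℝ) : Prop :=
  ∀ i j k, i ≠ j → i ≠ k → j ≠ k → D (p i) (p j) (p k) ≠ 0

/-- Strong `t`-good colouring of an indexed family. -/
def Good {ι E : Type} [AddCommGroup E] [Module ℝ E] (m t : ℕ) (p : ι → E) : Prop :=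
  ∃ (c : ι → Fin m) (T : Finset (Fin m)), T.card = t ∧
    ∀ j, ∃ y ∈ convexHull ℝ (p '' {i | c i = j}), ∀ k ∈ T, y ∈ convexHull ℝ (p '' {i | c i = k})

/-- The open half-plane `a x + b y + c < 0` holds fewer than `m` indices. -/
def Few {ι : Type} (m : ℕ) (p : ι → ℝ × ℝ) (a b c : ℝ) : Prop :=
  {i | a * (p i).1 + b * (p i).2 + c < 0}.ncard < m

/-- No open half-plane with fewer than `m` indices contains `z`. -/
def Deep {ι : Type} (m : ℕ) (p : ι → ℝ × ℝ) (z : ℝ × ℝ) : Prop :=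
  ∀ a b c : ℝ, a * z.1 + b * z.2 + c < 0 → ¬ Few m p a b c

/-- No open half-plane with fewer than `m` indices contains both `(0, α)` and `(0, β)`. -/
def HF {ι : Type} (m : ℕ) (p : ι → ℝ × ℝ) (α β : ℝ) : Prop :=
  ∀ a b c : ℝ, b * α + c < 0 → b * β + c < 0 → ¬ Few m p a b c

/-- Every convex set missing fewer than `m` indices meets the segment from `(0, α)` to `(0, β)`. -/
def HC {ι : Type} (m : ℕ) (p : ι → ℝ × ℝ) (α β : ℝ) : Prop :=
  ∀ K : Set (ℝ × ℝ), Convex ℝ K → {i | p i ∉ K}.ncard < m →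
    ∃ η : ℝ, α ≤ η ∧ η ≤ β ∧ ((0 : ℝ), η) ∈ K

/-- Height at which the segment from `v` (left) to `y` (right) crosses the vertical axis. -/
noncomputable def ht (v y : ℝ × ℝ) : ℝ := (y.1 * v.2 - v.1 * y.2) / (y.1 - v.1)

/-- Affine change of coordinates. -/
def G (a1 b1 c1 a2 b2 c2 : ℝ) (x : ℝ × ℝ) : ℝ × ℝ :=
  (a1 * x.1 + b1 * x.2 + c1, a2 * x.1 + b2 * x.2 + c2)

/-- A positively oriented triangle whose three inner open half-planes hold few indices. -/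
def Anti {ι : Type} (m : ℕ) (p : ι → ℝ × ℝ) (a b c : ℝ × ℝ) : Prop :=
  0 < D a b c ∧ {i | 0 < D a b (p i)}.ncard < m ∧ {i | 0 < D b c (p i)}.ncard < m ∧
    {i | 0 < D c a (p i)}.ncard < m

/-- Nested neighbourhoods. -/
def Chain {V R : Type} (A : V → R → Prop) : Prop :=
  ∀ v v' y y', A v y → A v' y' → A v y' ∨ A v' y

/-- The two-sided Hall condition. -/
def UH {V R : Type} (A B : V → R → Prop) : Prop :=
  ∀ (S S' : Set V) (z : R), (∀ c ∈ S, ¬ A c z) → (∀ c ∈ S', ¬ B c z) →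
    S.ncard + S'.ncard ≤ {y | (∃ c ∈ S, A c y) ∨ ∃ c ∈ S', B c y}.ncard

/-- The two-sided Hall condition in slope form. -/
def US {ι : Type} (q : ι → ℝ × ℝ) (Rs : Set ι) (α β : ℝ) : Prop :=
  ∀ (σ τ : ℝ) (z : ι), z ∈ Rs → σ * (q z).1 < (q z).2 - β → (q z).2 - α < τ * (q z).1 →
    {c | (q c).1 < 0 ∧ σ * (q c).1 ≤ (q c).2 - β}.ncard +
      {c | (q c).1 < 0 ∧ (q c).2 - α ≤ τ * (q c).1}.ncard ≤
      {y | y ∈ Rs ∧ ((q y).2 - β ≤ σ * (q y).1 ∨ τ * (q y).1 ≤ (q y).2 - α)}.ncard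

/-- An assignment of right points to left points: members of `T` cover `[α, c]`, the other left
points cross inside `[α, c]`. -/
def Asg {ι : Type} (q : ι → ℝ × ℝ) (Rs : Set ι) (α c : ℝ) (o : ι → Option ι) (T : Set ι) : Prop :=
  (∀ v ∈ T, (q v).1 < 0 ∧ ∃ y ∈ Rs, ∃ y' ∈ Rs, o y = some v ∧ o y' = some v ∧
      ht (q v) (q y) ≤ α ∧ c ≤ ht (q v) (q y')) ∧
    ∀ v, (q v).1 < 0 → v ∉ T → ∃ y ∈ Rs, o y = some v ∧ α ≤ ht (q v) (q y) ∧ ht (q v) (q y) ≤ c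

/-- The standing assumptions of the thin configuration: `m - 1` left points, the right points
`Rs`, and the remaining points on the axis, at most one at height `≥ α` and at most one at
height `≤ β`. -/
def Thin {ι : Type} (m : ℕ) (q : ι → ℝ × ℝ) (Rs : Set ι) (α β : ℝ) : Prop :=
  α ≤ β ∧ HC m q α β ∧ {i | (q i).1 < 0}.ncard + 1 = m ∧ (∀ i ∈ Rs, 0 ≤ (q i).1) ∧
    (∀ i, i ∉ Rs → (q i).1 ≤ 0) ∧
    {i | i ∉ Rs ∧ (q i).1 = 0 ∧ α ≤ (q i).2}.ncard ≤ 1 ∧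
    {i | i ∉ Rs ∧ (q i).1 = 0 ∧ (q i).2 ≤ β}.ncard ≤ 1

end Pool.Agent.P.MP_daa8d5_co.Pl
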