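import Pool.Agent.P.MP_daa8d5_co.Pl.Stm

set_option autoImplicit false

namespace Pool.Agent.P.MP_daa8d5_co.Pl

namespace OneP

/-- Every rank below the size of the set occurs. -/
theorem exists_rank {ι : Type} [Fintype ι] (S : Set ι) (f : ι → ℝ) (hf : Set.InjOn f S) {r : ℕ}
    (hr : r < S.ncard) : ∃ x ∈ S, {j | j ∈ S ∧ f j < f x}.ncard = r := by
  classical
  have mono : ∀ i ∈ S, ∀ j, f i < f j →
      {l | l ∈ S ∧ f l < f i}.ncard < {l | l ∈ S ∧ f l < f j}.ncard := by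
    intro i hi j hij
    refine Set.ncard_lt_ncard ⟨fun l hl => ⟨hl.1, hl.2.trans hij⟩, fun hsub => ?_⟩
    exact lt_irrefl _ (hsub (show i ∈ {l | l ∈ S ∧ f l < f j} from ⟨hi, hij⟩)).2
  have h := Finset.surj_on_of_inj_on_of_card_le (s := S.toFinset) (t := Finset.range S.ncard)
    (fun i _ => {l | l ∈ S ∧ f l < f i}.ncard)
    (fun i hi => Finset.mem_range.2 (Set.ncard_lt_ncard ⟨fun l hl => hl.1, fun hsub =>
      lt_irrefl _ (hsub (Set.mem_toFinset.1 hi)).2⟩))
    (fun i j hi hj e => by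
      have hi' := Set.mem_toFinset.1 hi
      have hj' := Set.mem_toFinset.1 hj
      rcases lt_trichotomy (f i) (f j) with h | h | h
      · exact absurd e (mono i hi' j h).ne
      · exact hf hi' hj' h
      · exact absurd e (mono j hj' i h).ne')
    (by rw [Finset.card_range, Set.ncard_eq_toFinset_card'])
  obtain ⟨x, hx, e⟩ := h r (Finset.mem_range.2 hr)
  exact ⟨x, Set.mem_toFinset.1 hx, e.symm⟩

/-- The normalised configuration with the median point on the axis. -/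
theorem axis (h : SAsm2) {ι : Type} [Fintype ι] {m : ℕ} (q : ι → ℝ × ℝ) (o o2 : ι)
    (hc : Fintype.card ι = 2 * m) (hne : o ≠ o2) (h1 : (q o).1 = 0) (h2 : (q o).2 = 0)
    (h3 : (q o2).1 = 0) (hη : ∀ i, 0 ≤ (q i).2) (hax : ∀ i, (q i).1 = 0 → i = o ∨ i = o2)
    (hb : {i | (q i).1 < 0}.ncard + 1 = m) : Good m 1 q := by
  classical
  have hR : {i | (q i).1 < 0}.ncard ≤ {i | 0 < (q i).1}.ncard := by
    have e1 : (Set.univ : Set ι) ⊆ ({i | (q i).1 < 0} ∪ {i | 0 < (q i).1}) ∪ {o, o2} := by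
      intro i _
      rcases lt_trichotomy (q i).1 0 with h | h | h
      · exact Or.inl (Or.inl h)
      · exact Or.inr (hax i h)
      · exact Or.inl (Or.inr h)
    have e2 := Set.ncard_le_ncard e1
    have e3 := Set.ncard_union_le ({i | (q i).1 < 0} ∪ {i | 0 < (q i).1}) {o, o2}
    have e4 := Set.ncard_union_le {i | (q i).1 < 0} {i | 0 < (q i).1}
    have e5 := Set.ncard_pair hne
    rw [Set.ncard_univ, Nat.card_eq_fintype_card] at e2
    omega
  obtain ⟨e⟩ : Nonempty ({i | (q i).1 < 0} ↪ {i | 0 < (q i).1}) := by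
    apply Function.Embedding.nonempty_of_card_le
    rwa [← Nat.card_eq_fintype_card, ← Nat.card_eq_fintype_card, Nat.card_coe_set_eq,
      Nat.card_coe_set_eq]
  let a : ι → Option ι := fun y =>
    if hy : ∃ v, (e v : ι) = y then some (hy.choose : ι) else none
  have ha : ∀ v, a (e v) = some (v : ι) := fun v => by
    have hy : ∃ w, (e w : ι) = e v := ⟨v, rfl⟩
    simp only [a, dif_pos hy]
    rw [e.injective (Subtype.ext hy.choose_spec)]
  have hpos : ∀ v : {i | (q i).1 < 0}, 0 ≤ ht (q v) (q (e v)) := fun v => by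
    obtain ⟨s, s0, s1, -, -, hs⟩ := ht_comb (v := q v) (y := q (e v)) v.2 (le_of_lt (e v).2)
    rw [← hs]
    exact add_nonneg (mul_nonneg s0 (hη _)) (mul_nonneg (by linarith) (hη _))
  refine h ι m 1 q {i | 0 < (q i).1} 0 (∑ v : {i | (q i).1 < 0}, ht (q v) (q (e v))) a ∅ o o2 hb
    (fun i hi => le_of_lt hi) (fun hi => ?_) (fun hi => ?_) hne h1 h3 h2.le (hη _)
    (Finset.sum_nonneg fun v _ => hpos v) ⟨fun v hv => absurd hv (Set.notMem_empty v),
      fun v hv _ => ⟨e ⟨v, hv⟩, (e ⟨v, hv⟩).2, ha ⟨v, hv⟩, hpos ⟨v, hv⟩,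
        Finset.single_le_sum (f := fun v : {i | (q i).1 < 0} => ht (q v) (q (e v)))
          (fun v _ => hpos v) (Finset.mem_univ (⟨v, hv⟩ : {i | (q i).1 < 0}))⟩⟩ (by simp)
  · exact absurd (show 0 < (q o).1 from hi) (by rw [h1]; exact lt_irrefl _)
  · exact absurd (show 0 < (q o2).1 from hi) (by rw [h3]; exact lt_irrefl _)

/-- One point at the origin, the others above the horizontal axis. -/
theorem apex (h : SAsm2) {ι : Type} [Fintype ι] {m : ℕ} (q : ι → ℝ × ℝ) (o : ι) (hq : GP q)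
    (hm : 1 < m) (hc : Fintype.card ι = 2 * m) (h1 : (q o).1 = 0) (h2 : (q o).2 = 0)
    (hη : ∀ i, i ≠ o → 0 < (q i).2) : Good m 1 q := by
  have hinj : Set.InjOn (fun i => (q i).1 / (q i).2) {i | i ≠ o} := by
    intro i hi j hj e
    by_contra hij
    have e' : (q i).1 * (q j).2 = (q j).1 * (q i).2 :=
      (div_eq_div_iff (hη i hi).ne' (hη j hj).ne').1 e
    apply hq o i j (Ne.symm hi) (Ne.symm hj) hij
    simp only [D, h1, h2]
    linarith
  have hS : ({i | i ≠ o} : Set ι).ncard + 1 = 2 * m := by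
    have := Set.ncard_add_ncard_compl ({o} : Set ι)
    rw [Set.ncard_singleton, Nat.card_eq_fintype_card, hc] at this
    have e : ({i | i ≠ o} : Set ι) = {o}ᶜ := rfl
    rw [e]
    omega
  obtain ⟨o2, ho2, hr⟩ := exists_rank {i | i ≠ o} _ hinj (r := m - 1) (by omega)
  set k := (q o2).1 / (q o2).2 with hk
  have key : ∀ i, (G 1 (-k) 0 0 1 0 (q i)).1 = (q i).1 - k * (q i).2 := fun i => by
    simp only [G]; ring
  have key2 : ∀ i, (G 1 (-k) 0 0 1 0 (q i)).2 = (q i).2 := fun i => by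
    simp only [G]; ring
  refine Good.of_G (a1 := 1) (b1 := -k) (c1 := 0) (a2 := 0) (b2 := 1) (c2 := 0) (by norm_num)
    (axis h _ o o2 hc (Ne.symm ho2) ?_ ?_ ?_ (fun i => ?_) (fun i hi => ?_) ?_)
  · rw [key, h1, h2]; ring
  · rw [key2, h2]
  · rw [key, hk, div_mul_cancel₀ _ (hη o2 ho2).ne', sub_self]
  · rw [key2]
    by_cases hi : i = o
    · rw [hi, h2]
    · exact (hη i hi).le
  · by_cases hio : i = o
    · exact Or.inl hio
    · refine Or.inr (hinj hio ho2 ?_)
      rw [key] at hi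
      show (q i).1 / (q i).2 = k
      rw [div_eq_iff (hη i hio).ne']
      linarith
  · have e : {i | (G 1 (-k) 0 0 1 0 (q i)).1 < 0} =
        {j | j ∈ {i | i ≠ o} ∧ (q j).1 / (q j).2 < k} := by
      ext i
      simp only [Set.mem_ofPred_eq, key]
      by_cases hio : i = o
      · simp [hio, h1, h2]
      · rw [div_lt_iff₀ (hη i hio), sub_neg]
        exact ⟨fun h => ⟨hio, h⟩, fun h => h.2⟩
    rw [e, hr]
    omega

end OneP

theorem sone (h : SAsm2) : SOne := by
  intro ι _ m p hp hm hc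
  have hne : Nonempty ι := Fintype.card_pos_iff.1 (by omega)
  obtain ⟨o, ho⟩ := Finite.exists_max fun i => (p i).1 ^ 2 + (p i).2 ^ 2
  have hinj := hp.inj (by omega)
  have hη : ∀ i, i ≠ o →
      0 < -(p o).1 * (p i).1 + -(p o).2 * (p i).2 + ((p o).1 ^ 2 + (p o).2 ^ 2) := by
    intro i hi
    have h1 := ho i
    have h2 : 0 < ((p i).1 - (p o).1) ^ 2 + ((p i).2 - (p o).2) ^ 2 := by
      by_contra hle
      have a1 : ((p i).1 - (p o).1) ^ 2 = 0 := by
        nlinarith [sq_nonneg ((p i).1 - (p o).1), sq_nonneg ((p i).2 - (p o).2)]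
      have a2 : ((p i).2 - (p o).2) ^ 2 = 0 := by
        nlinarith [sq_nonneg ((p i).1 - (p o).1), sq_nonneg ((p i).2 - (p o).2)]
      exact hi (hinj (Prod.ext (sub_eq_zero.1 (pow_eq_zero_iff two_ne_zero |>.1 a1))
        (sub_eq_zero.1 (pow_eq_zero_iff two_ne_zero |>.1 a2))))
    nlinarith
  have hN : -(p o).2 * -(p o).2 - -(p o).1 * (p o).1 ≠ 0 := by
    obtain ⟨i, hi⟩ := Fintype.exists_ne_of_one_lt_card (α := ι) (by omega) o
    have h1 := hη i hi
    intro h0
    have a1 : (p o).1 = 0 := by nlinarith [sq_nonneg (p o).1, sq_nonneg (p o).2]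
    have a2 : (p o).2 = 0 := by nlinarith [sq_nonneg (p o).1, sq_nonneg (p o).2]
    rw [a1, a2] at h1
    norm_num at h1
  refine Good.of_G (a1 := -(p o).2) (b1 := (p o).1) (c1 := 0) (a2 := -(p o).1) (b2 := -(p o).2)
    (c2 := (p o).1 ^ 2 + (p o).2 ^ 2) hN (OneP.apex h _ o (hp.mapG hN) hm hc ?_ ?_ hη)
  · simp only [G]; ring
  · simp only [G]; ring

end Pool.Agent.P.MP_daa8d5_co.Pl
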