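import Pool.Agent.P.MP_daa8d5_co.Pl.Basic

set_option autoImplicit false

namespace Pool.Agent.P.MP_daa8d5_co.Pl

/-- The abstract exchange theorem. -/
def SComb : Prop :=
  ∀ (V R : Type) [Fintype V] [Fintype R] (h : V → R → ℝ) (α β : ℝ), α ≤ β →
    (∀ c : ℝ, Chain fun v y => h v y < c) → (Chain fun v y => α ≤ h v y) →
    (∀ S : Set V, S.ncard ≤ {y | ∃ c ∈ S, α ≤ h c y}.ncard) →
    UH (fun v y => h v y ≤ β) (fun v y => α ≤ h v y) →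
    ∃ c : ℝ, β ≤ c ∧ ∃ (o : R → Option V) (T : Set V),
      (∀ v ∈ T, ∃ y y', o y = some v ∧ o y' = some v ∧ h v y ≤ α ∧ c ≤ h v y') ∧
      (∀ v, v ∉ T → ∃ y, o y = some v ∧ α ≤ h v y ∧ h v y ≤ c) ∧
      (Fintype.card R ≤ Fintype.card V + T.ncard ∨ (c = β ∧ ∃ w, o w = none))

/-- The two one-sided Hall conditions in slope form. -/
def SHall : Prop :=
  ∀ (ι : Type) [Fintype ι] (m : ℕ) (q : ι → ℝ × ℝ) (Rs : Set ι) (α β : ℝ), Thin m q Rs α β →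
    (∀ τ : ℝ, {c | (q c).1 < 0 ∧ (q c).2 - α ≤ τ * (q c).1}.ncard ≤
      {y | y ∈ Rs ∧ τ * (q y).1 ≤ (q y).2 - α}.ncard) ∧
    ∀ σ : ℝ, {c | (q c).1 < 0 ∧ σ * (q c).1 ≤ (q c).2 - β}.ncard ≤
      {y | y ∈ Rs ∧ (q y).2 - β ≤ σ * (q y).1}.ncard

/-- The points on the axis. -/
def SSpec : Prop :=
  ∀ (ι : Type) [Fintype ι] (m : ℕ) (q : ι → ℝ × ℝ) (α β : ℝ), GP q → 3 ≤ Fintype.card ι →
    α ≤ β → HC m q α β → {i | (q i).1 < 0}.ncard < m →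
    ((∃ i, (q i).1 = 0 ∧ α ≤ (q i).2 ∧ (q i).2 ≤ β) ∨
      ({i | (q i).1 < 0}.ncard + 1 = m ∧ ∃ o1 o2, (q o1).1 = 0 ∧ (q o2).1 = 0 ∧ (q o1).2 < α ∧
        β < (q o2).2 ∧ ∀ i, (q i).1 = 0 → i = o1 ∨ i = o2)) ∧
    (α = β → {i | (q i).1 < 0}.ncard + 1 = m)

/-- The exchange theorem in the thin configuration. -/
def SRun : Prop :=
  ∀ (ι : Type) [Fintype ι] (m : ℕ) (q : ι → ℝ × ℝ) (Rs : Set ι) (α β : ℝ), Thin m q Rs α β →
    US q Rs α β → ∃ c : ℝ, β ≤ c ∧ ∃ (o : ι → Option ι) (T : Set ι), Asg q Rs α c o T ∧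
      (Rs.ncard + 1 ≤ m + T.ncard ∨ (c = β ∧ ∃ w ∈ Rs, o w = none))

/-- Assembly with one special point. -/
def SAsm1 : Prop :=
  ∀ (ι : Type) [Fintype ι] (m t : ℕ) (q : ι → ℝ × ℝ) (Rs : Set ι) (α c : ℝ) (o : ι → Option ι)
    (T : Set ι) (o1 : ι), {i | (q i).1 < 0}.ncard + 1 = m → (∀ i ∈ Rs, 0 ≤ (q i).1) → o1 ∉ Rs →
    (q o1).1 = 0 → (q o1).2 = α → α ≤ c → Asg q Rs α c o T → t ≤ T.ncard → Good m t q

/-- Assembly with two special points. -/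
def SAsm2 : Prop :=
  ∀ (ι : Type) [Fintype ι] (m t : ℕ) (q : ι → ℝ × ℝ) (Rs : Set ι) (α c : ℝ) (o : ι → Option ι)
    (T : Set ι) (o1 o2 : ι), {i | (q i).1 < 0}.ncard + 1 = m → (∀ i ∈ Rs, 0 ≤ (q i).1) →
    o1 ∉ Rs → o2 ∉ Rs → o1 ≠ o2 → (q o1).1 = 0 → (q o2).1 = 0 → (q o1).2 ≤ α → α ≤ (q o2).2 →
    α ≤ c → Asg q Rs α c o T → t ≤ T.ncard + 1 → Good m t q

/-- Filling lemma: a body `C` with inner set `U`, met by all parts, such that every free point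
improves a tight part. -/
def SFill : Prop :=
  ∀ (ι : Type) [Fintype ι] (d n t : ℕ) (p : ι → EuclideanSpace ℝ (Fin d)) (x : ι)
    (U C : Set (EuclideanSpace ℝ (Fin d))), Function.Injective p → U ⊆ C → C ⊆ closure U →
    IsPreconnected U → n * d + t + 1 ≤ Fintype.card ι →
    (∃ o : ι → Option (Fin n), o x = none ∧
      ∀ j, ∃ y ∈ convexHull ℝ (p '' {i | o i = some j}), y ∈ C) →
    (∀ o : ι → Option (Fin n), o x = none →
      (∀ j, ∃ y ∈ convexHull ℝ (p '' {i | o i = some j}), y ∈ C) → ∀ w, w ≠ x → o w = none →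
      ∃ j, (∀ y ∈ convexHull ℝ (p '' {i | o i = some j}), y ∉ U) ∧
        ∃ y ∈ convexHull ℝ (p '' insert w {i | o i = some j}), y ∈ U) →
    ∃ o : ι → Option (Fin n), o x = none ∧
      (∀ j, ∃ y ∈ convexHull ℝ (p '' {i | o i = some j}), y ∈ C) ∧
      ∃ T : Set (Fin n), t ≤ T.ncard ∧ ∀ j ∈ T, C ⊆ convexHull ℝ (p '' {i | o i = some j})

/-- Anchor lemma in every dimension. -/
def SAncE : Prop :=
  ∀ (ι κ : Type) [Fintype ι] [Fintype κ] (d n t : ℕ) (p : ι → EuclideanSpace ℝ (Fin d)) (x : ι)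
    (f : κ → EuclideanSpace ℝ (Fin d) →L[ℝ] ℝ) (c : κ → ℝ), Function.Injective p → 1 ≤ d →
    n * d + t + 1 ≤ Fintype.card ι → (∀ y, ∃ k, f k y + c k < 0) → (∀ k, f k (p x) + c k ≤ 0) →
    (∀ k, p x ∉ convexHull ℝ (p '' {i | i ≠ x ∧ 0 ≤ f k (p i) + c k})) →
    (∀ k, {i | f k (p i) + c k < 0}.ncard ≤ n) → Good (n + 1) t p

/-- Anchor lemma in the plane. -/
def SAnc : Prop :=
  ∀ (ι κ : Type) [Fintype ι] [Fintype κ] (m t : ℕ) (q : ι → ℝ × ℝ) (x : ι) (a b c : κ → ℝ),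
    GP q → 1 ≤ t → t < m → Fintype.card ι + 1 = 2 * m + t → (∀ k, a k ≠ 0 ∨ b k ≠ 0) →
    (∀ y : ℝ × ℝ, ∃ k, a k * y.1 + b k * y.2 + c k < 0) →
    (∀ k, a k * (q x).1 + b k * (q x).2 + c k ≤ 0) → (∀ k, Few m q (a k) (b k) (c k)) →
    Good m t q

/-- Thin case at a deep point. -/
def SThinD : Prop :=
  ∀ (ι : Type) [Fintype ι] (m t : ℕ) (q : ι → ℝ × ℝ), GP q → 1 ≤ t → t < m →
    Fintype.card ι + 1 = 2 * m + t → {i | (q i).1 < 0}.ncard < m → HF m q 0 0 → Good m t q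

/-- In the triangle case the two-sided Hall condition holds, or the anchor lemma applies. -/
def SUA : Prop :=
  ∀ (ι : Type) [Fintype ι] (m t : ℕ) (q : ι → ℝ × ℝ), GP q → 1 ≤ t → t < m →
    Fintype.card ι + 1 = 2 * m + t → Thin m q {i | 0 < (q i).1} 0 1 →
    (∀ i, (q i).1 = 0 → (q i).2 < 0 ∨ 1 < (q i).2) →
    {i | (q i).2 < 1 + (q i).1}.ncard < m → {i | 0 < (q i).2}.ncard < m →
    US q {i | 0 < (q i).1} 0 1 ∨ Good m t q

/-- Thin case at a side of the triangle. -/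
def SThinA : Prop :=
  ∀ (ι : Type) [Fintype ι] (m t : ℕ) (q : ι → ℝ × ℝ), GP q → 1 ≤ t → t < m →
    Fintype.card ι + 1 = 2 * m + t → {i | (q i).1 < 0}.ncard < m →
    {i | (q i).2 < 1 + (q i).1}.ncard < m → {i | 0 < (q i).2}.ncard < m → HF m q 0 1 →
    Good m t q

/-- The case `t = 1`. -/
def SOne : Prop :=
  ∀ (ι : Type) [Fintype ι] (m : ℕ) (p : ι → ℝ × ℝ), GP p → 1 < m → Fintype.card ι = 2 * m →
    Good m 1 p

/-- Without a deep point there is a triangle (Helly). -/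
def STri : Prop :=
  ∀ (ι : Type) [Fintype ι] (m : ℕ) (p : ι → ℝ × ℝ), 0 < m → 2 * m ≤ Fintype.card ι + 1 →
    (∀ z, ¬ Deep m p z) → ∃ a b c, Anti m p a b c

/-- A triangle with the longest side. -/
def SMax : Prop :=
  ∀ (ι : Type) [Fintype ι] (m : ℕ) (p : ι → ℝ × ℝ), GP p → 2 * m < Fintype.card ι →
    (∃ a b c, Anti m p a b c) →
    ∃ a b c, Anti m p a b c ∧ ∀ a' b' c', Anti m p a' b' c' → ‖b' - a'‖ ≤ ‖b - a‖

/-- The longest side is contained in no light half-plane. -/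
def SStar : Prop :=
  ∀ (ι : Type) [Fintype ι] (m : ℕ) (p : ι → ℝ × ℝ) (a b c : ℝ × ℝ),
    2 * m ≤ Fintype.card ι + 1 → Anti m p a b c →
    (∀ a' b' c', Anti m p a' b' c' → ‖b' - a'‖ ≤ ‖b - a‖) →
    ∃ a1 b1 c1 a2 b2 c2 : ℝ, a1 * b2 - a2 * b1 ≠ 0 ∧
      {i | (G a1 b1 c1 a2 b2 c2 (p i)).1 < 0}.ncard < m ∧
      {i | (G a1 b1 c1 a2 b2 c2 (p i)).2 < 1 + (G a1 b1 c1 a2 b2 c2 (p i)).1}.ncard < m ∧
      {i | 0 < (G a1 b1 c1 a2 b2 c2 (p i)).2}.ncard < m ∧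
      HF m (fun i => G a1 b1 c1 a2 b2 c2 (p i)) 0 1

/-- A deep point on the boundary of the deep region, with a supporting line. -/
def SDeep : Prop :=
  ∀ (ι : Type) [Fintype ι] (m : ℕ) (p : ι → ℝ × ℝ) (z : ℝ × ℝ), 0 < m → m ≤ Fintype.card ι →
    Deep m p z → ∃ a1 b1 c1 a2 b2 c2 : ℝ, a1 * b2 - a2 * b1 ≠ 0 ∧
      {i | (G a1 b1 c1 a2 b2 c2 (p i)).1 < 0}.ncard < m ∧
      HF m (fun i => G a1 b1 c1 a2 b2 c2 (p i)) 0 0

/-- Reduction to general position. -/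
def SPert : Prop :=
  ∀ (ι : Type) [Fintype ι] (m t : ℕ), (∀ p : ι → ℝ × ℝ, GP p → Good m t p) →
    ∀ p : ι → ℝ × ℝ, Good m t p

/-- The planar theorem for indexed families. -/
def SAll : Prop :=
  ∀ (ι : Type) [Fintype ι] (m t : ℕ) (p : ι → ℝ × ℝ), 1 ≤ t → t < m →
    Fintype.card ι + 1 = 2 * m + t → Good m t p

theorem sall (h1 : SThinD) (h2 : SThinA) (h3 : SOne) (h4 : STri) (h5 : SMax) (h6 : SStar)
    (h7 : SDeep) (h8 : SPert) : SAll := by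
  intro ι _ m t p ht htm hc
  refine h8 ι m t (fun p hp => ?_) p
  rcases eq_or_lt_of_le ht with h | h
  · subst h
    exact h3 ι m p hp htm (by omega)
  by_cases hz : ∃ z, Deep m p z
  · obtain ⟨z, hz⟩ := hz
    obtain ⟨a1, b1, c1, a2, b2, c2, hδ, e1, e2⟩ := h7 ι m p z (by omega) (by omega) hz
    exact Good.of_G hδ (h1 ι m t _ (hp.mapG hδ) ht htm hc e1 e2)
  · push Not at hz
    obtain ⟨a, b, c, hA, hmax⟩ := h5 ι m p hp (by omega) (h4 ι m p (by omega) (by omega) hz)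
    obtain ⟨a1, b1, c1, a2, b2, c2, hδ, e1, e2, e3, e4⟩ := h6 ι m p a b c (by omega) hA hmax
    exact Good.of_G hδ (h2 ι m t _ (hp.mapG hδ) ht htm hc e1 e2 e3 e4)

theorem final (h : SAll) (m t : ℕ) (ht : 1 ≤ t) (htm : t < m)
    (S : Finset (EuclideanSpace ℝ (Fin 2))) (hS : (m - 1) * 2 + t + 1 ≤ S.card) :
    ∃ c : EuclideanSpace ℝ (Fin 2) → Fin m, ∃ T : Finset (Fin m), T.card = t ∧
      ∀ j : Fin m, ∃ y ∈ convexHull ℝ {x : EuclideanSpace ℝ (Fin 2) | x ∈ S ∧ c x = j},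
        ∀ i ∈ T, y ∈ convexHull ℝ {x : EuclideanSpace ℝ (Fin 2) | x ∈ S ∧ c x = i} := by
  classical
  obtain ⟨S', hS', hc⟩ := Finset.exists_subset_card_eq hS
  have hg := h S' m t (fun i => (i.1 0, i.1 1)) ht htm (by rw [Fintype.card_coe, hc]; omega)
  let L : (ℝ × ℝ) →ₗ[ℝ] EuclideanSpace ℝ (Fin 2) :=
    { toFun := fun x => !₂[x.1, x.2]
      map_add' := fun x y => by ext i; fin_cases i <;> simp
      map_smul' := fun r x => by ext i; fin_cases i <;> simp }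
  have hL : ∀ x : EuclideanSpace ℝ (Fin 2), L (x 0, x 1) = x := by
    intro x; ext i; fin_cases i <;> simp [L]
  have hg2 := hg.map L.toAffineMap
  simp only [LinearMap.coe_toAffineMap, hL] at hg2
  obtain ⟨c, T, hT, hh⟩ := hg2
  let c' : EuclideanSpace ℝ (Fin 2) → Fin m := fun x =>
    if hx : x ∈ S' then c ⟨x, hx⟩ else ⟨0, by omega⟩
  have hsub : ∀ j, (fun i : S' => i.1) '' {i | c i = j} ⊆ {x | x ∈ S ∧ c' x = j} := by
    rintro j _ ⟨i, hi, rfl⟩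
    refine ⟨hS' i.2, ?_⟩
    simp only [c', dif_pos i.2]
    exact hi
  refine ⟨c', T, hT, fun j => ?_⟩
  obtain ⟨y, hy, hk⟩ := hh j
  exact ⟨y, convexHull_mono (hsub j) hy, fun i hi => convexHull_mono (hsub i) (hk i hi)⟩

end Pool.Agent.P.MP_daa8d5_co.Pl
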